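import Pool.Agent.Y649.DG.Main
import Pool.Agent.Y649.DG.Gen
import Pool.Agent.Y638.RF.NetZT

set_option autoImplicit false

/-! # Formulas with determinant gates: triangles of weight zero -/

namespace Pool.Agent.R562.DGET

open Finset Pool.Agent.TH697.Form Pool.Agent.TH697.Row
open Pool.Agent.Y649.DG
open Pool.Agent.Y638.RF.ZT (InRange zeroTri first card_first asks_first)

theorem bound_et {n c w : ℕ} (hn : 100 ≤ n) (hc : 1 ≤ c) (hw : 1 ≤ w) {Ω : Type} [Fintype Ω]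
    (μ : Ω → ℝ) (hμ : IsProb μ) (s : ℕ)
    (F : Ω → Fml (Fin 3 × Fin n × Fin n) (fun _ => ℤ) w (n ^ c)) (hs : ∀ ω, (F ω).size ≤ s)
    (hF : ApproximatesOn μ (fun ω => (F ω).accepts) InRange zeroTri) :
    (n : ℝ) ^ 5 ≤ 10 ^ 7 * c * w ^ 3 * Real.logb 2 n * s ^ 2 := by
  classical
  have hn' : (100 : ℝ) ≤ n := by exact_mod_cast hn
  have hw' : (1 : ℝ) ≤ w := by exact_mod_cast hw
  have hc' : (1 : ℝ) ≤ c := by exact_mod_cast hc
  have hs0 : (0 : ℝ) ≤ s := Nat.cast_nonneg s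
  have hl : (6 : ℝ) ≤ Real.logb 2 n := by
    have h11 : ((2 : ℝ)) ^ 6 ≤ n := by linarith
    have h12 := Real.logb_le_logb_of_le (by norm_num : (1 : ℝ) < 2) (by positivity) h11
    rw [Real.logb_pow, Real.logb_self_eq_one (by norm_num)] at h12
    norm_num at h12
    exact h12
  by_cases hsm : n ^ 3 ≤ s
  · have h1 : (n : ℝ) ^ 3 ≤ s := by exact_mod_cast hsm
    have h2 : (n : ℝ) ^ 5 ≤ (s : ℝ) ^ 2 := by
      calc (n : ℝ) ^ 5 ≤ (n : ℝ) ^ 6 := pow_le_pow_right₀ (by linarith) (by norm_num)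
        _ = ((n : ℝ) ^ 3) ^ 2 := by ring
        _ ≤ (s : ℝ) ^ 2 := pow_le_pow_left₀ (by positivity) h1 2
    have h3 : (1 : ℝ) ≤ w ^ 3 := one_le_pow₀ hw'
    have h4 : (1 : ℝ) ≤ 10 ^ 7 * c * w ^ 3 * Real.logb 2 n := by
      have h5 : (1 : ℝ) ≤ 10 ^ 7 * c := by linarith
      have h6 : (1 : ℝ) ≤ 10 ^ 7 * c * w ^ 3 := one_le_mul_of_one_le_of_one_le h5 h3
      exact one_le_mul_of_one_le_of_one_le h6 (by linarith)
    have h5 : 0 ≤ (s : ℝ) ^ 2 := by positivity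
    nlinarith
  have hM : 4 * n * (5 * s + 1) + 2 + s ≤ n ^ 5 := by
    have h1 : s < n ^ 3 := by omega
    have h2 : 4 * n * (5 * s + 1) ≤ 4 * n * (5 * n ^ 3) := Nat.mul_le_mul_left _ (by omega)
    have h3 : 4 * n * (5 * n ^ 3) = 20 * n ^ 4 := by ring
    have h4 : n ^ 3 ≤ n ^ 4 := Nat.pow_le_pow_right (by omega) (by norm_num)
    have h5 : 100 * n ^ 4 ≤ n ^ 5 := by
      calc 100 * n ^ 4 ≤ n * n ^ 4 := Nat.mul_le_mul_right _ hn
        _ = n ^ 5 := by ring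
    have h6 : 1 ≤ n ^ 4 := Nat.one_le_pow _ _ (by omega)
    omega
  obtain ⟨l, hl'⟩ : ∃ l : ℝ, l = Real.logb 2 (n : ℝ) := ⟨_, rfl⟩
  have hLL : 1 + 5 * Real.logb 2 ((n ^ 5 : ℕ) : ℝ) +
      ((w : ℝ) - 1) * Real.logb 2 ((n ^ c : ℕ) : ℝ) ≤ 26 * c * w * Real.logb 2 n := by
    rw [Nat.cast_pow n 5, Nat.cast_pow n c, Real.logb_pow, Real.logb_pow, ← hl']
    rw [← hl'] at hl
    push_cast
    have h1 : (1 : ℝ) + 5 * (5 * l) ≤ 26 * l := by linarith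
    have h2 : l ≤ c * l := by nlinarith
    have h3 : 0 ≤ ((w : ℝ) - 1) * (c * l) := mul_nonneg (by linarith) (by positivity)
    nlinarith
  have h := bound_sq bound (D := fun _ : Fin 3 × Fin n × Fin n => ℤ) μ hμ F InRange zeroTri hF s hs
    (Nat.one_le_pow _ _ (by omega)) hw n (n ^ 5) hM 0 (by norm_num) (first n) (T := Fin n)
    asks_first (n : ℝ) hn' (by rw [Fintype.card_fin]) (26 * c * w * Real.logb 2 n) hLL
  rw [card_first] at h
  push_cast at h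
  have h6 : 0 ≤ (c : ℝ) * w ^ 3 * Real.logb 2 n * s ^ 2 := by positivity
  have e1 : ((n : ℝ) ^ 2) ^ 2 * n = n ^ 5 := by ring
  rw [e1] at h
  nlinarith

end Pool.Agent.R562.DGET
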