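import Mathlib

/-!
# Exact Triangle on the upper triangle of the matrix
-/

set_option autoImplicit false

namespace Pool.Agent.R562.Ht

/-- A valid instance of Exact Triangle on `n` vertices: the edge flags `e` and the weights `w` are
symmetric, there are no loops, and the absolute values of the weights are at most `B`. -/
def ETInst (n B : ℕ) (e : Fin n → Fin n → Bool) (w : Fin n → Fin n → ℤ) : Prop :=
  (∀ i j, e i j = e j i) ∧ (∀ i j, w i j = w j i) ∧ (∀ i, e i i = false) ∧
    ∀ i j, |w i j| ≤ (B : ℤ)

/-- There are three vertices, pairwise distinct and adjacent, with sum of the weights zero. -/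
def ZeroTri {n : ℕ} (e : Fin n → Fin n → Bool) (w : Fin n → Fin n → ℤ) : Prop :=
  ∃ i j k : Fin n, i ≠ j ∧ j ≠ k ∧ i ≠ k ∧ e i j = true ∧ e j k = true ∧ e i k = true ∧
    w i j + w j k + w i k = 0

/-- The input word: the matrix of the pairs (edge flag, weight), row by row, where the cells on and
below the diagonal are blank.  The letter at the position `p` is the cell in row `p / n` and column
`p % n`. -/
def upper (n : ℕ) (e : Fin n → Fin n → Bool) (w : Fin n → Fin n → ℤ) (p : Fin (n * n)) :
    Bool × ℤ :=
  if p.divNat < p.modNat then (e p.divNat p.modNat, w p.divNat p.modNat) else (false, 0)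

end Pool.Agent.R562.Ht
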