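import Pool.Agent.R562.ETDefs

/-!
# Exact Triangle and equal values in two families of rows
-/

set_option autoImplicit false

open Finset

namespace Pool.Agent.R562.Ht

/-- the cell in row `i` and column `j > i`: the rows below `A` form the first side, the rows from
`A` to `2 A` the second side, and the columns from `M` on carry the values -/
def cell (A M : ℕ) (u : ℕ → ℕ → ℕ) (i j : ℕ) : Bool × ℤ :=
  if i < 2 * A ∧ M ≤ j then (true, if i < A then (u i (j - M) : ℤ) else -(u i (j - M) : ℤ))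
  else if i < A ∧ A ≤ j ∧ j < 2 * A then (true, 0) else (false, 0)

/-- the edge flags -/
def ef (n A M : ℕ) (u : ℕ → ℕ → ℕ) (i j : Fin n) : Bool :=
  (cell A M u (min (i : ℕ) j) (max (i : ℕ) j)).1

/-- the weights -/
def wf (n A M : ℕ) (u : ℕ → ℕ → ℕ) (i j : Fin n) : ℤ :=
  (cell A M u (min (i : ℕ) j) (max (i : ℕ) j)).2

theorem cell_diag (A M : ℕ) (u : ℕ → ℕ → ℕ) (hAM : 2 * A ≤ M) (i : ℕ) :
    cell A M u i i = (false, 0) := by
  unfold cell
  rw [if_neg (by omega), if_neg (by omega)]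

theorem cell_abs (A M B : ℕ) (u : ℕ → ℕ → ℕ) (hu : ∀ i c, u i c ≤ B) (i j : ℕ) :
    |(cell A M u i j).2| ≤ (B : ℤ) := by
  unfold cell
  have h := hu i (j - M)
  split_ifs
  · simp only [Nat.abs_cast]; exact_mod_cast h
  · simp only [abs_neg, Nat.abs_cast]; exact_mod_cast h
  · simp
  · simp

theorem inst (n A M B : ℕ) (u : ℕ → ℕ → ℕ) (hAM : 2 * A ≤ M) (hu : ∀ i c, u i c ≤ B) :
    ETInst n B (ef n A M u) (wf n A M u) := by
  refine ⟨fun i j => ?_, fun i j => ?_, fun i => ?_, fun i j => ?_⟩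
  · unfold ef; rw [min_comm, max_comm]
  · unfold wf; rw [min_comm, max_comm]
  · unfold ef; rw [min_self, max_self, cell_diag A M u hAM]
  · exact cell_abs A M B u hu _ _

theorem ef_lt (n A M : ℕ) (u : ℕ → ℕ → ℕ) (i j : Fin n) (h : i < j) :
    ef n A M u i j = (cell A M u i j).1 := by
  have h' : (i : ℕ) < j := h
  unfold ef; rw [min_eq_left h'.le, max_eq_right h'.le]

theorem wf_lt (n A M : ℕ) (u : ℕ → ℕ → ℕ) (i j : Fin n) (h : i < j) :
    wf n A M u i j = (cell A M u i j).2 := by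
  have h' : (i : ℕ) < j := h
  unfold wf; rw [min_eq_left h'.le, max_eq_right h'.le]

theorem sorted {n : ℕ} (e : Fin n → Fin n → Bool) (w : Fin n → Fin n → ℤ)
    (he : ∀ i j, e i j = e j i) (hw : ∀ i j, w i j = w j i) (h : ZeroTri e w) :
    ∃ i j k : Fin n, i < j ∧ j < k ∧ e i j = true ∧ e j k = true ∧ e i k = true ∧
      w i j + w j k + w i k = 0 := by
  obtain ⟨i, j, k, hij, hjk, hik, h1, h2, h3, h4⟩ := h
  rcases lt_or_gt_of_ne hij with a | a <;> rcases lt_or_gt_of_ne hjk with b | b <;>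
    rcases lt_or_gt_of_ne hik with c | c
  · exact ⟨i, j, k, a, b, h1, h2, h3, h4⟩
  · exact absurd (a.trans b) (lt_asymm c)
  · exact ⟨i, k, j, c, b, h3, by rw [he]; exact h2, h1, by rw [hw k j]; linarith⟩
  · exact ⟨k, i, j, c, a, by rw [he]; exact h3, h1, by rw [he]; exact h2,
      by rw [hw k i, hw k j]; linarith⟩
  · exact ⟨j, i, k, a, c, by rw [he]; exact h1, h3, h2, by rw [hw j i]; linarith⟩
  · exact ⟨j, k, i, b, c, h2, by rw [he]; exact h3, by rw [he]; exact h1,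
      by rw [hw k i, hw j i]; linarith⟩
  · exact absurd (b.trans a) (lt_asymm c)
  · exact ⟨k, j, i, b, a, by rw [he]; exact h2, by rw [he]; exact h1, by rw [he]; exact h3,
      by rw [hw k j, hw j i, hw k i]; linarith⟩

/-- without equal values there is no triangle of weight zero -/
theorem no_tri (n A M : ℕ) (u : ℕ → ℕ → ℕ) (hAM : 2 * A ≤ M)
    (h : ∀ i j c, i < A → A ≤ j → j < 2 * A → M + c < n → u i c ≠ u j c) :
    ¬ ZeroTri (ef n A M u) (wf n A M u) := by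
  intro hz
  obtain ⟨i, j, k, hij, hjk, h1, h2, h3, h4⟩ := sorted _ _
    (fun i j => by unfold ef; rw [min_comm, max_comm])
    (fun i j => by unfold wf; rw [min_comm, max_comm]) hz
  have hik := hij.trans hjk
  rw [ef_lt n A M u i j hij] at h1
  rw [ef_lt n A M u j k hjk] at h2
  rw [ef_lt n A M u i k hik] at h3
  rw [wf_lt n A M u i j hij, wf_lt n A M u j k hjk, wf_lt n A M u i k hik] at h4
  have hij' : (i : ℕ) < j := hij
  have hjk' : (j : ℕ) < k := hjk
  have hk := k.2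
  obtain ⟨i, hi⟩ := i
  obtain ⟨j, hj⟩ := j
  obtain ⟨k, hk'⟩ := k
  simp only at *
  have c1 : (i < 2 * A ∧ M ≤ j) ∨ (i < A ∧ A ≤ j ∧ j < 2 * A) := by
    unfold cell at h1; by_contra hc; push Not at hc
    rw [if_neg (by omega), if_neg (by omega)] at h1; simp at h1
  have c2 : (j < 2 * A ∧ M ≤ k) ∨ (j < A ∧ A ≤ k ∧ k < 2 * A) := by
    unfold cell at h2; by_contra hc; push Not at hc
    rw [if_neg (by omega), if_neg (by omega)] at h2; simp at h2
  have c3 : (i < 2 * A ∧ M ≤ k) ∨ (i < A ∧ A ≤ k ∧ k < 2 * A) := by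
    unfold cell at h3; by_contra hc; push Not at hc
    rw [if_neg (by omega), if_neg (by omega)] at h3; simp at h3
  have hiA : i < A := by omega
  have hjA : A ≤ j := by omega
  have hjA2 : j < 2 * A := by omega
  have hMk : M ≤ k := by omega
  unfold cell at h4
  rw [if_neg (show ¬ (i < 2 * A ∧ M ≤ j) by omega), if_pos (show i < A ∧ A ≤ j ∧ j < 2 * A by omega),
    if_pos (show j < 2 * A ∧ M ≤ k by omega), if_neg (show ¬ j < A by omega),
    if_pos (show i < 2 * A ∧ M ≤ k by omega), if_pos hiA] at h4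
  simp only at h4
  apply h i j (k - M) hiA hjA hjA2 (by omega)
  have : (u i (k - M) : ℤ) = u j (k - M) := by linarith
  exact_mod_cast this

/-- equal values give a triangle of weight zero -/
theorem tri_of_eq (n A M : ℕ) (u : ℕ → ℕ → ℕ) (hAM : 2 * A ≤ M) (i j c : ℕ) (hi : i < A)
    (hj : A ≤ j) (hj2 : j < 2 * A) (hc : M + c < n) (h : u i c = u j c) :
    ZeroTri (ef n A M u) (wf n A M u) := by
  have h1 : (⟨i, by omega⟩ : Fin n) < ⟨j, by omega⟩ := by
    show i < j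
    omega
  have h2 : (⟨j, by omega⟩ : Fin n) < ⟨M + c, hc⟩ := by
    show j < M + c
    omega
  refine ⟨⟨i, by omega⟩, ⟨j, by omega⟩, ⟨M + c, hc⟩, h1.ne, h2.ne, (h1.trans h2).ne, ?_, ?_, ?_, ?_⟩
  · rw [ef_lt _ _ _ _ _ _ h1]
    unfold cell
    rw [if_neg (show ¬ (i < 2 * A ∧ M ≤ j) by omega),
      if_pos (show i < A ∧ A ≤ j ∧ j < 2 * A by omega)]
  · rw [ef_lt _ _ _ _ _ _ h2]
    unfold cell
    rw [if_pos (show j < 2 * A ∧ M ≤ M + c by omega)]
  · rw [ef_lt _ _ _ _ _ _ (h1.trans h2)]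
    unfold cell
    rw [if_pos (show i < 2 * A ∧ M ≤ M + c by omega)]
  · rw [wf_lt _ _ _ _ _ _ h1, wf_lt _ _ _ _ _ _ h2, wf_lt _ _ _ _ _ _ (h1.trans h2)]
    unfold cell
    simp only
    rw [if_neg (show ¬ (i < 2 * A ∧ M ≤ j) by omega),
      if_pos (show i < A ∧ A ≤ j ∧ j < 2 * A by omega),
      if_pos (show j < 2 * A ∧ M ≤ M + c by omega), if_neg (show ¬ j < A by omega),
      if_pos (show i < 2 * A ∧ M ≤ M + c by omega), if_pos hi, Nat.add_sub_cancel_left, h]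
    ring

/-- the values of the rows, from the values of the zones -/
def uu {H ρ h U : ℕ} (v : Fin (2 * H) → Fin (ρ * h) → Fin U) (i c : ℕ) : ℕ :=
  if hi : i / ρ < 2 * H ∧ 0 < ρ ∧ c < h then
    (v ⟨i / ρ, hi.1⟩ (finProdFinEquiv (⟨i % ρ, Nat.mod_lt _ hi.2.1⟩, ⟨c, hi.2.2⟩)) : ℕ) else 0

theorem uu_le {H ρ h U : ℕ} (v : Fin (2 * H) → Fin (ρ * h) → Fin U) (i c : ℕ) : uu v i c ≤ U := by
  unfold uu
  split_ifs with hi
  · exact (v _ _).2.le
  · exact Nat.zero_le _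

theorem uu_eq {H ρ h U : ℕ} (v : Fin (2 * H) → Fin (ρ * h) → Fin U) (a : Fin (2 * H)) (r : Fin ρ)
    (c : Fin h) : uu v ((a : ℕ) * ρ + r) c = (v a (finProdFinEquiv (r, c)) : ℕ) := by
  have hρ : 0 < ρ := lt_of_le_of_lt (Nat.zero_le _) r.2
  have h1 : ((a : ℕ) * ρ + r) / ρ = a := by
    rw [mul_comm, Nat.mul_add_div hρ, Nat.div_eq_of_lt r.2, add_zero]
  have h2 : ((a : ℕ) * ρ + r) % ρ = r := by
    rw [mul_comm, Nat.mul_add_mod, Nat.mod_eq_of_lt r.2]
  unfold uu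
  rw [dif_pos ⟨by rw [h1]; exact a.2, hρ, c.2⟩]
  congr 2
  · exact Fin.ext h1
  · congr 2
    exact Fin.ext h2

/-- the word of a family -/
def wdE (n H ρ h U : ℕ) (v : Fin (2 * H) → Fin (ρ * h) → Fin U) : Fin (n * n) → Bool × ℤ :=
  upper n (ef n (H * ρ) (n - h) (uu v)) (wf n (H * ρ) (n - h) (uu v))

theorem wdE_local (n H ρ h U : ℕ) (hρ : 0 < ρ) (v v' : Fin (2 * H) → Fin (ρ * h) → Fin U)
    (p : Fin (n * n)) (hv : ∀ h : (p : ℕ) / (n * ρ) < 2 * H,
      v ⟨(p : ℕ) / (n * ρ), h⟩ = v' ⟨(p : ℕ) / (n * ρ), h⟩) :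
    wdE n H ρ h U v p = wdE n H ρ h U v' p := by
  unfold wdE upper
  by_cases hlt : p.divNat < p.modNat
  · rw [if_pos hlt, if_pos hlt, ef_lt _ _ _ _ _ _ hlt, ef_lt _ _ _ _ _ _ hlt,
      wf_lt _ _ _ _ _ _ hlt, wf_lt _ _ _ _ _ _ hlt]
    have hrow : ((p.divNat : Fin n) : ℕ) = (p : ℕ) / n := Fin.coe_divNat p
    have hz : (p : ℕ) / (n * ρ) = (p.divNat : ℕ) / ρ := by
      rw [hrow, Nat.div_div_eq_div_mul]
    have hu : ∀ c, uu v (p.divNat : ℕ) c = uu v' (p.divNat : ℕ) c := by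
      intro c
      unfold uu
      by_cases hi : (p.divNat : ℕ) / ρ < 2 * H ∧ 0 < ρ ∧ c < h
      · rw [dif_pos hi, dif_pos hi]
        have h1 := hv (by rw [hz]; exact hi.1)
        have h2 : (⟨(p : ℕ) / (n * ρ), by rw [hz]; exact hi.1⟩ : Fin (2 * H))
            = ⟨(p.divNat : ℕ) / ρ, hi.1⟩ := Fin.ext hz
        rw [h2] at h1
        rw [h1]
      · rw [dif_neg hi, dif_neg hi]
    unfold cell
    simp only [hu]
  · rw [if_neg hlt, if_neg hlt]

end Pool.Agent.R562.Ht
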