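import Mathlib

/-!
# Parameters and counting for the engines with two sides
-/

set_option autoImplicit false

open Finset

namespace Pool.Agent.R562.Ht

/-- two equal values -/
theorem card_eq_pair {D d U : ℕ} (a b : Fin D) (i j : Fin d) (h : ¬ (a = b ∧ i = j)) :
    U * ((univ : Finset (Fin D → Fin d → Fin U)).filter (fun v => v a i = v b j)).card
      ≤ U ^ (d * D) := by
  classical
  have h1 : ((univ : Finset (Fin U)) ×ˢ
      ((univ : Finset (Fin D → Fin d → Fin U)).filter (fun v => v a i = v b j))).card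
      ≤ (univ : Finset (Fin D → Fin d → Fin U)).card := by
    apply card_le_card_of_injOn
      (fun p => Function.update p.2 b (Function.update (p.2 b) j p.1))
    · intro p _
      exact mem_coe.mpr (mem_univ _)
    · rintro ⟨u, v⟩ hv ⟨u', v'⟩ hv' he
      simp only [coe_product, Set.mem_prod, mem_coe, mem_filter, mem_univ, true_and] at hv hv'
      simp only at he
      have hb : Function.update (v b) j u = Function.update (v' b) j u' := by
        have := congrFun he b
        simpa using this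
      have hu : u = u' := by
        have := congrFun hb j
        simpa using this
      have hne : ∀ z, z ≠ b → v z = v' z := by
        intro z hz
        have := congrFun he z
        simpa [Function.update_of_ne hz] using this
      have hbi : ∀ t, t ≠ j → v b t = v' b t := by
        intro t ht
        have := congrFun hb t
        simpa [Function.update_of_ne ht] using this
      have hai : v a i = v' a i := by
        by_cases hab : a = b
        · subst hab
          exact hbi i (fun hij => h ⟨rfl, hij⟩)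
        · rw [hne a hab]
      have hvv : v = v' := by
        funext z t
        by_cases hz : z = b
        · subst hz
          by_cases ht : t = j
          · subst ht
            rw [← hv, ← hv', hai]
          · exact hbi t ht
        · rw [hne z hz]
      rw [hu, hvv]
  rw [card_product, card_univ, Fintype.card_fin, card_univ, Fintype.card_fun, Fintype.card_fun,
    Fintype.card_fin, Fintype.card_fin, Fintype.card_fin, ← pow_mul] at h1
  exact h1

/-- the union bound -/
theorem card_some_pair {D d U : ℕ} (E : Finset ((Fin D × Fin d) × (Fin D × Fin d)))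
    (hE : ∀ e ∈ E, e.1 ≠ e.2) :
    U * ((univ : Finset (Fin D → Fin d → Fin U)).filter
      (fun v => ∃ e ∈ E, v e.1.1 e.1.2 = v e.2.1 e.2.2)).card ≤ E.card * U ^ (d * D) := by
  classical
  have h1 : (univ : Finset (Fin D → Fin d → Fin U)).filter
      (fun v => ∃ e ∈ E, v e.1.1 e.1.2 = v e.2.1 e.2.2) ⊆ E.biUnion (fun e =>
        (univ : Finset (Fin D → Fin d → Fin U)).filter (fun v => v e.1.1 e.1.2 = v e.2.1 e.2.2)) := by
    intro v hv
    obtain ⟨e, he, h⟩ := (mem_filter.mp hv).2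
    exact mem_biUnion.mpr ⟨e, he, mem_filter.mpr ⟨mem_univ _, h⟩⟩
  calc U * _ ≤ U * ∑ e ∈ E, ((univ : Finset (Fin D → Fin d → Fin U)).filter
          (fun v => v e.1.1 e.1.2 = v e.2.1 e.2.2)).card :=
        Nat.mul_le_mul_left _ ((card_le_card h1).trans card_biUnion_le)
    _ = ∑ e ∈ E, U * ((univ : Finset (Fin D → Fin d → Fin U)).filter
          (fun v => v e.1.1 e.1.2 = v e.2.1 e.2.2)).card := by rw [mul_sum]
    _ ≤ ∑ e ∈ E, U ^ (d * D) := by
        apply Finset.sum_le_sum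
        intro e he
        apply card_eq_pair
        rintro ⟨h1, h2⟩
        exact hE e he (Prod.ext h1 h2)
    _ = E.card * U ^ (d * D) := by rw [sum_const, smul_eq_mul]

/-- the complement of a rare event -/
theorem card_good {D d U : ℕ} (E : Finset ((Fin D × Fin d) × (Fin D × Fin d)))
    (hE : ∀ e ∈ E, e.1 ≠ e.2) (hU : 8193 * E.card ≤ U) (hU0 : 0 < U)
    (G : Finset (Fin D → Fin d → Fin U))
    (hG : ∀ v, (∀ e ∈ E, v e.1.1 e.1.2 ≠ v e.2.1 e.2.2) → v ∈ G) :
    8192 * U ^ (d * D) ≤ 8193 * G.card := by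
  classical
  have h1 := card_some_pair (U := U) E hE
  obtain ⟨B, hB⟩ : ∃ B, B = (univ : Finset (Fin D → Fin d → Fin U)).filter
      (fun v => ∃ e ∈ E, v e.1.1 e.1.2 = v e.2.1 e.2.2) := ⟨_, rfl⟩
  rw [← hB] at h1
  have h2 : (univ : Finset (Fin D → Fin d → Fin U)).card ≤ B.card + G.card := by
    refine le_trans (card_le_card ?_) (card_union_le B G)
    intro v _
    rw [mem_union]
    by_cases h : ∃ e ∈ E, v e.1.1 e.1.2 = v e.2.1 e.2.2
    · left; rw [hB]; exact mem_filter.mpr ⟨mem_univ _, h⟩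
    · right
      push Not at h
      exact hG v h
  rw [card_univ, Fintype.card_fun, Fintype.card_fun, Fintype.card_fin, Fintype.card_fin,
    Fintype.card_fin, ← pow_mul] at h2
  have h3 : 8193 * B.card ≤ U ^ (d * D) := by
    apply Nat.le_of_mul_le_mul_left _ hU0
    calc U * (8193 * B.card) = 8193 * (U * B.card) := by ring
      _ ≤ 8193 * (E.card * U ^ (d * D)) := Nat.mul_le_mul_left _ h1
      _ = (8193 * E.card) * U ^ (d * D) := by ring
      _ ≤ U * U ^ (d * D) := Nat.mul_le_mul_right _ hU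
  omega

theorem card_good2 {D d U : ℕ} (G : Finset (Fin D → Fin d → Fin U))
    (h : 8192 * U ^ (d * D) ≤ 8193 * G.card) : U ^ (d * D) ≤ 2 * G.card := by omega

/-- the parameters for matrices -/
theorem paramsM (n k T S : ℕ) (hn : 2 ≤ n) (hk : 1 ≤ k) (hkS : k ≤ S + 1)
    (hcon : 100000000 * (k * (S + 1) * (k * T + n ^ 2) ^ 2) < n ^ 6) :
    ∃ q ρ H : ℕ, 1 ≤ q ∧ 1 ≤ ρ ∧ 2 * H * ρ ≤ n - n / 2 ∧ 2700 * (q * (S + 1)) ≤ ρ * (n / 2) ∧
      12 * k * (61 * q) ≤ H ∧ 12 * k * (T / (n * ρ) + 1) < (61 * q + 1) * H := by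
  obtain ⟨h, hh⟩ : ∃ h, h = n / 2 := ⟨_, rfl⟩
  rw [← hh]
  have hn2 : 0 < n ^ 2 := by positivity
  obtain ⟨q, hq⟩ : ∃ q, q = k * T / n ^ 2 + 1 := ⟨_, rfl⟩
  have hq1 : 1 ≤ q := by rw [hq]; exact Nat.le_add_left 1 _
  have hkT : k * T < n ^ 2 * q := by
    rw [hq]
    have h1 := Nat.div_add_mod (k * T) (n ^ 2)
    have h2 := Nat.mod_lt (k * T) hn2
    calc k * T = n ^ 2 * (k * T / n ^ 2) + k * T % n ^ 2 := h1.symm
      _ < n ^ 2 * (k * T / n ^ 2) + n ^ 2 := by omega
      _ = n ^ 2 * (k * T / n ^ 2 + 1) := by ring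
  have hnq : n ^ 2 * q ≤ k * T + n ^ 2 := by
    rw [hq, mul_add, mul_one]
    have := Nat.mul_div_le (k * T) (n ^ 2)
    omega
  have hX : 100000000 * (k * (S + 1) * q ^ 2) < n ^ 2 := by
    have h1 : 100000000 * (k * (S + 1) * q ^ 2) * n ^ 4 < n ^ 2 * n ^ 4 := by
      calc 100000000 * (k * (S + 1) * q ^ 2) * n ^ 4
          = 100000000 * (k * (S + 1) * (n ^ 2 * q) ^ 2) := by ring
        _ ≤ 100000000 * (k * (S + 1) * (k * T + n ^ 2) ^ 2) := by gcongr
        _ < n ^ 6 := hcon
        _ = n ^ 2 * n ^ 4 := by ring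
    exact Nat.lt_of_mul_lt_mul_right h1
  obtain ⟨y, hy⟩ : ∃ y, y = k * q := ⟨_, rfl⟩
  have hy1 : 1 ≤ y := by rw [hy]; exact Nat.one_le_iff_ne_zero.mpr (by positivity)
  have hyX : y ^ 2 ≤ k * (S + 1) * q ^ 2 := by
    rw [hy]
    calc (k * q) ^ 2 = k * k * q ^ 2 := by ring
      _ ≤ k * (S + 1) * q ^ 2 := by gcongr
  have hyn : 10000 * y < n := by
    by_contra hlt
    push Not at hlt
    have : n ^ 2 ≤ (10000 * y) ^ 2 := Nat.pow_le_pow_left hlt 2
    have h2 : (10000 * y) ^ 2 = 100000000 * y ^ 2 := by ring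
    omega
  have h3h : n ≤ 3 * h := by omega
  have hh0 : 0 < h := by omega
  have hnh : 2 * (n - h) ≥ n := by omega
  have hnh2 : 2 * h ≤ n := by omega
  obtain ⟨ρ, hρ⟩ : ∃ ρ, ρ = 2700 * (q * (S + 1)) / h + 1 := ⟨_, rfl⟩
  have hρ1 : 1 ≤ ρ := by rw [hρ]; exact Nat.le_add_left 1 _
  have hρh : 2700 * (q * (S + 1)) ≤ ρ * h := by
    rw [hρ]
    have h1 := Nat.div_add_mod (2700 * (q * (S + 1))) h
    have h2 := Nat.mod_lt (2700 * (q * (S + 1))) hh0
    calc 2700 * (q * (S + 1)) = h * (2700 * (q * (S + 1)) / h) + 2700 * (q * (S + 1)) % h :=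
          h1.symm
      _ ≤ h * (2700 * (q * (S + 1)) / h) + h := by omega
      _ = (2700 * (q * (S + 1)) / h + 1) * h := by ring
  have hρh2 : ρ * h ≤ 2700 * (q * (S + 1)) + h := by
    rw [hρ, add_mul, one_mul]
    have := Nat.div_mul_le_self (2700 * (q * (S + 1))) h
    omega
  obtain ⟨H, hH⟩ : ∃ H, H = (n - h) / (2 * ρ) := ⟨_, rfl⟩
  have hH2 : 732 * y * (2 * ρ) ≤ n - h := by
    apply Nat.le_of_mul_le_mul_right _ hh0
    have e1 : 732 * y * (2 * ρ) * h ≤ 3952800 * (k * (S + 1) * q ^ 2) + 1464 * y * h := by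
      calc 732 * y * (2 * ρ) * h = 1464 * y * (ρ * h) := by ring
        _ ≤ 1464 * y * (2700 * (q * (S + 1)) + h) := Nat.mul_le_mul_left _ hρh2
        _ = 3952800 * (k * (S + 1) * q ^ 2) + 1464 * y * h := by rw [hy]; ring
    have e2 : n ^ 2 ≤ 6 * ((n - h) * h) := by
      have := Nat.mul_le_mul hnh h3h
      calc n ^ 2 = n * n := by ring
        _ ≤ 2 * (n - h) * (3 * h) := this
        _ = 6 * ((n - h) * h) := by ring
    have e3 : 1464 * y * h * 10 ≤ n ^ 2 := by
      have h1 : 10000 * y * (2 * h) ≤ n * n := Nat.mul_le_mul hyn.le hnh2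
      have h2 : 1464 * y * h * 10 = 14640 * (y * h) := by ring
      have h3 : 10000 * y * (2 * h) = 20000 * (y * h) := by ring
      have h4 : n ^ 2 = n * n := by ring
      rw [h2, h4]
      omega
    omega
  have hρ2 : 0 < 2 * ρ := by omega
  have hH3 : 732 * y ≤ H := by
    rw [hH, Nat.le_div_iff_mul_le hρ2]
    exact hH2
  have hHρ : 2 * H * ρ ≤ n - h := by
    rw [hH]
    calc 2 * ((n - h) / (2 * ρ)) * ρ = (n - h) / (2 * ρ) * (2 * ρ) := by ring
      _ ≤ n - h := Nat.div_mul_le_self _ _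
  refine ⟨q, ρ, H, hq1, hρ1, hHρ, hρh, ?_, ?_⟩
  · calc 12 * k * (61 * q) = 732 * y := by rw [hy]; ring
      _ ≤ H := hH3
  · have hnρ : 0 < n * ρ := by positivity
    apply Nat.lt_of_mul_lt_mul_left (a := n * ρ)
    have h1 : n * ρ * (T / (n * ρ)) ≤ T := Nat.mul_div_le T (n * ρ)
    have h2 : n - h < 2 * ρ * (H + 1) := by
      rw [hH]
      have h4 := Nat.div_add_mod (n - h) (2 * ρ)
      have h5 := Nat.mod_lt (n - h) hρ2
      calc n - h = 2 * ρ * ((n - h) / (2 * ρ)) + (n - h) % (2 * ρ) := h4.symm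
        _ < 2 * ρ * ((n - h) / (2 * ρ)) + 2 * ρ := by omega
        _ = 2 * ρ * ((n - h) / (2 * ρ) + 1) := by ring
    have h3 : n ≤ 5 * (ρ * H) := by
      have e1 : 2 * ρ * (H + 1) = 2 * (ρ * H) + 2 * ρ := by ring
      have e2 : 732 * ρ ≤ ρ * H := by
        calc 732 * ρ ≤ 732 * y * ρ := by nlinarith
          _ ≤ H * ρ := Nat.mul_le_mul_right _ hH3
          _ = ρ * H := by ring
      omega
    have hkH : 12 * k ≤ q * H := by
      have h51 : k ≤ y := by rw [hy]; exact Nat.le_mul_of_pos_right _ hq1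
      have h52 : H ≤ q * H := Nat.le_mul_of_pos_left _ hq1
      omega
    calc n * ρ * (12 * k * (T / (n * ρ) + 1))
        = 12 * k * (n * ρ * (T / (n * ρ))) + 12 * k * (n * ρ) := by ring
      _ ≤ 12 * k * T + q * H * (n * ρ) :=
          Nat.add_le_add (Nat.mul_le_mul_left _ h1) (Nat.mul_le_mul_right _ hkH)
      _ = 12 * (k * T) + q * H * (n * ρ) := by ring
      _ < 12 * (n ^ 2 * q) + q * H * (n * ρ) := by omega
      _ = 12 * n * q * n + q * H * (n * ρ) := by ring
      _ ≤ 12 * n * q * (5 * (ρ * H)) + q * H * (n * ρ) := by gcongr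
      _ = n * ρ * (61 * q * H) := by ring
      _ ≤ n * ρ * ((61 * q + 1) * H) := by gcongr; omega

end Pool.Agent.R562.Ht
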