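import Pool.Agent.TH457.HT.EngineF

/-!
# Randomized slow heads: two sides and equal places

The engine of `Pool.Agent.TH457.HT.EngineF` in a form in which only the values at the same place of
a zone of the first side and of a zone of the second side are compared.
-/

set_option autoImplicit false

open Finset

namespace Pool.Agent.R562.Ht

open Pool.Agent.TH457.HT

/-- **Corruption**, equal places. In a large rectangle there are many planted collisions. -/
theorem corruptD {d U : ℕ} (A B : Finset (Fin d → Fin U)) (hd : 0 < d) (hU : 0 < U)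
    (hA : 2 * ((967 : ℝ) / 1000) ^ d * (U : ℝ) ^ d < A.card)
    (hB : 2 * ((967 : ℝ) / 1000) ^ d * (U : ℝ) ^ d < B.card) :
    d * (A.card * B.card) ≤ 2048 * ∑ i, (plant A B i i).card := by
  classical
  have h1 := spread A hd hU hA
  have h2 := spread B hd hU hB
  set BA := (univ : Finset (Fin d)).filter (fun i => 8 * (Wset A i).card ≤ 5 * U) with hBA
  set BB := (univ : Finset (Fin d)).filter (fun i => 8 * (Wset B i).card ≤ 5 * U) with hBB
  set GG := (univ : Finset (Fin d)) \ (BA ∪ BB) with hGG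
  have hcG : d ≤ 2 * GG.card := by
    have h3 := Finset.card_sdiff_add_card_inter (univ : Finset (Fin d)) (BA ∪ BB)
    have h4 := card_union_le BA BB
    rw [Finset.univ_inter, card_univ, Fintype.card_fin] at h3
    rw [← hGG] at h3
    omega
  have hpair : ∀ i ∈ GG, A.card * B.card ≤ 1024 * (plant A B i i).card := by
    intro i hi
    have hi1 := (mem_sdiff.mp hi).2
    rw [mem_union, not_or] at hi1
    have hi2 : ¬ 8 * (Wset A i).card ≤ 5 * U := fun h => hi1.1 (mem_filter.mpr ⟨mem_univ _, h⟩)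
    have hj2 : ¬ 8 * (Wset B i).card ≤ 5 * U := fun h => hi1.2 (mem_filter.mpr ⟨mem_univ _, h⟩)
    have hint : U ≤ 4 * (Wset A i ∩ Wset B i).card := by
      have h3 := Finset.card_union_add_card_inter (Wset A i) (Wset B i)
      have h4 := card_le_univ (Wset A i ∪ Wset B i)
      rw [Fintype.card_fin] at h4
      omega
    have h5 : (Wset A i ∩ Wset B i).card * (A.card * B.card)
        ≤ 256 * U * ∑ v, cnt A i v * (U * cnt B i v) := by
      calc (Wset A i ∩ Wset B i).card * (A.card * B.card)
          = ∑ v ∈ Wset A i ∩ Wset B i, A.card * B.card := by rw [sum_const, smul_eq_mul]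
        _ ≤ ∑ v ∈ Wset A i ∩ Wset B i, (16 * U * cnt A i v) * (16 * U * cnt B i v) := by
            apply Finset.sum_le_sum
            intro v hv
            rw [mem_inter] at hv
            exact Nat.mul_le_mul (mem_filter.mp hv.1).2 (mem_filter.mp hv.2).2
        _ ≤ ∑ v, (16 * U * cnt A i v) * (16 * U * cnt B i v) :=
            Finset.sum_le_sum_of_subset (subset_univ _)
        _ = 256 * U * ∑ v, cnt A i v * (U * cnt B i v) := by
            rw [mul_sum]; apply Finset.sum_congr rfl; intro v _; ring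
    have h6 := card_plant A B i i
    have h7 : U * (A.card * B.card) ≤ U * (1024 * (plant A B i i).card) := by
      calc U * (A.card * B.card) ≤ 4 * (Wset A i ∩ Wset B i).card * (A.card * B.card) :=
            Nat.mul_le_mul_right _ hint
        _ = 4 * ((Wset A i ∩ Wset B i).card * (A.card * B.card)) := by ring
        _ ≤ 4 * (256 * U * ∑ v, cnt A i v * (U * cnt B i v)) := Nat.mul_le_mul_left _ h5
        _ = U * (1024 * ∑ v, cnt A i v * (U * cnt B i v)) := by ring
        _ ≤ U * (1024 * (plant A B i i).card) :=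
            Nat.mul_le_mul_left _ (Nat.mul_le_mul_left _ h6)
    exact Nat.le_of_mul_le_mul_left h7 hU
  calc d * (A.card * B.card) ≤ 2 * GG.card * (A.card * B.card) := Nat.mul_le_mul_right _ hcG
    _ = 2 * ∑ i ∈ GG, A.card * B.card := by rw [sum_const, smul_eq_mul]; ring
    _ ≤ 2 * ∑ i ∈ GG, 1024 * (plant A B i i).card :=
        Nat.mul_le_mul_left _ (Finset.sum_le_sum (fun i hi => hpair i hi))
    _ ≤ 2 * ∑ i, 1024 * (plant A B i i).card :=
        Nat.mul_le_mul_left _ (Finset.sum_le_sum_of_subset (subset_univ _))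
    _ = 2048 * ∑ i, (plant A B i i).card := by rw [← mul_sum]; ring

/-- a set of families closed under crossing over has many planted collisions -/
theorem plantFD {D d U : ℕ} (hd : 0 < d) (hU : 0 < U) (F : Finset (Fin D → Fin d → Fin U))
    (a b : Fin D) (hab : a ≠ b)
    (hrest : ∀ x ∈ F, ∀ y ∈ F, ∀ z, z ≠ a → z ≠ b → x z = y z)
    (hmix : ∀ x ∈ F, ∀ y ∈ F, Function.update x b (y b) ∈ F) :
    (d : ℝ) * F.card ≤ 2048 * ∑ i,
      (((univ : Finset (Fin D → Fin d → Fin U)).filter (fun v => TT a b i i v ∈ F)).card : ℝ)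
      + (d : ℝ) * (eta d * ((U : ℝ) ^ d) ^ 2) := by
  classical
  set A := F.image (fun x => x a) with hA
  set B := F.image (fun x => x b) with hB
  have hcard : F.card ≤ A.card * B.card := by
    rw [← card_product]
    apply card_le_card_of_injOn (fun x => (x a, x b))
    · intro x hx
      simp only [coe_product, Set.mem_prod, mem_coe]
      exact ⟨mem_image_of_mem _ hx, mem_image_of_mem _ hx⟩
    · intro x hx y hy hxy
      simp only [Prod.mk.injEq] at hxy
      funext z
      by_cases ha : z = a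
      · subst ha; exact hxy.1
      · by_cases hb : z = b
        · subst hb; exact hxy.2
        · exact hrest x hx y hy z ha hb
  have hcardR : (F.card : ℝ) ≤ A.card * B.card := by exact_mod_cast hcard
  have hAU : (A.card : ℝ) ≤ (U : ℝ) ^ d := by
    have := card_le_univ A
    rw [Fintype.card_fun, Fintype.card_fin, Fintype.card_fin] at this
    exact_mod_cast this
  have hBU : (B.card : ℝ) ≤ (U : ℝ) ^ d := by
    have := card_le_univ B
    rw [Fintype.card_fun, Fintype.card_fin, Fintype.card_fin] at this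
    exact_mod_cast this
  have hη : 0 ≤ eta d := by unfold eta; positivity
  have hUd : (0 : ℝ) ≤ (U : ℝ) ^ d := by positivity
  have hsum0 : (0 : ℝ) ≤ 2048 * ∑ i : Fin d,
      (((univ : Finset (Fin D → Fin d → Fin U)).filter (fun v => TT a b i i v ∈ F)).card : ℝ) :=
    mul_nonneg (by norm_num) (Finset.sum_nonneg (fun i _ => Nat.cast_nonneg _))
  by_cases hbig : eta d * (U : ℝ) ^ d < A.card ∧ eta d * (U : ℝ) ^ d < B.card
  · have h1 := corruptD A B hd hU hbig.1 hbig.2
    have hne : A.Nonempty := by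
      rw [← card_pos]
      have h2 : (0 : ℝ) < A.card := lt_of_le_of_lt (by positivity) hbig.1
      exact_mod_cast h2
    obtain ⟨x0, hx0⟩ := hne
    obtain ⟨v0, hv0, -⟩ := mem_image.mp hx0
    have h2 : ∀ i, (plant A B i i).card ≤
        ((univ : Finset (Fin D → Fin d → Fin U)).filter (fun v => TT a b i i v ∈ F)).card := by
      intro i
      apply card_le_card_of_injOn (fun p => Function.update (Function.update v0 a p.1) b p.2)
      · rintro ⟨x, y⟩ hp
        unfold plant at hp
        simp only [coe_filter, Set.mem_ofPred_eq, mem_product, mem_univ, and_true] at hp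
        obtain ⟨hx, hy⟩ := hp
        obtain ⟨f1, hf1, hf1x⟩ := mem_image.mp hx
        obtain ⟨f2, hf2, hf2y⟩ := mem_image.mp hy
        simp only [coe_filter, Set.mem_ofPred_eq, mem_univ, true_and]
        unfold TT
        rw [Function.update_self, Function.update_of_ne hab, Function.update_self,
          Function.update_idem]
        have e : Function.update (Function.update v0 a x) b (Function.update y i (x i))
            = Function.update f1 b (f2 b) := by
          rw [hf2y]
          funext z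
          by_cases hzb : z = b
          · subst hzb; rw [Function.update_self, Function.update_self]
          · rw [Function.update_of_ne hzb, Function.update_of_ne hzb]
            by_cases hza : z = a
            · subst hza; rw [Function.update_self]; exact hf1x.symm
            · rw [Function.update_of_ne hza]
              exact hrest v0 hv0 f1 hf1 z hza hzb
        rw [e]
        exact hmix f1 hf1 f2 hf2
      · rintro ⟨x, y⟩ _ ⟨x', y'⟩ _ h
        simp only at h
        have h3 := congrFun h a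
        rw [Function.update_of_ne hab, Function.update_of_ne hab, Function.update_self,
          Function.update_self] at h3
        have h4 := congrFun h b
        rw [Function.update_self, Function.update_self] at h4
        rw [h3, h4]
    have h3 : (d : ℝ) * (A.card * B.card) ≤ 2048 * ∑ i, ((plant A B i i).card : ℝ) := by
      exact_mod_cast h1
    have h4 : ∑ i, ((plant A B i i).card : ℝ) ≤ ∑ i : Fin d,
        (((univ : Finset (Fin D → Fin d → Fin U)).filter
          (fun v => TT a b i i v ∈ F)).card : ℝ) :=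
      Finset.sum_le_sum (fun i _ => by exact_mod_cast h2 i)
    have h5 : (d : ℝ) * F.card ≤ (d : ℝ) * (A.card * B.card) :=
      mul_le_mul_of_nonneg_left hcardR (by positivity)
    have h6 : (0 : ℝ) ≤ (d : ℝ) * (eta d * ((U : ℝ) ^ d) ^ 2) := by positivity
    linarith
  · have h1 : (A.card : ℝ) * B.card ≤ eta d * ((U : ℝ) ^ d) ^ 2 := by
      rw [not_and_or, not_lt, not_lt] at hbig
      rcases hbig with h | h
      · calc (A.card : ℝ) * B.card ≤ (eta d * (U : ℝ) ^ d) * (U : ℝ) ^ d :=
              mul_le_mul h hBU (by positivity) (by positivity)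
          _ = eta d * ((U : ℝ) ^ d) ^ 2 := by ring
      · calc (A.card : ℝ) * B.card ≤ (U : ℝ) ^ d * (eta d * (U : ℝ) ^ d) :=
              mul_le_mul hAU h (by positivity) (by positivity)
          _ = eta d * ((U : ℝ) ^ d) ^ 2 := by ring
    have h2 : (d : ℝ) * F.card ≤ (d : ℝ) * (eta d * ((U : ℝ) ^ d) ^ 2) :=
      mul_le_mul_of_nonneg_left (hcardR.trans h1) (by positivity)
    linarith

/-- the same with classes -/
theorem plantHD {D d U : ℕ} {κ : Type} [Fintype κ] (hd : 0 < d) (hU : 0 < U)
    (H : Finset (Fin D → Fin d → Fin U)) (key : (Fin D → Fin d → Fin U) → κ)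
    (a b : Fin D) (hab : a ≠ b)
    (hmix : ∀ x ∈ H, ∀ y ∈ H, key x = key y → (∀ z, z ≠ a → z ≠ b → x z = y z) →
      Function.update x b (y b) ∈ H ∧ key (Function.update x b (y b)) = key x) :
    (d : ℝ) * H.card ≤ 2048 * ∑ i,
      (((univ : Finset (Fin D → Fin d → Fin U)).filter (fun v => TT a b i i v ∈ H)).card : ℝ)
      + (d : ℝ) * (Fintype.card κ * (eta d * (U : ℝ) ^ (d * D))) := by
  classical
  have hD : 2 ≤ D := by
    by_contra hlt
    apply hab
    have h1 := a.2
    have h2 := b.2
    apply Fin.ext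
    omega
  obtain ⟨g, hg⟩ : ∃ g : (Fin D → Fin d → Fin U) →
      κ × ({z : Fin D // z ≠ a ∧ z ≠ b} → Fin d → Fin U),
      g = fun x => (key x, fun z : {z : Fin D // z ≠ a ∧ z ≠ b} => x z) := ⟨_, rfl⟩
  obtain ⟨Fc, hFc⟩ : ∃ Fc : κ × ({z : Fin D // z ≠ a ∧ z ≠ b} → Fin d → Fin U) →
      Finset (Fin D → Fin d → Fin U), Fc = fun t => H.filter (fun x => g x = t) := ⟨_, rfl⟩
  have hcls : ∀ t, (d : ℝ) * (Fc t).card ≤ 2048 * ∑ i,
      (((univ : Finset (Fin D → Fin d → Fin U)).filter
        (fun v => TT a b i i v ∈ Fc t)).card : ℝ)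
      + (d : ℝ) * (eta d * ((U : ℝ) ^ d) ^ 2) := by
    intro t
    apply plantFD hd hU (Fc t) a b hab
    · intro x hx y hy z hza hzb
      rw [hFc] at hx hy
      have h1 := (mem_filter.mp hx).2
      have h2 := (mem_filter.mp hy).2
      have h3 := h1.trans h2.symm
      rw [hg] at h3
      exact congrFun (congrArg Prod.snd h3) ⟨z, hza, hzb⟩
    · intro x hx y hy
      rw [hFc] at hx hy ⊢
      obtain ⟨hx1, hx2⟩ := mem_filter.mp hx
      obtain ⟨hy1, hy2⟩ := mem_filter.mp hy
      have h3 := hx2.trans hy2.symm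
      rw [hg] at h3
      have h4 := hmix x hx1 y hy1 (congrArg Prod.fst h3)
        (fun z hza hzb => congrFun (congrArg Prod.snd h3) ⟨z, hza, hzb⟩)
      refine mem_filter.mpr ⟨h4.1, ?_⟩
      rw [← hx2, hg]
      dsimp only
      rw [h4.2]
      congr 1
      funext z
      rw [Function.update_of_ne z.2.2]
  have hH : (H.card : ℝ) = ∑ t, ((Fc t).card : ℝ) := by
    rw [Finset.card_eq_sum_card_fiberwise (f := g) (t := univ) (fun x _ => mem_univ _), hFc]
    push_cast
    rfl
  have hpl : ∀ i, ∑ t, (((univ : Finset (Fin D → Fin d → Fin U)).filter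
        (fun v => TT a b i i v ∈ Fc t)).card : ℝ)
      = (((univ : Finset (Fin D → Fin d → Fin U)).filter
        (fun v => TT a b i i v ∈ H)).card : ℝ) := by
    intro i
    rw [Finset.card_eq_sum_card_fiberwise (s := (univ : Finset (Fin D → Fin d → Fin U)).filter
        (fun v => TT a b i i v ∈ H)) (f := fun v => g (TT a b i i v)) (t := univ)
        (fun x _ => mem_univ _)]
    push_cast
    apply Finset.sum_congr rfl
    intro t _
    congr 2
    ext v
    rw [hFc]
    simp only [mem_filter, mem_univ, true_and]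
  have hsub : Fintype.card {z : Fin D // z ≠ a ∧ z ≠ b} = D - 2 := by
    rw [Fintype.card_subtype]
    have e : (univ : Finset (Fin D)).filter (fun z => z ≠ a ∧ z ≠ b) = (univ.erase a).erase b := by
      ext z; simp [mem_erase, and_comm]
    rw [e, card_erase_of_mem (mem_erase.mpr ⟨hab.symm, mem_univ _⟩),
      card_erase_of_mem (mem_univ _), card_univ, Fintype.card_fin]
    omega
  have hT : (Fintype.card (κ × ({z : Fin D // z ≠ a ∧ z ≠ b} → Fin d → Fin U)) : ℝ)
      = Fintype.card κ * ((U : ℝ) ^ d) ^ (D - 2) := by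
    rw [Fintype.card_prod, Fintype.card_fun, hsub, Fintype.card_fun, Fintype.card_fin,
      Fintype.card_fin]
    push_cast
    rfl
  calc (d : ℝ) * H.card = ∑ t, (d : ℝ) * ((Fc t).card : ℝ) := by rw [hH, mul_sum]
    _ ≤ ∑ t, (2048 * ∑ i,
      (((univ : Finset (Fin D → Fin d → Fin U)).filter
        (fun v => TT a b i i v ∈ Fc t)).card : ℝ)
      + (d : ℝ) * (eta d * ((U : ℝ) ^ d) ^ 2)) := Finset.sum_le_sum (fun t _ => hcls t)
    _ = 2048 * ∑ i,
      (((univ : Finset (Fin D → Fin d → Fin U)).filter (fun v => TT a b i i v ∈ H)).card : ℝ)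
      + (d : ℝ) * (Fintype.card κ * (eta d * (U : ℝ) ^ (d * D))) := by
      rw [Finset.sum_add_distrib, ← mul_sum, Finset.sum_comm]
      congr 1
      · congr 1
        apply Finset.sum_congr rfl
        intro i _
        exact hpl i
      · rw [sum_const, nsmul_eq_mul, card_univ, hT]
        have e : (U : ℝ) ^ (d * D) = ((U : ℝ) ^ d) ^ (D - 2) * ((U : ℝ) ^ d) ^ 2 := by
          rw [← pow_add, show D - 2 + 2 = D by omega, ← pow_mul]
        rw [e]; ring

variable {Λ : Type} {n k : ℕ}

/-- planted collisions for a pair of zones -/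
theorem plantPD (P : DetProg Λ n k) (lam D d U R : ℕ) (hd : 0 < d) (hU : 0 < U)
    (wd : (Fin D → Fin d → Fin U) → (Fin n → Λ))
    (hloc : ∀ v v' (p : Fin n), (∀ h : (p : ℕ) / lam < D,
      v ⟨(p : ℕ) / lam, h⟩ = v' ⟨(p : ℕ) / lam, h⟩) → wd v p = wd v' p)
    (a b : Fin D) (hab : a ≠ b) :
    (d : ℝ) * (HH P lam D d U R wd a b).card ≤ 2048 * ∑ i, PL P wd a b i i
      + (d : ℝ) * (((Fintype.card P.Cfg + 1) ^ R : ℕ) * (eta d * (U : ℝ) ^ (d * D))) := by
  classical
  have hex : ∀ v ∈ HH P lam D d U R wd a b, ∃ τ : List P.Cfg, τ.length ≤ R ∧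
      Can P lam a b (wd v) false P.start τ := fun v hv => (mem_HH P lam D d U R wd a b v).mp hv
  choose! τ hlen hcan using hex
  have h := plantHD (κ := Fin R → Option P.Cfg) hd hU (HH P lam D d U R wd a b)
    (fun v i => (τ v)[(i : ℕ)]?) a b hab (by
      intro x hx y hy hkey hrest
      have e := getElem?_ext (R := R) (hlen x hx) (hlen y hy) hkey
      have hz : Can P lam a b (wd (Function.update x b (y b))) false P.start (τ x) := by
        refine Can_mix P lam a b (wd x) (wd y) _ ?_ ?_ (τ x) false P.start (hcan x hx)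
          (by rw [e]; exact hcan y hy)
        · intro p hp
          apply hloc
          intro h
          apply Function.update_of_ne
          intro hh
          exact hp (congrArg Fin.val hh)
        · intro p hp
          apply hloc
          intro h
          by_cases hpb : (⟨(p : ℕ) / lam, h⟩ : Fin D) = b
          · rw [hpb, Function.update_self]
          · rw [Function.update_of_ne hpb]
            apply hrest _ _ hpb
            intro hh
            exact hp (congrArg Fin.val hh)
      have hzH : Function.update x b (y b) ∈ HH P lam D d U R wd a b :=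
        (mem_HH P lam D d U R wd a b _).mpr ⟨τ x, hlen x hx, hz⟩
      refine ⟨hzH, ?_⟩
      rw [Can_unique P lam a b _ _ _ false P.start (hcan _ hzH) hz])
  rw [Fintype.card_fun, Fintype.card_fin, Fintype.card_option] at h
  have hmono : ∀ i, ((((univ : Finset (Fin D → Fin d → Fin U)).filter
      (fun v => TT a b i i v ∈ HH P lam D d U R wd a b)).card : ℕ) : ℝ)
      ≤ PL P wd a b i i := by
    intro i
    unfold PL
    have : ((univ : Finset (Fin D → Fin d → Fin U)).filter
      (fun v => TT a b i i v ∈ HH P lam D d U R wd a b)).card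
      ≤ ((univ : Finset (Fin D → Fin d → Fin U)).filter
      (fun v => TT a b i i v ∈ AI P wd)).card := by
      apply card_le_card
      intro v hv
      rw [mem_filter] at hv ⊢
      exact ⟨hv.1, HH_sub P lam D d U R wd a b hv.2⟩
    exact_mod_cast this
  refine h.trans ?_
  apply add_le_add_left
  apply mul_le_mul_of_nonneg_left _ (by norm_num)
  exact Finset.sum_le_sum (fun i _ => hmono i)

/-- for an accepted family most pairs of zones have short transcripts -/
theorem many_pairsLR (P : DetProg Λ n k) (lam D d U T K : ℕ) (hlam : 0 < lam)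
    (Lf Rt : Finset (Fin D)) (hdisj : Disjoint Lf Rt)
    (wd : (Fin D → Fin d → Fin U) → (Fin n → Λ)) (v : Fin D → Fin d → Fin U)
    (hv : P.Answers T (wd v) true)
    (hK1 : 12 * k * (T / lam + 1) < (K + 1) * Rt.card) (hK2 : 12 * k * K ≤ Lf.card) :
    Rt.card * Lf.card ≤ 2 * ∑ b ∈ Rt, (Lf.filter
      (fun a => v ∈ HH P lam D d U (2 * K) wd a b)).card := by
  classical
  obtain ⟨Tch, hT1, hT2⟩ := exists_can P lam D T hlam (wd v) hv
  obtain ⟨N, hN⟩ : ∃ N, N = T / lam + 1 := ⟨_, rfl⟩
  rw [← hN] at hK1 hT2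
  obtain ⟨Kb, hKb⟩ : ∃ Kb : Fin D → ℕ,
      Kb = fun b => ((range N).filter (fun i => b ∈ Tch i)).card := ⟨_, rfl⟩
  have hsumK : ∑ b : Fin D, Kb b ≤ N * (3 * k) := by
    have h1 : ∑ i ∈ range N, ((univ : Finset (Fin D)).filter (fun b => b ∈ Tch i)).card
        = ∑ b : Fin D, ((range N).filter (fun i => b ∈ Tch i)).card :=
      Finset.sum_card_bipartiteAbove_eq_sum_card_bipartiteBelow (r := fun i b => b ∈ Tch i)
    rw [hKb]
    simp only
    rw [← h1]
    refine (Finset.sum_le_sum (g := fun _ => 3 * k) ?_).trans (by simp)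
    intro i _
    have e : (univ : Finset (Fin D)).filter (fun b => b ∈ Tch i) = Tch i := by
      ext z; simp
    rw [e]
    exact hT1 i
  have hfew : 4 * (Rt.filter (fun b => K < Kb b)).card ≤ Rt.card := by
    have h1 : (K + 1) * (Rt.filter (fun b => K < Kb b)).card
        ≤ ∑ b : Fin D, Kb b := by
      calc (K + 1) * (Rt.filter (fun b => K < Kb b)).card
          = ∑ b ∈ Rt.filter (fun b => K < Kb b), (K + 1) := by
            rw [sum_const, smul_eq_mul, mul_comm]
        _ ≤ ∑ b ∈ Rt.filter (fun b => K < Kb b), Kb b :=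
            Finset.sum_le_sum (fun b hb => (mem_filter.mp hb).2)
        _ ≤ ∑ b : Fin D, Kb b :=
            Finset.sum_le_sum_of_subset (subset_univ _)
    have h2 := h1.trans hsumK
    have h3 : (K + 1) * (4 * (Rt.filter (fun b => K < Kb b)).card)
        < (K + 1) * Rt.card := by
      calc (K + 1) * (4 * (Rt.filter (fun b => K < Kb b)).card)
          = 4 * ((K + 1) * (Rt.filter (fun b => K < Kb b)).card) := by
            ring
        _ ≤ 4 * (N * (3 * k)) := Nat.mul_le_mul_left _ h2
        _ = 12 * k * N := by ring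
        _ < (K + 1) * Rt.card := hK1
    exact (Nat.lt_of_mul_lt_mul_left h3).le
  have hc : (Rt.filter (fun b => K < Kb b)).card
      + (Rt.filter (fun b => ¬ K < Kb b)).card = Rt.card :=
    Finset.card_filter_add_card_filter_not (s := Rt) (fun b => K < Kb b)
  have hgood : ∀ b ∈ Rt.filter (fun b => ¬ K < Kb b),
      3 * Lf.card ≤ 4 * (Lf.filter
        (fun a => v ∈ HH P lam D d U (2 * K) wd a b)).card := by
    intro b hb
    have hbK : Kb b ≤ K := by
      have := (mem_filter.mp hb).2; omega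
    have hsub : Lf.filter
        (fun a => ∃ i < N, a ∈ Tch i ∧ b ∈ Tch i) ⊆
        ((range N).filter (fun i => b ∈ Tch i)).biUnion Tch := by
      intro a ha
      obtain ⟨-, i, hi, h1, h2⟩ := mem_filter.mp ha
      exact mem_biUnion.mpr ⟨i, mem_filter.mpr ⟨mem_range.mpr hi, h2⟩, h1⟩
    have h1 : (Lf.filter
        (fun a => ∃ i < N, a ∈ Tch i ∧ b ∈ Tch i)).card ≤ Kb b * (3 * k) := by
      refine (card_le_card hsub).trans (card_biUnion_le.trans ?_)
      refine (Finset.sum_le_sum (g := fun _ => 3 * k) (fun i _ => hT1 i)).trans ?_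
      rw [sum_const, smul_eq_mul, hKb]
    have h2 : Kb b * (3 * k) ≤ K * (3 * k) := Nat.mul_le_mul_right _ hbK
    have h3 : 4 * (K * (3 * k)) = 12 * k * K := by ring
    have h4 := Finset.card_filter_add_card_filter_not (s := Lf)
      (fun a => ∃ i < N, a ∈ Tch i ∧ b ∈ Tch i)
    have h5 : (Lf.filter
        (fun a => ¬ ∃ i < N, a ∈ Tch i ∧ b ∈ Tch i)).card
        ≤ (Lf.filter
        (fun a => v ∈ HH P lam D d U (2 * K) wd a b)).card := by
      apply card_le_card
      intro a ha
      obtain ⟨ha1, ha2⟩ := mem_filter.mp ha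
      refine mem_filter.mpr ⟨ha1, ?_⟩
      obtain ⟨τ, h6, h7⟩ := hT2 a b (fun i hi h1 h2 => ha2 ⟨i, hi, h1, h2⟩)
      refine (mem_HH P lam D d U (2 * K) wd a b v).mpr ⟨τ, h7.trans ?_, h6⟩
      have := hbK
      rw [hKb] at this
      simp only at this
      omega
    omega
  have h6 : (Rt.filter (fun b => ¬ K < Kb b)).card * (3 * Lf.card)
      ≤ 4 * ∑ b ∈ Rt, (Lf.filter
      (fun a => v ∈ HH P lam D d U (2 * K) wd a b)).card := by
    calc (Rt.filter (fun b => ¬ K < Kb b)).card * (3 * Lf.card)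
        = ∑ b ∈ Rt.filter (fun b => ¬ K < Kb b), 3 * Lf.card := by
          rw [sum_const, smul_eq_mul]
      _ ≤ ∑ b ∈ Rt.filter (fun b => ¬ K < Kb b),
          4 * (Lf.filter
          (fun a => v ∈ HH P lam D d U (2 * K) wd a b)).card := Finset.sum_le_sum hgood
      _ ≤ ∑ b ∈ Rt, 4 * (Lf.filter
          (fun a => v ∈ HH P lam D d U (2 * K) wd a b)).card :=
          Finset.sum_le_sum_of_subset (filter_subset _ _)
      _ = _ := by rw [mul_sum]
  have h7 : 3 * Rt.card ≤ 4 * (Rt.filter (fun b => ¬ K < Kb b)).card := by omega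
  have h8 : 3 * Rt.card * (3 * Lf.card) ≤ 4 * (4 * ∑ b ∈ Rt, (Lf.filter
      (fun a => v ∈ HH P lam D d U (2 * K) wd a b)).card) := by
    calc 3 * Rt.card * (3 * Lf.card)
        ≤ 4 * (Rt.filter (fun b => ¬ K < Kb b)).card * (3 * Lf.card) :=
          Nat.mul_le_mul_right _ h7
      _ = 4 * ((Rt.filter (fun b => ¬ K < Kb b)).card * (3 * Lf.card)) := by
          ring
      _ ≤ _ := Nat.mul_le_mul_left _ h6
  have h9 : 3 * Rt.card * (3 * Lf.card) = 9 * (Rt.card * Lf.card) := by ring
  omega

/-- one program -/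
theorem one_progLR (P : DetProg Λ n k) (lam D d U T K S : ℕ) (hlam : 0 < lam) (hd : 0 < d)
    (hU : 0 < U) (Lf Rt : Finset (Fin D)) (hdisj : Disjoint Lf Rt)
    (wd : (Fin D → Fin d → Fin U) → (Fin n → Λ))
    (hloc : ∀ v v' (p : Fin n), (∀ h : (p : ℕ) / lam < D,
      v ⟨(p : ℕ) / lam, h⟩ = v' ⟨(p : ℕ) / lam, h⟩) → wd v p = wd v' p)
    (hK1 : 12 * k * (T / lam + 1) < (K + 1) * Rt.card) (hK2 : 12 * k * K ≤ Lf.card)
    (hS : Fintype.card P.Cfg + 1 ≤ 2 ^ S) (Acc : Finset (Fin D → Fin d → Fin U))
    (hAcc : ∀ v ∈ Acc, P.Answers T (wd v) true) :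
    (d : ℝ) * ((Rt.card * Lf.card : ℕ) * (Acc.card : ℝ)) ≤
      2 * ∑ b ∈ Rt, ∑ a ∈ Lf,
        (2048 * ∑ i, PL P wd a b i i
          + (d : ℝ) * (((2 : ℝ) ^ (2 * (K * S))) * (eta d * (U : ℝ) ^ (d * D)))) := by
  classical
  have h1 : (Rt.card * Lf.card) * Acc.card ≤
      2 * ∑ b ∈ Rt, ∑ a ∈ Lf,
        (HH P lam D d U (2 * K) wd a b).card := by
    calc (Rt.card * Lf.card) * Acc.card = ∑ v ∈ Acc, Rt.card * Lf.card := by
          rw [sum_const, smul_eq_mul, mul_comm]
      _ ≤ ∑ v ∈ Acc, 2 * ∑ b ∈ Rt, (Lf.filter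
          (fun a => v ∈ HH P lam D d U (2 * K) wd a b)).card :=
          Finset.sum_le_sum (fun v hv =>
            many_pairsLR P lam D d U T K hlam Lf Rt hdisj wd v (hAcc v hv) hK1 hK2)
      _ = 2 * ∑ b ∈ Rt, ∑ v ∈ Acc, (Lf.filter
          (fun a => v ∈ HH P lam D d U (2 * K) wd a b)).card := by
          rw [← mul_sum, Finset.sum_comm]
      _ = 2 * ∑ b ∈ Rt, ∑ a ∈ Lf, (Acc.filter
          (fun v => v ∈ HH P lam D d U (2 * K) wd a b)).card := by
          congr 1
          apply Finset.sum_congr rfl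
          intro b _
          exact Finset.sum_card_bipartiteAbove_eq_sum_card_bipartiteBelow
            (r := fun (v : Fin D → Fin d → Fin U) (a : Fin D) =>
              v ∈ HH P lam D d U (2 * K) wd a b)
      _ ≤ _ := by
          apply Nat.mul_le_mul_left
          apply Finset.sum_le_sum
          intro b _
          apply Finset.sum_le_sum
          intro a _
          apply card_le_card
          intro v hv
          exact (mem_filter.mp hv).2
  have hM : (((Fintype.card P.Cfg + 1) ^ (2 * K) : ℕ) : ℝ) ≤ (2 : ℝ) ^ (2 * (K * S)) := by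
    have : (Fintype.card P.Cfg + 1) ^ (2 * K) ≤ 2 ^ (2 * (K * S)) := by
      calc (Fintype.card P.Cfg + 1) ^ (2 * K) ≤ (2 ^ S) ^ (2 * K) := Nat.pow_le_pow_left hS _
        _ = 2 ^ (2 * (K * S)) := by rw [← pow_mul]; congr 1; ring
    exact_mod_cast this
  have hη : 0 ≤ eta d := by unfold eta; positivity
  have hUd : (0 : ℝ) ≤ (U : ℝ) ^ (d * D) := by positivity
  have h2 : ∀ b ∈ Rt, ∀ a ∈ Lf,
      (d : ℝ) * (HH P lam D d U (2 * K) wd a b).card ≤
      2048 * ∑ i, PL P wd a b i i
          + (d : ℝ) * (((2 : ℝ) ^ (2 * (K * S))) * (eta d * (U : ℝ) ^ (d * D))) := by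
    intro b hb a ha
    have hab : a ≠ b := by
      rintro rfl
      exact (Finset.disjoint_left.mp hdisj) ha hb
    have h3 := plantPD P lam D d U (2 * K) hd hU wd hloc a b hab
    refine h3.trans ?_
    apply add_le_add (le_refl _)
    apply mul_le_mul_of_nonneg_left _ (by positivity)
    exact mul_le_mul_of_nonneg_right hM (mul_nonneg hη hUd)
  have h1' : (((Rt.card * Lf.card : ℕ) : ℝ) * (Acc.card : ℝ)) ≤
      2 * ∑ b ∈ Rt, ∑ a ∈ Lf,
        ((HH P lam D d U (2 * K) wd a b).card : ℝ) := by
    exact_mod_cast h1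
  calc (d : ℝ) * ((Rt.card * Lf.card : ℕ) * (Acc.card : ℝ))
      ≤ (d : ℝ) * (2 * ∑ b ∈ Rt, ∑ a ∈ Lf,
        ((HH P lam D d U (2 * K) wd a b).card : ℝ)) :=
        mul_le_mul_of_nonneg_left h1' (by positivity)
    _ = 2 * ∑ b ∈ Rt, ∑ a ∈ Lf,
        (d : ℝ) * ((HH P lam D d U (2 * K) wd a b).card : ℝ) := by
        rw [← mul_assoc, mul_comm (d : ℝ) 2, mul_assoc, mul_sum]
        congr 1
        apply Finset.sum_congr rfl
        intro b _
        rw [mul_sum]
    _ ≤ _ := by
        apply mul_le_mul_of_nonneg_left _ (by norm_num)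
        exact Finset.sum_le_sum (fun b hb => Finset.sum_le_sum (fun a ha => h2 b hb a ha))

/-- **The engine for randomized programs with two sides.**  The program answers `true` on the
words of the families of a set `G` which contains almost all families, and `false` if a value of a
zone of the first side is planted at the same place of a zone of the second side. -/
theorem engineRLR {Ω : Type} [Fintype Ω] (p : Ω → ℝ) (hp : ∀ ω, 0 ≤ p ω) (hp1 : ∑ ω, p ω = 1)
    (P : Ω → DetProg Λ n k) (lam D d U T K S : ℕ) (hlam : 0 < lam) (hd : 0 < d)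
    (hU0 : 0 < U) (Lf Rt : Finset (Fin D)) (hdisj : Disjoint Lf Rt) (hLf : 0 < Lf.card)
    (wd : (Fin D → Fin d → Fin U) → (Fin n → Λ))
    (hloc : ∀ v v' (p : Fin n), (∀ h : (p : ℕ) / lam < D,
      v ⟨(p : ℕ) / lam, h⟩ = v' ⟨(p : ℕ) / lam, h⟩) → wd v p = wd v' p)
    (G : Finset (Fin D → Fin d → Fin U)) (hG : 8192 * U ^ (d * D) ≤ 8193 * G.card)
    (hyes : ∀ v ∈ G, 1 - 1 / 20000 ≤ prob p P T (wd v) true)
    (hno : ∀ v ∈ G, ∀ a ∈ Lf, ∀ b ∈ Rt, ∀ i,
      1 - 1 / 20000 ≤ prob p P T (wd (TT a b i i v)) false)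
    (hK1 : 12 * k * (T / lam + 1) < (K + 1) * Rt.card) (hK2 : 12 * k * K ≤ Lf.card)
    (hS : ∀ ω, Fintype.card (P ω).Cfg + 1 ≤ 2 ^ S) : d < 42 * (K * S) + 84 := by
  classical
  by_contra hcon
  push Not at hcon
  have hRt : 0 < Rt.card := by
    rcases Nat.eq_zero_or_pos Rt.card with h | h
    · rw [h] at hK1; omega
    · exact h
  obtain ⟨V, hV⟩ : ∃ V : ℝ, V = (U : ℝ) ^ (d * D) := ⟨_, rfl⟩
  have hVpos : 0 < V := by rw [hV]; positivity
  have hcardV : ((univ : Finset (Fin D → Fin d → Fin U)).card : ℝ) = V := by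
    rw [card_univ, Fintype.card_fun, Fintype.card_fun, Fintype.card_fin, Fintype.card_fin,
      Fintype.card_fin, ← pow_mul, hV]
    push_cast; rfl
  have hGV : 8192 * V ≤ 8193 * (G.card : ℝ) := by rw [hV]; exact_mod_cast hG
  have hGc : (((univ : Finset (Fin D → Fin d → Fin U)) \ G).card : ℝ) ≤ 1 / 8192 * V := by
    have h1 := Finset.card_sdiff_add_card_inter (univ : Finset (Fin D → Fin d → Fin U)) G
    rw [Finset.univ_inter] at h1
    have h2 : (((univ : Finset (Fin D → Fin d → Fin U)) \ G).card : ℝ) + G.card = V := by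
      rw [← hcardV]; exact_mod_cast h1
    linarith
  obtain ⟨M, hM⟩ : ∃ M : ℝ, M = (2 : ℝ) ^ (2 * (K * S)) * eta d := ⟨_, rfl⟩
  obtain ⟨Acc, hAcc⟩ : ∃ Acc : Ω → Finset (Fin D → Fin d → Fin U),
      Acc = fun ω => univ.filter (fun v => (P ω).Answers T (wd v) true) := ⟨_, rfl⟩
  obtain ⟨c, hc⟩ : ∃ c : ℝ, c = ((Rt.card * Lf.card : ℕ) : ℝ) := ⟨_, rfl⟩
  have hcpos : 0 < c := by
    rw [hc]
    have h1 : 0 < Rt.card * Lf.card := Nat.mul_pos hRt hLf
    exact_mod_cast h1
  -- the planted families are rejected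
  have hle1 : ∀ v, ∑ ω, p ω * (if v ∈ AI (P ω) wd then (1 : ℝ) else 0) ≤ 1 := by
    intro v
    refine le_trans ?_ hp1.le
    apply Finset.sum_le_sum
    intro ω _
    split_ifs
    · rw [mul_one]
    · rw [mul_zero]; exact hp ω
  have hfalse : ∀ v, 1 - 1 / 20000 ≤ prob p P T (wd v) false →
      ∑ ω, p ω * (if v ∈ AI (P ω) wd then (1 : ℝ) else 0) ≤ 1 / 20000 := by
    intro v h1
    have h2 : ∑ ω, p ω * (if v ∈ AI (P ω) wd then (1 : ℝ) else 0) + prob p P T (wd v) false
        ≤ ∑ ω, p ω := by
      unfold prob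
      rw [← Finset.sum_add_distrib]
      apply Finset.sum_le_sum
      intro ω _
      by_cases h3 : v ∈ AI (P ω) wd
      · have h4 : ¬ (P ω).Answers T (wd v) false := by
          obtain ⟨T', t', -, h5, h6⟩ := (mem_AI (P ω) wd v).mp h3
          rintro ⟨t, -, h7, h8⟩
          rcases Nat.lt_trichotomy t t' with hlt | heq | hgt
          · rw [h6 t hlt] at h7; cases h7
          · rw [heq, h5] at h7; cases h7
          · rw [h8 t' hgt] at h5; cases h5
        rw [if_pos h3, if_neg h4]; simp
      · rw [if_neg h3, mul_zero, zero_add]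
        split_ifs
        · exact le_rfl
        · exact hp ω
    rw [hp1] at h2
    linarith
  have hPL : ∀ b ∈ Rt, ∀ a ∈ Lf, ∀ i,
      ∑ ω, p ω * PL (P ω) wd a b i i ≤ (1 / 20000 + 1 / 8192) * V := by
    intro b hb a ha i
    have h1 : ∀ ω, PL (P ω) wd a b i i
        = ∑ v, (if TT a b i i v ∈ AI (P ω) wd then (1 : ℝ) else 0) := by
      intro ω
      unfold PL
      exact sum_ite_card _ _
    simp only [h1, mul_sum]
    rw [Finset.sum_comm]
    calc ∑ v, ∑ ω, p ω * (if TT a b i i v ∈ AI (P ω) wd then (1 : ℝ) else 0)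
        ≤ ∑ v : Fin D → Fin d → Fin U,
          ((1 / 20000 : ℝ) + if v ∈ (univ : Finset (Fin D → Fin d → Fin U)) \ G then 1 else 0) := by
          apply Finset.sum_le_sum
          intro v _
          by_cases hv : v ∈ G
          · have h2 := hfalse (TT a b i i v) (hno v hv a ha b hb i)
            rw [if_neg (fun h => (mem_sdiff.mp h).2 hv), add_zero]
            exact h2
          · rw [if_pos (mem_sdiff.mpr ⟨mem_univ _, hv⟩)]
            have h2 := hle1 (TT a b i i v)
            linarith
      _ = 1 / 20000 * V + (((univ : Finset (Fin D → Fin d → Fin U)) \ G).card : ℝ) := by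
          rw [Finset.sum_add_distrib, sum_const, nsmul_eq_mul, hcardV, Finset.sum_ite_mem,
            Finset.univ_inter, sum_const, nsmul_eq_mul, mul_one]
          ring
      _ ≤ (1 / 20000 + 1 / 8192) * V := by linarith
  -- the families of `G` are accepted
  have hAccE : (1 - 1 / 20000) * (8192 / 8193 * V) ≤ ∑ ω, p ω * ((Acc ω).card : ℝ) := by
    have h1 : ∑ ω, p ω * ((Acc ω).card : ℝ) = ∑ v, prob p P T (wd v) true := by
      unfold prob
      rw [Finset.sum_comm]
      apply Finset.sum_congr rfl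
      intro ω _
      rw [hAcc]
      dsimp only
      rw [sum_ite_card, mul_sum]
      apply Finset.sum_congr rfl
      intro v _
      split_ifs <;> simp
    rw [h1]
    calc (1 - 1 / 20000) * (8192 / 8193 * V)
        ≤ (1 - 1 / 20000) * (G.card : ℝ) := by
          apply mul_le_mul_of_nonneg_left _ (by norm_num)
          linarith
      _ = ∑ v ∈ G, (1 - 1 / 20000 : ℝ) := by
          rw [sum_const, nsmul_eq_mul]; ring
      _ ≤ ∑ v ∈ G, prob p P T (wd v) true :=
          Finset.sum_le_sum (fun v hv => hyes v hv)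
      _ ≤ ∑ v, prob p P T (wd v) true := by
          apply Finset.sum_le_sum_of_subset_of_nonneg (subset_univ _)
          intro v _ _
          unfold prob
          apply Finset.sum_nonneg
          intro ω _
          split_ifs
          · exact hp ω
          · exact le_rfl
  -- all together
  have hone : ∀ ω, (d : ℝ) * (c * ((Acc ω).card : ℝ)) ≤
      2 * ∑ b ∈ Rt, ∑ a ∈ Lf,
        (2048 * ∑ i, PL (P ω) wd a b i i + (d : ℝ) * (M * V)) := by
    intro ω
    have h1 := one_progLR (P ω) lam D d U T K S hlam hd hU0 Lf Rt hdisj wd hloc hK1 hK2 (hS ω)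
      (Acc ω) (by
      intro v hv
      rw [hAcc] at hv
      exact (mem_filter.mp hv).2)
    rw [← hc, ← hV] at h1
    have e : (2 : ℝ) ^ (2 * (K * S)) * (eta d * V) = M * V := by rw [hM]; ring
    rw [e] at h1
    exact h1
  obtain ⟨ε, hε⟩ : ∃ ε : ℝ, ε = 1 / 20000 + 1 / 8192 := ⟨_, rfl⟩
  rw [← hε] at hPL
  have hsum : (d : ℝ) * (c * ∑ ω, p ω * ((Acc ω).card : ℝ)) ≤
      2 * (c * (2048 * ((d : ℝ) * (ε * V)) + (d : ℝ) * (M * V))) := by
    calc (d : ℝ) * (c * ∑ ω, p ω * ((Acc ω).card : ℝ))
        = ∑ ω, p ω * ((d : ℝ) * (c * ((Acc ω).card : ℝ))) := by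
          rw [mul_sum, mul_sum]
          apply Finset.sum_congr rfl
          intro ω _
          ring
      _ ≤ ∑ ω, p ω * (2 * ∑ b ∈ Rt, ∑ a ∈ Lf,
        (2048 * ∑ i, PL (P ω) wd a b i i + (d : ℝ) * (M * V))) :=
          Finset.sum_le_sum (fun ω _ => mul_le_mul_of_nonneg_left (hone ω) (hp ω))
      _ = 2 * ∑ b ∈ Rt, ∑ a ∈ Lf,
        (2048 * ∑ i, ∑ ω, p ω * PL (P ω) wd a b i i + (d : ℝ) * (M * V)) := by
          have e1 : ∀ ω, p ω * (2 * ∑ b ∈ Rt, ∑ a ∈ Lf,
              (2048 * ∑ i, PL (P ω) wd a b i i + (d : ℝ) * (M * V)))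
              = ∑ b ∈ Rt, ∑ a ∈ Lf,
              (2 * (2048 * ∑ i, p ω * PL (P ω) wd a b i i
                + p ω * ((d : ℝ) * (M * V)))) := by
            intro ω
            rw [mul_sum, mul_sum]
            apply Finset.sum_congr rfl
            intro b _
            rw [mul_sum, mul_sum]
            apply Finset.sum_congr rfl
            intro a _
            have e2 : ∑ i, p ω * PL (P ω) wd a b i i
                = p ω * ∑ i, PL (P ω) wd a b i i := by
              rw [mul_sum]
            rw [e2]; ring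
          rw [Finset.sum_congr rfl (fun ω _ => e1 ω), Finset.sum_comm, mul_sum]
          apply Finset.sum_congr rfl
          intro b _
          rw [Finset.sum_comm, mul_sum]
          apply Finset.sum_congr rfl
          intro a _
          rw [← mul_sum, Finset.sum_add_distrib, ← mul_sum, ← sum_mul, hp1, one_mul,
            Finset.sum_comm]
      _ ≤ 2 * ∑ b ∈ Rt, ∑ a ∈ Lf,
        (2048 * ((d : ℝ) * (ε * V)) + (d : ℝ) * (M * V)) := by
          apply mul_le_mul_of_nonneg_left _ (by norm_num)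
          apply Finset.sum_le_sum
          intro b hb
          apply Finset.sum_le_sum
          intro a ha
          apply add_le_add _ (le_refl _)
          apply mul_le_mul_of_nonneg_left _ (by norm_num)
          calc ∑ i, ∑ ω, p ω * PL (P ω) wd a b i i
              ≤ ∑ i : Fin d, (ε * V) :=
                Finset.sum_le_sum (fun i _ => hPL b hb a ha i)
            _ = (d : ℝ) * (ε * V) := by
                rw [sum_const, card_univ, Fintype.card_fin, nsmul_eq_mul]
      _ = 2 * (c * (2048 * ((d : ℝ) * (ε * V)) + (d : ℝ) * (M * V))) := by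
          rw [sum_const, sum_const, nsmul_eq_mul, nsmul_eq_mul, hc]
          push_cast
          ring
  have hMle : M ≤ 1 / 8 := by
    rw [hM]
    unfold eta
    have h1 : ((967 : ℝ) / 1000) ^ d ≤ (1 / 2) ^ (2 * (K * S) + 4) := by
      calc ((967 : ℝ) / 1000) ^ d ≤ (967 / 1000) ^ (21 * (2 * (K * S) + 4)) :=
            pow_le_pow_of_le_one (by norm_num) (by norm_num) (by omega)
        _ = ((967 / 1000) ^ 21) ^ (2 * (K * S) + 4) := by rw [pow_mul]
        _ ≤ (1 / 2) ^ (2 * (K * S) + 4) := by
            apply pow_le_pow_left₀ (by positivity)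
            norm_num
    calc (2 : ℝ) ^ (2 * (K * S)) * (2 * ((967 : ℝ) / 1000) ^ d)
        ≤ (2 : ℝ) ^ (2 * (K * S)) * (2 * (1 / 2) ^ (2 * (K * S) + 4)) := by gcongr
      _ = (2 * (1 / 2)) ^ (2 * (K * S)) * (2 * (1 / 2) ^ 4) := by
          rw [pow_add, mul_pow]; ring
      _ = 1 / 8 := by norm_num
  have hdpos : (0 : ℝ) < (d : ℝ) := by positivity
  obtain ⟨E, hE⟩ : ∃ E : ℝ, E = ∑ ω, p ω * ((Acc ω).card : ℝ) := ⟨_, rfl⟩
  rw [← hE] at hsum hAccE
  have h5 : (d : ℝ) * c * E ≤ (d : ℝ) * c * (2 * (2048 * ε * V + M * V)) := by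
    calc (d : ℝ) * c * E = (d : ℝ) * (c * E) := by ring
      _ ≤ 2 * (c * (2048 * ((d : ℝ) * (ε * V)) + (d : ℝ) * (M * V))) := hsum
      _ = (d : ℝ) * c * (2 * (2048 * ε * V + M * V)) := by ring
  have h6 : E ≤ 2 * (2048 * ε * V + M * V) :=
    le_of_mul_le_mul_left h5 (mul_pos hdpos hcpos)
  have h7 : M * V ≤ 1 / 8 * V := mul_le_mul_of_nonneg_right hMle hVpos.le
  rw [hε] at h6
  nlinarith

end Pool.Agent.R562.Ht
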