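import Pool.Agent.R562.HtN
import Pool.Agent.R562.HtR
import Pool.Agent.R562.HtP
import Pool.Agent.R562.ETWord
import Pool.Agent.TH457.HT.LinR

/-!
# Exact Triangle and slow heads
-/

set_option autoImplicit false

open Finset

namespace Pool.Agent.R562.Ht

open Pool.Agent.TH457.HT

/-- the first side -/
def Lf (H : ℕ) : Finset (Fin (2 * H)) := univ.filter (fun a => (a : ℕ) < H)

/-- the second side -/
def Rt (H : ℕ) : Finset (Fin (2 * H)) := univ.filter (fun a => ¬ (a : ℕ) < H)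

theorem card_Lf (H : ℕ) : (Lf H).card = H := by
  have h : (Lf H) = (univ : Finset (Fin H)).image (Fin.castLE (by omega)) := by
    ext a
    simp only [Lf, mem_filter, mem_univ, true_and, mem_image]
    constructor
    · intro ha; exact ⟨⟨a, ha⟩, rfl⟩
    · rintro ⟨b, rfl⟩; exact b.2
  rw [h, card_image_of_injective _ (Fin.castLE_injective _), card_univ, Fintype.card_fin]

theorem card_Rt (H : ℕ) : (Rt H).card = H := by
  have h := Finset.card_filter_add_card_filter_not (s := (univ : Finset (Fin (2 * H))))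
    (fun a => (a : ℕ) < H)
  have h1 := card_Lf H
  rw [card_univ, Fintype.card_fin] at h
  unfold Lf at h1
  unfold Rt
  omega

theorem disj (H : ℕ) : Disjoint (Lf H) (Rt H) := Finset.disjoint_filter_filter_not _ _ _

/-- the possible collisions -/
def Ed (H ρ h : ℕ) : Finset ((Fin (2 * H) × Fin (ρ * h)) × (Fin (2 * H) × Fin (ρ * h))) :=
  ((univ : Finset ((Fin (2 * H) × Fin ρ) × (Fin (2 * H) × Fin ρ) × Fin h)).filter
    (fun t => t.1.1 ∈ Lf H ∧ t.2.1.1 ∈ Rt H)).image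
    (fun t => ((t.1.1, finProdFinEquiv (t.1.2, t.2.2)), (t.2.1.1, finProdFinEquiv (t.2.1.2, t.2.2))))

theorem Ed_ne (H ρ h : ℕ) : ∀ e ∈ Ed H ρ h, e.1 ≠ e.2 := by
  intro e he
  obtain ⟨t, ht, rfl⟩ := mem_image.mp he
  obtain ⟨-, h1, h2⟩ := mem_filter.mp ht
  intro h3
  have h4 : t.1.1 = t.2.1.1 := (Prod.ext_iff.mp h3).1
  rw [h4] at h1
  exact (Finset.disjoint_left.mp (disj H)) h1 h2

theorem Ed_card (n H ρ h : ℕ) (h1 : 2 * H * ρ ≤ n - n / 2) (hh : h = n / 2) :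
    (Ed H ρ h).card ≤ n ^ 3 := by
  refine card_image_le.trans ((card_filter_le _ _).trans ?_)
  simp only [card_univ, Fintype.card_prod, Fintype.card_fin]
  have h2 : 2 * H * ρ ≤ n := by omega
  have h3 : h ≤ n := by omega
  calc 2 * H * ρ * (2 * H * ρ * h) ≤ n * (n * n) := by gcongr
    _ = n ^ 3 := by ring

/-- the families without collisions -/
def GG (H ρ h U : ℕ) : Finset (Fin (2 * H) → Fin (ρ * h) → Fin U) :=
  univ.filter (fun v => ∀ e ∈ Ed H ρ h, v e.1.1 e.1.2 ≠ v e.2.1 e.2.2)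

theorem mem_GG (H ρ h U : ℕ) (v : Fin (2 * H) → Fin (ρ * h) → Fin U) (hv : v ∈ GG H ρ h U)
    (a b : Fin (2 * H)) (ha : a ∈ Lf H) (hb : b ∈ Rt H) (r r' : Fin ρ) (c : Fin h) :
    v a (finProdFinEquiv (r, c)) ≠ v b (finProdFinEquiv (r', c)) :=
  (mem_filter.mp hv).2 ((a, finProdFinEquiv (r, c)), (b, finProdFinEquiv (r', c)))
    (mem_image.mpr ⟨((a, r), (b, r'), c), mem_filter.mpr ⟨mem_univ _, ha, hb⟩, rfl⟩)

theorem GG_card (n H ρ h : ℕ) (hn : 0 < n) (h1 : 2 * H * ρ ≤ n - n / 2) (hh : h = n / 2) :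
    8192 * (8193 * n ^ 3) ^ (ρ * h * (2 * H)) ≤ 8193 * (GG H ρ h (8193 * n ^ 3)).card := by
  apply card_good (Ed H ρ h) (Ed_ne H ρ h)
    (Nat.mul_le_mul_left _ (Ed_card n H ρ h h1 hh)) (by positivity)
  intro v hv
  exact mem_filter.mpr ⟨mem_univ _, hv⟩

theorem good_no_tri (n H ρ h U : ℕ) (h1 : 2 * H * ρ ≤ n - h)
    (v : Fin (2 * H) → Fin (ρ * h) → Fin U)
    (hv : v ∈ GG H ρ h U) :
    ¬ ZeroTri (ef n (H * ρ) (n - h) (uu v)) (wf n (H * ρ) (n - h) (uu v)) := by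
  apply no_tri n (H * ρ) (n - h) (uu v) (by rw [← mul_assoc]; exact h1)
  intro i j c hi hj hj2 hc
  have hρ : 0 < ρ := by
    rcases Nat.eq_zero_or_pos ρ with h | h
    · rw [h] at hi; simp at hi
    · exact h
  have hch : c < h := by omega
  have hia : i / ρ < H := Nat.div_lt_of_lt_mul (by rw [mul_comm]; exact hi)
  have hja : H ≤ j / ρ := by rwa [Nat.le_div_iff_mul_le hρ]
  have hja2 : j / ρ < 2 * H := Nat.div_lt_of_lt_mul (by
    calc j < 2 * (H * ρ) := hj2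
      _ = ρ * (2 * H) := by ring)
  have ei : i = i / ρ * ρ + i % ρ := by
    have := Nat.div_add_mod i ρ; rw [mul_comm] at this; exact this.symm
  have ej : j = j / ρ * ρ + j % ρ := by
    have := Nat.div_add_mod j ρ; rw [mul_comm] at this; exact this.symm
  have e1 := uu_eq v ⟨i / ρ, by omega⟩ ⟨i % ρ, Nat.mod_lt _ hρ⟩ ⟨c, hch⟩
  have e2 := uu_eq v ⟨j / ρ, hja2⟩ ⟨j % ρ, Nat.mod_lt _ hρ⟩ ⟨c, hch⟩
  simp only at e1 e2
  rw [← ei] at e1
  rw [← ej] at e2
  rw [e1, e2]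
  intro he
  exact mem_GG H ρ h U v hv ⟨i / ρ, by omega⟩ ⟨j / ρ, hja2⟩
    (mem_filter.mpr ⟨mem_univ _, hia⟩) (mem_filter.mpr ⟨mem_univ _, by simp only; omega⟩)
    ⟨i % ρ, Nat.mod_lt _ hρ⟩ ⟨j % ρ, Nat.mod_lt _ hρ⟩ ⟨c, hch⟩ (Fin.ext he)

theorem eq_tri (n H ρ h U : ℕ) (h1 : 2 * H * ρ ≤ n - h) (hn : h < n)
    (v : Fin (2 * H) → Fin (ρ * h) → Fin U)
    (a b : Fin (2 * H)) (ha : a ∈ Lf H) (hb : b ∈ Rt H) (i : Fin (ρ * h)) (hab : v a i = v b i) :
    ZeroTri (ef n (H * ρ) (n - h) (uu v)) (wf n (H * ρ) (n - h) (uu v)) := by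
  obtain ⟨⟨r, c⟩, rfl⟩ := (finProdFinEquiv (m := ρ) (n := h)).surjective i
  have ha' : (a : ℕ) < H := (mem_filter.mp ha).2
  have hb' : ¬ (b : ℕ) < H := (mem_filter.mp hb).2
  have hb2 := b.2
  have hr := r.2
  have hc := c.2
  apply tri_of_eq n (H * ρ) (n - h) (uu v) (by rw [← mul_assoc]; exact h1)
    ((a : ℕ) * ρ + r) ((b : ℕ) * ρ + r) c
  · calc (a : ℕ) * ρ + r < (a : ℕ) * ρ + ρ := by omega
      _ = ((a : ℕ) + 1) * ρ := by ring
      _ ≤ H * ρ := Nat.mul_le_mul_right _ ha'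
  · calc H * ρ ≤ (b : ℕ) * ρ := Nat.mul_le_mul_right _ (by omega)
      _ ≤ (b : ℕ) * ρ + r := Nat.le_add_right _ _
  · calc (b : ℕ) * ρ + r < (b : ℕ) * ρ + ρ := by omega
      _ = ((b : ℕ) + 1) * ρ := by ring
      _ ≤ 2 * H * ρ := Nat.mul_le_mul_right _ hb2
      _ = 2 * (H * ρ) := by ring
  · omega
  · rw [uu_eq, uu_eq, hab]

theorem k_le_S (n k S c : ℕ) (hn : 2 ≤ n) (hc : 0 < c) (hS : c * (n * n) ^ k ≤ 2 ^ S) :
    k ≤ S + 1 := by
  have h1 : 2 ^ k ≤ 2 ^ S := by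
    calc 2 ^ k ≤ (n * n) ^ k := Nat.pow_le_pow_left (by nlinarith) k
      _ ≤ c * (n * n) ^ k := Nat.le_mul_of_pos_left _ hc
      _ ≤ 2 ^ S := hS
  have := (Nat.pow_le_pow_iff_right (by norm_num : 1 < 2)).mp h1
  omega

theorem small_n (n k T S : ℕ) (hn : ¬ 2 ≤ n) (hk : 1 ≤ k) :
    n ^ 6 ≤ 100000000 * (k * (S + 1) * (k * T + n ^ 2) ^ 2) := by
  have : n = 0 ∨ n = 1 := by omega
  rcases this with rfl | rfl
  · simp
  · have h1 : 1 ≤ k * (S + 1) * (k * T + 1 ^ 2) ^ 2 :=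
      Nat.one_le_iff_ne_zero.mpr (by positivity)
    omega

open Classical in
/-- **Exact Triangle and randomized slow heads.** -/
theorem et_rand (n : ℕ) {k : ℕ} {Ω : Type} [Fintype Ω] (p : Ω → ℝ) (hp : ∀ ω, 0 ≤ p ω)
    (hp1 : ∑ ω, p ω = 1) (P : Ω → DetProg (Bool × ℤ) (n * n) k) (T S : ℕ) (hk : 1 ≤ k)
    (hS : ∀ ω, Fintype.card (P ω).Q * (n * n) ^ k ≤ 2 ^ S)
    (h : ∀ e w, ETInst n (8193 * n ^ 3) e w →
      1 - 1 / 20000 ≤ prob p P T (upper n e w) (decide (ZeroTri e w))) :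
    n ^ 6 ≤ 100000000 * (k * (S + 1) * (k * T + n ^ 2) ^ 2) := by
  by_cases hn : 2 ≤ n
  swap
  · exact small_n n k T S hn hk
  by_contra hcon
  push Not at hcon
  have hΩ : Nonempty Ω := by
    by_contra hempty
    rw [not_nonempty_iff] at hempty
    rw [Finset.univ_eq_empty, Finset.sum_empty] at hp1
    norm_num at hp1
  obtain ⟨ω₀⟩ := hΩ
  have hkS := k_le_S n k S _ hn (Fintype.card_pos_iff.mpr ⟨(P ω₀).start.1⟩) (hS ω₀)
  obtain ⟨q, ρ, H, hq, hρ, hHρ, hd, hK2, hK1⟩ := paramsM n k T S hn hk hkS hcon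
  obtain ⟨hh, hhe⟩ : ∃ hh, hh = n / 2 := ⟨_, rfl⟩
  rw [← hhe] at hHρ hd
  have hH0 : 0 < H := by
    have : 0 < 12 * k * (61 * q) := by positivity
    omega
  have hU0 : 0 < 8193 * n ^ 3 := by positivity
  have hins : ∀ v : Fin (2 * H) → Fin (ρ * hh) → Fin (8193 * n ^ 3),
      ETInst n (8193 * n ^ 3) (ef n (H * ρ) (n - hh) (uu v)) (wf n (H * ρ) (n - hh) (uu v)) :=
    fun v => inst n (H * ρ) (n - hh) _ (uu v) (by rw [← mul_assoc]; exact hHρ) (uu_le v)
  have hd0 : 0 < ρ * hh := by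
    have : 0 < q * (S + 1) := by positivity
    omega
  have hfin := engineRLR p hp hp1 (fun ω => (P ω).flip) (n * ρ) (2 * H) (ρ * hh) (8193 * n ^ 3) T
    (61 * q) (S + 1) (by positivity) hd0 hU0 (Lf H) (Rt H) (disj H) (by rw [card_Lf]; exact hH0)
    (wdE n H ρ hh (8193 * n ^ 3)) (fun v v' p hv => wdE_local n H ρ hh _ (by omega) v v' p hv)
    (GG H ρ hh (8193 * n ^ 3)) (GG_card n H ρ hh (by omega) (by rw [← hhe]; exact hHρ) hhe)
    (by
      intro v hv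
      rw [prob_flip]
      have h1 := h _ _ (hins v)
      rw [decide_eq_false (good_no_tri n H ρ hh _ hHρ v hv)] at h1
      exact h1)
    (by
      intro v _ a ha b hb i
      rw [prob_flip]
      have hab : a ≠ b := by
        rintro rfl
        exact (Finset.disjoint_left.mp (disj H)) ha hb
      have h1 := h _ _ (hins (TT a b i i v))
      have h2 := eq_tri n H ρ hh _ hHρ (by omega) (TT a b i i v) a b ha hb i (by
        unfold TT
        rw [Function.update_self, Function.update_of_ne hab, Function.update_self])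
      rw [decide_eq_true h2] at h1
      exact h1)
    (by rw [card_Rt]; exact hK1) (by rw [card_Lf]; exact hK2)
    (by
      intro ω
      rw [Fintype.card_prod, Fintype.card_fun, Fintype.card_fin, Fintype.card_fin, pow_succ]
      have h1 := hS ω
      have h2 : Fintype.card ((P ω).flip).Q = Fintype.card (P ω).Q := rfl
      have : 1 ≤ 2 ^ S := Nat.one_le_two_pow
      rw [h2]
      omega)
  have h9 : 42 * (61 * q * (S + 1)) = 2562 * (q * (S + 1)) := by ring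
  have h11 : 1 ≤ q * (S + 1) := Nat.one_le_iff_ne_zero.mpr (by positivity)
  omega

/-- **Exact Triangle and nondeterministic slow heads.** -/
theorem et_nd (n : ℕ) {k : ℕ} (P : HeadProg (Bool × ℤ) (n * n) k) (T S : ℕ) (hk : 1 ≤ k)
    (hS : Fintype.card P.Q * (n * n) ^ k ≤ 2 ^ S)
    (hsound : ∀ e w, ETInst n (8193 * n ^ 3) e w → P.Accepts (upper n e w) → ¬ ZeroTri e w)
    (hacc : ∀ e w, ETInst n (8193 * n ^ 3) e w → ¬ ZeroTri e w → P.AcceptsIn T (upper n e w)) :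
    n ^ 6 ≤ 100000000 * (k * (S + 1) * (k * T + n ^ 2) ^ 2) := by
  by_cases hn : 2 ≤ n
  swap
  · exact small_n n k T S hn hk
  by_contra hcon
  push Not at hcon
  have hQ : Nonempty P.Q := by
    obtain ⟨t, -, c, -, -, -⟩ := hacc (fun _ _ => false) (fun _ _ => 0)
      ⟨fun _ _ => rfl, fun _ _ => rfl, fun _ => rfl, fun _ _ => by simp⟩
      (by rintro ⟨i, j, k, -, -, -, h, -⟩; simp at h)
    exact ⟨(c 0).1⟩
  have hkS := k_le_S n k S _ hn (Fintype.card_pos_iff.mpr hQ) hS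
  obtain ⟨q, ρ, H, hq, hρ, hHρ, hd, hK2, hK1⟩ := paramsM n k T S hn hk hkS hcon
  obtain ⟨hh, hhe⟩ : ∃ hh, hh = n / 2 := ⟨_, rfl⟩
  rw [← hhe] at hHρ hd
  have hH0 : 0 < H := by
    have : 0 < 12 * k * (61 * q) := by positivity
    omega
  have hU0 : 0 < 8193 * n ^ 3 := by positivity
  have hins : ∀ v : Fin (2 * H) → Fin (ρ * hh) → Fin (8193 * n ^ 3),
      ETInst n (8193 * n ^ 3) (ef n (H * ρ) (n - hh) (uu v)) (wf n (H * ρ) (n - hh) (uu v)) :=
    fun v => inst n (H * ρ) (n - hh) _ (uu v) (by rw [← mul_assoc]; exact hHρ) (uu_le v)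
  have hfin := engineLR P (n * ρ) (2 * H) (ρ * hh) (8193 * n ^ 3) T (S + 1)
    (61 * q) (by positivity) (Lf H) (Rt H) (disj H)
    (wdE n H ρ hh (8193 * n ^ 3)) (fun v v' p hv => wdE_local n H ρ hh _ (by omega) v v' p hv)
    (GG H ρ hh (8193 * n ^ 3))
    (card_good2 _ (GG_card n H ρ hh (by omega) (by rw [← hhe]; exact hHρ) hhe))
    (fun v hv => hacc _ _ (hins v) (good_no_tri n H ρ hh _ hHρ v hv))
    (by
      intro x _ y _ a ha b hb _ hP i hxy
      have hab : a ≠ b := by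
        rintro rfl
        exact (Finset.disjoint_left.mp (disj H)) ha hb
      refine hsound _ _ (hins _) hP ?_
      apply eq_tri n H ρ hh _ hHρ (by omega) _ a b ha hb i
      rw [Function.update_self, Function.update_of_ne hab, hxy])
    hU0 (by rw [card_Lf]; exact hH0)
    (by rw [card_Rt]; exact hK1) (by rw [card_Lf]; exact hK2)
    (by
      rw [Fintype.card_prod, Fintype.card_fun, Fintype.card_fin, Fintype.card_fin, pow_succ]
      have : 1 ≤ 2 ^ S := Nat.one_le_two_pow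
      omega)
  have h9 : (S + 1) * (61 * q + 1) ≤ 62 * (q * (S + 1)) := by
    calc (S + 1) * (61 * q + 1) ≤ (S + 1) * (62 * q) := Nat.mul_le_mul_left _ (by omega)
      _ = 62 * (q * (S + 1)) := by ring
  have h11 : 1 ≤ q * (S + 1) := Nat.one_le_iff_ne_zero.mpr (by positivity)
  omega

end Pool.Agent.R562.Ht
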