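import Pool.Agent.TH457.HT.Engine

/-!
# Slow heads: two sides and equal places

The engine of `Pool.Agent.TH457.HT.Engine` in a form in which only the values at the same place of
a zone of the first side and of a zone of the second side are compared.
-/

set_option autoImplicit false

open Finset

namespace Pool.Agent.R562.Ht

open Pool.Agent.TH457.HT

/-- a set of families whose two zones `a`, `b` can be exchanged and never agree at a place is
small -/
theorem rectD {D d U : ℕ} (F : Finset (Fin D → Fin d → Fin U)) (a b : Fin D) (hab : a ≠ b)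
    (hrest : ∀ x ∈ F, ∀ y ∈ F, ∀ z, z ≠ a → z ≠ b → x z = y z)
    (hmix : ∀ x ∈ F, ∀ y ∈ F, ∀ i, x a i ≠ y b i) :
    4 ^ d * F.card ≤ (U ^ 2) ^ d := by
  classical
  obtain ⟨V, hV⟩ : ∃ V : Fin d → Finset (Fin U), V = fun i => F.image (fun x => x a i) := ⟨_, rfl⟩
  have hA : F.image (fun x => x a) ⊆ Fintype.piFinset V := by
    intro f hf
    obtain ⟨x, hx, rfl⟩ := mem_image.mp hf
    rw [Fintype.mem_piFinset]
    intro i
    rw [hV]
    exact mem_image_of_mem (fun x : Fin D → Fin d → Fin U => x a i) hx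
  have hB : F.image (fun x => x b) ⊆ Fintype.piFinset (fun i => (V i)ᶜ) := by
    intro g hg
    obtain ⟨y, hy, rfl⟩ := mem_image.mp hg
    rw [Fintype.mem_piFinset]
    intro i
    rw [mem_compl, hV]
    intro hm
    obtain ⟨x, hx, hxi⟩ := mem_image.mp hm
    exact hmix x hx y hy i hxi
  have hcard : F.card ≤ (F.image (fun x => x a)).card * (F.image (fun x => x b)).card := by
    rw [← card_product]
    apply card_le_card_of_injOn (fun x => (x a, x b))
    · intro x hx
      simp only [coe_product, Set.mem_prod, mem_coe]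
      exact ⟨mem_image_of_mem _ hx, mem_image_of_mem _ hx⟩
    · intro x hx y hy hxy
      simp only [Prod.mk.injEq] at hxy
      funext z
      by_cases ha : z = a
      · subst ha; exact hxy.1
      · by_cases hb : z = b
        · subst hb; exact hxy.2
        · exact hrest x hx y hy z ha hb
  have h1 := card_le_card hA
  have h2 := card_le_card hB
  rw [Fintype.card_piFinset] at h1 h2
  have hVU : ∀ i, (V i).card ≤ U := by
    intro i
    have := card_le_univ (V i)
    rwa [Fintype.card_fin] at this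
  have hc : ∀ i, ((V i)ᶜ).card = U - (V i).card := by
    intro i
    rw [card_compl, Fintype.card_fin]
  calc 4 ^ d * F.card ≤ 4 ^ d * ((∏ i, (V i).card) * ∏ i, ((V i)ᶜ).card) :=
        Nat.mul_le_mul_left _ (hcard.trans (Nat.mul_le_mul h1 h2))
    _ = ∏ i : Fin d, (4 * ((V i).card * (U - (V i).card))) := by
        rw [← Finset.prod_mul_distrib, Finset.prod_mul_distrib (f := fun _ => 4),
          Finset.prod_const, card_univ, Fintype.card_fin]
        congr 1
        apply Finset.prod_congr rfl
        intro i _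
        rw [hc i]
    _ ≤ ∏ i : Fin d, U ^ 2 := Finset.prod_le_prod' (fun i _ => four_mul _ U (hVU i))
    _ = (U ^ 2) ^ d := by rw [Finset.prod_const, card_univ, Fintype.card_fin]

/-- the same with rests and keys -/
theorem rectD_keys {D d U : ℕ} {κ : Type} [Fintype κ] (G : Finset (Fin D → Fin d → Fin U))
    (key : (Fin D → Fin d → Fin U) → κ) (a b : Fin D) (hab : a ≠ b)
    (hmix : ∀ x ∈ G, ∀ y ∈ G, key x = key y → (∀ z, z ≠ a → z ≠ b → x z = y z) →
      ∀ i, x a i ≠ y b i) :
    4 ^ d * G.card ≤ Fintype.card κ * U ^ (d * D) := by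
  classical
  have hfib : ∀ t ∈ (univ : Finset (κ × ({z : Fin D // z ≠ a ∧ z ≠ b} → Fin d → Fin U))),
      (G.filter (fun x => (key x, fun z : {z : Fin D // z ≠ a ∧ z ≠ b} => x z) = t)).card
        ≤ (U ^ 2) ^ d / 4 ^ d := by
    intro t _
    rw [Nat.le_div_iff_mul_le (by positivity), mul_comm]
    apply rectD _ a b hab
    · intro x hx y hy z hza hzb
      have h1 := (mem_filter.mp hx).2
      have h2 := (mem_filter.mp hy).2
      have h3 := congrArg Prod.snd (h1.trans h2.symm)
      exact congrFun h3 ⟨z, hza, hzb⟩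
    · intro x hx y hy
      have h1 := (mem_filter.mp hx).2
      have h2 := (mem_filter.mp hy).2
      have h3 := h1.trans h2.symm
      apply hmix x (mem_filter.mp hx).1 y (mem_filter.mp hy).1 (congrArg Prod.fst h3)
      intro z hza hzb
      exact congrFun (congrArg Prod.snd h3) ⟨z, hza, hzb⟩
  have h1 := Finset.card_le_mul_card_image_of_maps_to (s := G)
    (t := (univ : Finset (κ × ({z : Fin D // z ≠ a ∧ z ≠ b} → Fin d → Fin U))))
    (f := fun x => (key x, fun z : {z : Fin D // z ≠ a ∧ z ≠ b} => x z))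
    (fun x _ => mem_univ _) _ hfib
  have hsub : Fintype.card {z : Fin D // z ≠ a ∧ z ≠ b} = D - 2 := by
    rw [Fintype.card_subtype]
    have e : (univ : Finset (Fin D)).filter (fun z => z ≠ a ∧ z ≠ b) = (univ.erase a).erase b := by
      ext z; simp [mem_erase, and_comm]
    rw [e, card_erase_of_mem (mem_erase.mpr ⟨hab.symm, mem_univ _⟩),
      card_erase_of_mem (mem_univ _), card_univ, Fintype.card_fin]
    omega
  rw [card_univ, Fintype.card_prod, Fintype.card_fun, hsub, Fintype.card_fun, Fintype.card_fin,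
    Fintype.card_fin] at h1
  have hD : 2 ≤ D := by
    by_contra hlt
    apply hab
    have h1 := a.2
    have h2 := b.2
    apply Fin.ext
    omega
  calc 4 ^ d * G.card ≤ 4 ^ d * ((U ^ 2) ^ d / 4 ^ d * (Fintype.card κ * (U ^ d) ^ (D - 2))) :=
        Nat.mul_le_mul_left _ h1
    _ = ((U ^ 2) ^ d / 4 ^ d * 4 ^ d) * (Fintype.card κ * (U ^ d) ^ (D - 2)) := by ring
    _ ≤ (U ^ 2) ^ d * (Fintype.card κ * (U ^ d) ^ (D - 2)) :=
        Nat.mul_le_mul_right _ (Nat.div_mul_le_self _ _)
    _ = Fintype.card κ * ((U ^ d) ^ 2 * (U ^ d) ^ (D - 2)) := by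
        rw [← pow_mul U 2 d, mul_comm 2 d, pow_mul U d 2]; ring
    _ = Fintype.card κ * U ^ (d * D) := by
        rw [← pow_add, show 2 + (D - 2) = D by omega, ← pow_mul]

/-- **The engine with two sides.**  `D` zones of length `lam`, each with `d` values below `U`.  The
program accepts the words of the families of a large set `G` within `T` steps; if in such a family
a zone `b` of the second side is replaced by the one of another family of `G` and then agrees with
a zone `a` of the first side at some place, then the word is not accepted.  Then `d` is at most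
about `S` times the mean number `K` of windows which touch a zone. -/
theorem engineLR {Λ : Type} {n k : ℕ} (P : HeadProg Λ n k) (lam D d U T S K : ℕ) (hlam : 0 < lam)
    (Lf Rt : Finset (Fin D)) (hdisj : Disjoint Lf Rt)
    (wd : (Fin D → Fin d → Fin U) → (Fin n → Λ))
    (hloc : ∀ v v' (p : Fin n), (∀ h : (p : ℕ) / lam < D,
      v ⟨(p : ℕ) / lam, h⟩ = v' ⟨(p : ℕ) / lam, h⟩) → wd v p = wd v' p)
    (G : Finset (Fin D → Fin d → Fin U)) (hG : U ^ (d * D) ≤ 2 * G.card)
    (hacc : ∀ v ∈ G, P.AcceptsIn T (wd v))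
    (hsound : ∀ x ∈ G, ∀ y ∈ G, ∀ a ∈ Lf, ∀ b ∈ Rt, (∀ z, z ≠ a → z ≠ b → x z = y z) →
      P.Accepts (wd (Function.update x b (y b))) → ∀ i, x a i ≠ y b i)
    (hU0 : 0 < U) (hLf : 0 < Lf.card)
    (hK1 : 12 * k * (T / lam + 1) < (K + 1) * Rt.card) (hK2 : 12 * k * K ≤ Lf.card)
    (hS : Fintype.card P.Cfg + 1 ≤ 2 ^ S) : d ≤ 1 + S * (K + 1) := by
  classical
  obtain ⟨N, hN⟩ : ∃ N, N = T / lam + 1 := ⟨_, rfl⟩
  have h0 := fun v hv => exists_touch P lam D T hlam (wd v) (hacc v hv)
  rw [← hN] at hK1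
  simp only [← hN] at h0
  choose! Tch hT1 hT2 using h0
  have hRt : 0 < Rt.card := by
    rcases Nat.eq_zero_or_pos Rt.card with h | h
    · rw [h] at hK1; omega
    · exact h
  -- the number of windows which touch `b`
  obtain ⟨Kb, hKb⟩ : ∃ Kb : (Fin D → Fin d → Fin U) → Fin D → ℕ,
      Kb = fun x b => ((range N).filter (fun i => b ∈ Tch x i)).card := ⟨_, rfl⟩
  have hsumK : ∀ x ∈ G, ∑ b : Fin D, Kb x b ≤ N * (3 * k) := by
    intro x hx
    have h1 : ∑ i ∈ range N, ((univ : Finset (Fin D)).filter (fun b => b ∈ Tch x i)).card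
        = ∑ b : Fin D, ((range N).filter (fun i => b ∈ Tch x i)).card :=
      Finset.sum_card_bipartiteAbove_eq_sum_card_bipartiteBelow (r := fun i b => b ∈ Tch x i)
    rw [hKb]
    simp only
    rw [← h1]
    refine (Finset.sum_le_sum (g := fun _ => 3 * k) ?_).trans (by simp)
    intro i _
    have e : (univ : Finset (Fin D)).filter (fun b => b ∈ Tch x i) = Tch x i := by
      ext z; simp
    rw [e]
    exact hT1 x hx i
  obtain ⟨b, hbR, hb⟩ := avg4 G Rt (fun x b => K < Kb x b) (card_pos.mp hRt) (by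
      intro x hx
      have h1 : (K + 1) * (Rt.filter (fun b => K < Kb x b)).card
          ≤ ∑ b : Fin D, Kb x b := by
        calc (K + 1) * (Rt.filter (fun b => K < Kb x b)).card
            = ∑ b ∈ Rt.filter (fun b => K < Kb x b), (K + 1) := by
              rw [sum_const, smul_eq_mul, mul_comm]
          _ ≤ ∑ b ∈ Rt.filter (fun b => K < Kb x b), Kb x b :=
              Finset.sum_le_sum (fun b hb => (mem_filter.mp hb).2)
          _ ≤ ∑ b : Fin D, Kb x b :=
              Finset.sum_le_sum_of_subset (subset_univ _)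
      have h2 := h1.trans (hsumK x hx)
      have h3 : (K + 1) * (4 * (Rt.filter (fun b => K < Kb x b)).card)
          < (K + 1) * Rt.card := by
        calc (K + 1) * (4 * (Rt.filter (fun b => K < Kb x b)).card)
            = 4 * ((K + 1) * (Rt.filter (fun b => K < Kb x b)).card) := by
              ring
          _ ≤ 4 * (N * (3 * k)) := Nat.mul_le_mul_left _ h2
          _ = 12 * k * N := by ring
          _ < (K + 1) * Rt.card := hK1
      exact (Nat.lt_of_mul_lt_mul_left h3).le)
  set G1 := G.filter (fun x => ¬ K < Kb x b) with hG1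
  have hc1 : (G.filter (fun x => K < Kb x b)).card + G1.card = G.card :=
    Finset.card_filter_add_card_filter_not (s := G) (fun x => K < Kb x b)
  obtain ⟨a, haL, ha2⟩ := avg4 G1 Lf
    (fun x a => ∃ i < N, a ∈ Tch x i ∧ b ∈ Tch x i)
    (card_pos.mp hLf)
    (by
      intro x hx
      have hxG : x ∈ G := (mem_filter.mp hx).1
      have hxK : Kb x b ≤ K := by
        have := (mem_filter.mp hx).2; omega
      have hsub : Lf.filter
          (fun a => ∃ i < N, a ∈ Tch x i ∧ b ∈ Tch x i) ⊆
          ((range N).filter (fun i => b ∈ Tch x i)).biUnion (Tch x) := by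
        intro a ha
        obtain ⟨-, i, hi, h1, h2⟩ := mem_filter.mp ha
        exact mem_biUnion.mpr ⟨i, mem_filter.mpr ⟨mem_range.mpr hi, h2⟩, h1⟩
      have h1 : (Lf.filter
          (fun a => ∃ i < N, a ∈ Tch x i ∧ b ∈ Tch x i)).card ≤ Kb x b * (3 * k) := by
        refine (card_le_card hsub).trans (card_biUnion_le.trans ?_)
        refine (Finset.sum_le_sum (g := fun _ => 3 * k)
          (fun i _ => hT1 x hxG i)).trans ?_
        rw [sum_const, smul_eq_mul, hKb]
      have h2 : Kb x b * (3 * k) ≤ K * (3 * k) := Nat.mul_le_mul_right _ hxK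
      have h3 : 4 * (K * (3 * k)) = 12 * k * K := by ring
      omega)
  have hab : a ≠ b := by
    rintro rfl
    exact (Finset.disjoint_left.mp hdisj) haL hbR
  set G2 := G1.filter (fun x => ¬ ∃ i < N, a ∈ Tch x i ∧ b ∈ Tch x i) with hG2
  have hc2 : (G1.filter (fun x => ∃ i < N, a ∈ Tch x i ∧ b ∈ Tch x i)).card + G2.card = G1.card :=
    Finset.card_filter_add_card_filter_not (s := G1) _
  have hG2G : ∀ x ∈ G2, x ∈ G := fun x hx => (mem_filter.mp (mem_filter.mp hx).1).1
  -- transcripts
  have htr : ∀ x ∈ G2, ∃ (c₀ : P.Cfg) (τ : List P.Cfg), P.init c₀.1 c₀.2 ∧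
      Tr P lam a b (wd x) false c₀ τ ∧ τ.length ≤ 2 * K + 1 := by
    intro x hx
    have hx2 := (mem_filter.mp hx).2
    have hx1 := (mem_filter.mp (mem_filter.mp hx).1).2
    obtain ⟨c₀, τ, h1, h2, h3⟩ := hT2 x (hG2G x hx) a b
      (fun i hi h1 h2 => hx2 ⟨i, hi, h1, h2⟩)
    refine ⟨c₀, τ, h1, h2, h3.trans ?_⟩
    have : Kb x b ≤ K := by omega
    rw [hKb] at this
    simp only at this
    omega
  have hne : ∀ x ∈ G2, Nonempty P.Cfg := fun x hx => ⟨(htr x hx).choose⟩
  rcases Finset.eq_empty_or_nonempty G2 with hemp | ⟨x₀, hx₀⟩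
  · exfalso
    have hz : G2.card = 0 := by rw [hemp]; rfl
    have hz1 : G1.card = 0 := by omega
    have hz0 : G.card = 0 := by omega
    rw [hz0] at hG
    have : 0 < U ^ (d * D) := by positivity
    omega
  have : Nonempty P.Cfg := hne x₀ hx₀
  choose! c₀ τ hi htau hlen using htr
  have hfin := rectD_keys (κ := Fin (2 * K + 2) → Option P.Cfg) G2
    (fun x i => (c₀ x :: τ x)[(i : ℕ)]?) a b hab (by
      intro x hx y hy hkey hrest
      have e := getElem?_ext (R := 2 * K + 2)
        (by rw [List.length_cons]; have := hlen x hx; omega)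
        (by rw [List.length_cons]; have := hlen y hy; omega) hkey
      rw [List.cons.injEq] at e
      apply hsound x (hG2G x hx) y (hG2G y hy) a haL b hbR hrest
      refine Tr_accepts P lam a b _ (τ x) false (c₀ x) (hi x hx) ?_
      refine Tr_mix P lam a b (wd x) (wd y) _ ?_ ?_ (τ x) false (c₀ x) (htau x hx) ?_
      · intro p hp
        apply hloc
        intro h
        apply Function.update_of_ne
        intro hh
        exact hp (congrArg Fin.val hh)
      · intro p hp
        apply hloc
        intro h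
        by_cases hpb : (⟨(p : ℕ) / lam, h⟩ : Fin D) = b
        · rw [hpb, Function.update_self]
        · rw [Function.update_of_ne hpb]
          apply hrest _ _ hpb
          intro hh
          exact hp (congrArg Fin.val hh)
      · rw [e.1, e.2]
        exact htau y hy)
  rw [Fintype.card_fun, Fintype.card_fin, Fintype.card_option] at hfin
  have hGG2 : G.card ≤ 2 * G2.card := by omega
  have hpos : 0 < U ^ (d * D) := by positivity
  have h4 : 4 ^ d * U ^ (d * D) ≤ 4 * 2 ^ (S * (2 * K + 2)) * U ^ (d * D) := by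
    calc 4 ^ d * U ^ (d * D) ≤ 4 ^ d * (4 * G2.card) := Nat.mul_le_mul_left _ (by omega)
      _ = 4 * (4 ^ d * G2.card) := by ring
      _ ≤ 4 * ((Fintype.card P.Cfg + 1) ^ (2 * K + 2) * U ^ (d * D)) :=
          Nat.mul_le_mul_left _ hfin
      _ ≤ 4 * ((2 ^ S) ^ (2 * K + 2) * U ^ (d * D)) :=
          Nat.mul_le_mul_left _ (Nat.mul_le_mul_right _ (Nat.pow_le_pow_left hS _))
      _ = 4 * 2 ^ (S * (2 * K + 2)) * U ^ (d * D) := by rw [← pow_mul]; ring
  have h5 : 4 ^ d ≤ 4 * 2 ^ (S * (2 * K + 2)) := Nat.le_of_mul_le_mul_right h4 hpos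
  have h6 : (2 : ℕ) ^ (2 * d) ≤ 2 ^ (2 + S * (2 * K + 2)) := by
    calc (2 : ℕ) ^ (2 * d) = 4 ^ d := by rw [pow_mul]; norm_num
      _ ≤ 4 * 2 ^ (S * (2 * K + 2)) := h5
      _ = 2 ^ (2 + S * (2 * K + 2)) := by rw [pow_add]; norm_num
  have h7 := (Nat.pow_le_pow_iff_right (by norm_num : 1 < 2)).mp h6
  have h8 : S * (2 * K + 2) = 2 * (S * (K + 1)) := by ring
  omega

end Pool.Agent.R562.Ht
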