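import Pool.Agent.R562.HtR

/-!
# Zero-error randomized slow heads
-/

set_option autoImplicit false

open Finset

namespace Pool.Agent.R562.Ht

open Pool.Agent.TH457.HT

variable {Λ : Type} {n k : ℕ}

/-- **The engine for zero-error programs with two sides.**  The program answers `true` on the
words of the families of a set `G` which contains almost all families, with probability `4 / 5` in
time, and always `false` if a value of a zone of the first side is planted at the same place of a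
zone of the second side. -/
theorem engineZ {Ω : Type} [Fintype Ω] (p : Ω → ℝ) (hp : ∀ ω, 0 ≤ p ω) (hp1 : ∑ ω, p ω = 1)
    (P : Ω → DetProg Λ n k) (lam D d U T K S : ℕ) (hlam : 0 < lam) (hd : 0 < d)
    (hU0 : 0 < U) (Lf Rt : Finset (Fin D)) (hdisj : Disjoint Lf Rt) (hLf : 0 < Lf.card)
    (wd : (Fin D → Fin d → Fin U) → (Fin n → Λ))
    (hloc : ∀ v v' (p : Fin n), (∀ h : (p : ℕ) / lam < D,
      v ⟨(p : ℕ) / lam, h⟩ = v' ⟨(p : ℕ) / lam, h⟩) → wd v p = wd v' p)
    (G : Finset (Fin D → Fin d → Fin U)) (hG : 8192 * U ^ (d * D) ≤ 8193 * G.card)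
    (hyes : ∀ v ∈ G, 4 / 5 ≤ prob p P T (wd v) true)
    (hno : ∀ v ∈ G, ∀ a ∈ Lf, ∀ b ∈ Rt, ∀ i ω,
      ∃ T', (P ω).Answers T' (wd (TT a b i i v)) false)
    (hK1 : 12 * k * (T / lam + 1) < (K + 1) * Rt.card) (hK2 : 12 * k * K ≤ Lf.card)
    (hS : ∀ ω, Fintype.card (P ω).Cfg + 1 ≤ 2 ^ S) : d < 42 * (K * S) + 84 := by
  classical
  by_contra hcon
  push Not at hcon
  have hRt : 0 < Rt.card := by
    rcases Nat.eq_zero_or_pos Rt.card with h | h
    · rw [h] at hK1; omega
    · exact h
  obtain ⟨V, hV⟩ : ∃ V : ℝ, V = (U : ℝ) ^ (d * D) := ⟨_, rfl⟩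
  have hVpos : 0 < V := by rw [hV]; positivity
  have hcardV : ((univ : Finset (Fin D → Fin d → Fin U)).card : ℝ) = V := by
    rw [card_univ, Fintype.card_fun, Fintype.card_fun, Fintype.card_fin, Fintype.card_fin,
      Fintype.card_fin, ← pow_mul, hV]
    push_cast; rfl
  have hGV : 8192 * V ≤ 8193 * (G.card : ℝ) := by rw [hV]; exact_mod_cast hG
  have hGc : (((univ : Finset (Fin D → Fin d → Fin U)) \ G).card : ℝ) ≤ 1 / 8192 * V := by
    have h1 := Finset.card_sdiff_add_card_inter (univ : Finset (Fin D → Fin d → Fin U)) G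
    rw [Finset.univ_inter] at h1
    have h2 : (((univ : Finset (Fin D → Fin d → Fin U)) \ G).card : ℝ) + G.card = V := by
      rw [← hcardV]; exact_mod_cast h1
    linarith
  obtain ⟨M, hM⟩ : ∃ M : ℝ, M = (2 : ℝ) ^ (2 * (K * S)) * eta d := ⟨_, rfl⟩
  obtain ⟨Acc, hAcc⟩ : ∃ Acc : Ω → Finset (Fin D → Fin d → Fin U),
      Acc = fun ω => univ.filter (fun v => (P ω).Answers T (wd v) true) := ⟨_, rfl⟩
  obtain ⟨c, hc⟩ : ∃ c : ℝ, c = ((Rt.card * Lf.card : ℕ) : ℝ) := ⟨_, rfl⟩
  have hcpos : 0 < c := by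
    rw [hc]
    have h1 : 0 < Rt.card * Lf.card := Nat.mul_pos hRt hLf
    exact_mod_cast h1
  -- the planted families are rejected
  have hle1 : ∀ v, ∑ ω, p ω * (if v ∈ AI (P ω) wd then (1 : ℝ) else 0) ≤ 1 := by
    intro v
    refine le_trans ?_ hp1.le
    apply Finset.sum_le_sum
    intro ω _
    split_ifs
    · rw [mul_one]
    · rw [mul_zero]; exact hp ω
  have hfalse : ∀ v, (∀ ω, ∃ T', (P ω).Answers T' (wd v) false) →
      ∑ ω, p ω * (if v ∈ AI (P ω) wd then (1 : ℝ) else 0) ≤ 0 := by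
    intro v h1
    apply le_of_eq
    apply Finset.sum_eq_zero
    intro ω _
    have h3 : v ∉ AI (P ω) wd := by
      intro h3
      obtain ⟨T', t', -, h5, h6⟩ := (mem_AI (P ω) wd v).mp h3
      obtain ⟨T'', t, -, h7, h8⟩ := h1 ω
      rcases Nat.lt_trichotomy t t' with hlt | heq | hgt
      · rw [h6 t hlt] at h7; cases h7
      · rw [heq, h5] at h7; cases h7
      · rw [h8 t' hgt] at h5; cases h5
    rw [if_neg h3, mul_zero]
  have hPL : ∀ b ∈ Rt, ∀ a ∈ Lf, ∀ i,
      ∑ ω, p ω * PL (P ω) wd a b i i ≤ (0 + 1 / 8192) * V := by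
    intro b hb a ha i
    have h1 : ∀ ω, PL (P ω) wd a b i i
        = ∑ v, (if TT a b i i v ∈ AI (P ω) wd then (1 : ℝ) else 0) := by
      intro ω
      unfold PL
      exact sum_ite_card _ _
    simp only [h1, mul_sum]
    rw [Finset.sum_comm]
    calc ∑ v, ∑ ω, p ω * (if TT a b i i v ∈ AI (P ω) wd then (1 : ℝ) else 0)
        ≤ ∑ v : Fin D → Fin d → Fin U,
          ((0 : ℝ) + if v ∈ (univ : Finset (Fin D → Fin d → Fin U)) \ G then 1 else 0) := by
          apply Finset.sum_le_sum
          intro v _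
          by_cases hv : v ∈ G
          · have h2 := hfalse (TT a b i i v) (hno v hv a ha b hb i)
            rw [if_neg (fun h => (mem_sdiff.mp h).2 hv), add_zero]
            exact h2
          · rw [if_pos (mem_sdiff.mpr ⟨mem_univ _, hv⟩)]
            have h2 := hle1 (TT a b i i v)
            linarith
      _ = 0 * V + (((univ : Finset (Fin D → Fin d → Fin U)) \ G).card : ℝ) := by
          rw [Finset.sum_add_distrib, sum_const, nsmul_eq_mul, hcardV, Finset.sum_ite_mem,
            Finset.univ_inter, sum_const, nsmul_eq_mul, mul_one]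
          ring
      _ ≤ (0 + 1 / 8192) * V := by linarith
  -- the families of `G` are accepted
  have hAccE : (4 / 5) * (8192 / 8193 * V) ≤ ∑ ω, p ω * ((Acc ω).card : ℝ) := by
    have h1 : ∑ ω, p ω * ((Acc ω).card : ℝ) = ∑ v, prob p P T (wd v) true := by
      unfold prob
      rw [Finset.sum_comm]
      apply Finset.sum_congr rfl
      intro ω _
      rw [hAcc]
      dsimp only
      rw [sum_ite_card, mul_sum]
      apply Finset.sum_congr rfl
      intro v _
      split_ifs <;> simp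
    rw [h1]
    calc (4 / 5) * (8192 / 8193 * V)
        ≤ (4 / 5) * (G.card : ℝ) := by
          apply mul_le_mul_of_nonneg_left _ (by norm_num)
          linarith
      _ = ∑ v ∈ G, (4 / 5 : ℝ) := by
          rw [sum_const, nsmul_eq_mul]; ring
      _ ≤ ∑ v ∈ G, prob p P T (wd v) true :=
          Finset.sum_le_sum (fun v hv => hyes v hv)
      _ ≤ ∑ v, prob p P T (wd v) true := by
          apply Finset.sum_le_sum_of_subset_of_nonneg (subset_univ _)
          intro v _ _
          unfold prob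
          apply Finset.sum_nonneg
          intro ω _
          split_ifs
          · exact hp ω
          · exact le_rfl
  -- all together
  have hone : ∀ ω, (d : ℝ) * (c * ((Acc ω).card : ℝ)) ≤
      2 * ∑ b ∈ Rt, ∑ a ∈ Lf,
        (2048 * ∑ i, PL (P ω) wd a b i i + (d : ℝ) * (M * V)) := by
    intro ω
    have h1 := one_progLR (P ω) lam D d U T K S hlam hd hU0 Lf Rt hdisj wd hloc hK1 hK2 (hS ω)
      (Acc ω) (by
      intro v hv
      rw [hAcc] at hv
      exact (mem_filter.mp hv).2)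
    rw [← hc, ← hV] at h1
    have e : (2 : ℝ) ^ (2 * (K * S)) * (eta d * V) = M * V := by rw [hM]; ring
    rw [e] at h1
    exact h1
  obtain ⟨ε, hε⟩ : ∃ ε : ℝ, ε = 0 + 1 / 8192 := ⟨_, rfl⟩
  rw [← hε] at hPL
  have hsum : (d : ℝ) * (c * ∑ ω, p ω * ((Acc ω).card : ℝ)) ≤
      2 * (c * (2048 * ((d : ℝ) * (ε * V)) + (d : ℝ) * (M * V))) := by
    calc (d : ℝ) * (c * ∑ ω, p ω * ((Acc ω).card : ℝ))
        = ∑ ω, p ω * ((d : ℝ) * (c * ((Acc ω).card : ℝ))) := by
          rw [mul_sum, mul_sum]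
          apply Finset.sum_congr rfl
          intro ω _
          ring
      _ ≤ ∑ ω, p ω * (2 * ∑ b ∈ Rt, ∑ a ∈ Lf,
        (2048 * ∑ i, PL (P ω) wd a b i i + (d : ℝ) * (M * V))) :=
          Finset.sum_le_sum (fun ω _ => mul_le_mul_of_nonneg_left (hone ω) (hp ω))
      _ = 2 * ∑ b ∈ Rt, ∑ a ∈ Lf,
        (2048 * ∑ i, ∑ ω, p ω * PL (P ω) wd a b i i + (d : ℝ) * (M * V)) := by
          have e1 : ∀ ω, p ω * (2 * ∑ b ∈ Rt, ∑ a ∈ Lf,
              (2048 * ∑ i, PL (P ω) wd a b i i + (d : ℝ) * (M * V)))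
              = ∑ b ∈ Rt, ∑ a ∈ Lf,
              (2 * (2048 * ∑ i, p ω * PL (P ω) wd a b i i
                + p ω * ((d : ℝ) * (M * V)))) := by
            intro ω
            rw [mul_sum, mul_sum]
            apply Finset.sum_congr rfl
            intro b _
            rw [mul_sum, mul_sum]
            apply Finset.sum_congr rfl
            intro a _
            have e2 : ∑ i, p ω * PL (P ω) wd a b i i
                = p ω * ∑ i, PL (P ω) wd a b i i := by
              rw [mul_sum]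
            rw [e2]; ring
          rw [Finset.sum_congr rfl (fun ω _ => e1 ω), Finset.sum_comm, mul_sum]
          apply Finset.sum_congr rfl
          intro b _
          rw [Finset.sum_comm, mul_sum]
          apply Finset.sum_congr rfl
          intro a _
          rw [← mul_sum, Finset.sum_add_distrib, ← mul_sum, ← sum_mul, hp1, one_mul,
            Finset.sum_comm]
      _ ≤ 2 * ∑ b ∈ Rt, ∑ a ∈ Lf,
        (2048 * ((d : ℝ) * (ε * V)) + (d : ℝ) * (M * V)) := by
          apply mul_le_mul_of_nonneg_left _ (by norm_num)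
          apply Finset.sum_le_sum
          intro b hb
          apply Finset.sum_le_sum
          intro a ha
          apply add_le_add _ (le_refl _)
          apply mul_le_mul_of_nonneg_left _ (by norm_num)
          calc ∑ i, ∑ ω, p ω * PL (P ω) wd a b i i
              ≤ ∑ i : Fin d, (ε * V) :=
                Finset.sum_le_sum (fun i _ => hPL b hb a ha i)
            _ = (d : ℝ) * (ε * V) := by
                rw [sum_const, card_univ, Fintype.card_fin, nsmul_eq_mul]
      _ = 2 * (c * (2048 * ((d : ℝ) * (ε * V)) + (d : ℝ) * (M * V))) := by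
          rw [sum_const, sum_const, nsmul_eq_mul, nsmul_eq_mul, hc]
          push_cast
          ring
  have hMle : M ≤ 1 / 8 := by
    rw [hM]
    unfold eta
    have h1 : ((967 : ℝ) / 1000) ^ d ≤ (1 / 2) ^ (2 * (K * S) + 4) := by
      calc ((967 : ℝ) / 1000) ^ d ≤ (967 / 1000) ^ (21 * (2 * (K * S) + 4)) :=
            pow_le_pow_of_le_one (by norm_num) (by norm_num) (by omega)
        _ = ((967 / 1000) ^ 21) ^ (2 * (K * S) + 4) := by rw [pow_mul]
        _ ≤ (1 / 2) ^ (2 * (K * S) + 4) := by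
            apply pow_le_pow_left₀ (by positivity)
            norm_num
    calc (2 : ℝ) ^ (2 * (K * S)) * (2 * ((967 : ℝ) / 1000) ^ d)
        ≤ (2 : ℝ) ^ (2 * (K * S)) * (2 * (1 / 2) ^ (2 * (K * S) + 4)) := by gcongr
      _ = (2 * (1 / 2)) ^ (2 * (K * S)) * (2 * (1 / 2) ^ 4) := by
          rw [pow_add, mul_pow]; ring
      _ = 1 / 8 := by norm_num
  have hdpos : (0 : ℝ) < (d : ℝ) := by positivity
  obtain ⟨E, hE⟩ : ∃ E : ℝ, E = ∑ ω, p ω * ((Acc ω).card : ℝ) := ⟨_, rfl⟩
  rw [← hE] at hsum hAccE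
  have h5 : (d : ℝ) * c * E ≤ (d : ℝ) * c * (2 * (2048 * ε * V + M * V)) := by
    calc (d : ℝ) * c * E = (d : ℝ) * (c * E) := by ring
      _ ≤ 2 * (c * (2048 * ((d : ℝ) * (ε * V)) + (d : ℝ) * (M * V))) := hsum
      _ = (d : ℝ) * c * (2 * (2048 * ε * V + M * V)) := by ring
  have h6 : E ≤ 2 * (2048 * ε * V + M * V) :=
    le_of_mul_le_mul_left h5 (mul_pos hdpos hcpos)
  have h7 : M * V ≤ 1 / 8 * V := mul_le_mul_of_nonneg_right hMle hVpos.le
  rw [hε] at h6
  nlinarith

end Pool.Agent.R562.Ht
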