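import Mathlib

/-!
# Three distinct numbers with `a + b = c`
-/

set_option autoImplicit false

namespace Pool.Agent.R562.Ht

/-- Three numbers of the list at different places with `a + b = c`. -/
def HasSum3 {n : ℕ} (x : Fin n → ℤ) : Prop :=
  ∃ i j k : Fin n, i ≠ j ∧ i ≠ k ∧ j ≠ k ∧ x i + x j = x k

end Pool.Agent.R562.Ht
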