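import Pool.Agent.R562.TLDefs
import Pool.Agent.R562.HtP

/-!
# Triangles in lists of edges and equal values
-/

set_option autoImplicit false

open Finset

namespace Pool.Agent.R562.Ht

/-- the parameters for words with blocks of length `L` -/
theorem paramsL (N k T S L : ℕ) (hN : 0 < N) (hk : 1 ≤ k) (hL : 0 < L)
    (hcon : 4000000 * L * (k * (S + 1) * (k * T + N) ^ 2) < N ^ 3) :
    ∃ q H : ℕ, 1 ≤ q ∧ 2 * H * (2700 * (q * (S + 1))) * L ≤ N ∧
      12 * k * (61 * q) ≤ H ∧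
      12 * k * (T / (L * (2700 * (q * (S + 1)))) + 1) < (61 * q + 1) * H := by
  obtain ⟨q, hq⟩ : ∃ q, q = k * T / N + 1 := ⟨_, rfl⟩
  have hq1 : 1 ≤ q := by rw [hq]; exact Nat.le_add_left 1 _
  have hkT : k * T < N * q := by
    rw [hq]
    have h1 := Nat.div_add_mod (k * T) N
    have h2 := Nat.mod_lt (k * T) hN
    calc k * T = N * (k * T / N) + k * T % N := h1.symm
      _ < N * (k * T / N) + N := by omega
      _ = N * (k * T / N + 1) := by ring
  have hnq : N * q ≤ k * T + N := by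
    rw [hq, mul_add, mul_one]
    have := Nat.mul_div_le (k * T) N
    omega
  have hX : 4000000 * L * (k * (S + 1) * q ^ 2) < N := by
    have h1 : 4000000 * L * (k * (S + 1) * q ^ 2) * N ^ 2 < N * N ^ 2 := by
      calc 4000000 * L * (k * (S + 1) * q ^ 2) * N ^ 2
          = 4000000 * L * (k * (S + 1) * (N * q) ^ 2) := by ring
        _ ≤ 4000000 * L * (k * (S + 1) * (k * T + N) ^ 2) := by gcongr
        _ < N ^ 3 := hcon
        _ = N * N ^ 2 := by ring
    exact Nat.lt_of_mul_lt_mul_right h1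
  obtain ⟨y, hy⟩ : ∃ y, y = k * q := ⟨_, rfl⟩
  have hy1 : 1 ≤ y := by rw [hy]; exact Nat.one_le_iff_ne_zero.mpr (by positivity)
  obtain ⟨d, hd⟩ : ∃ d, d = 2700 * (q * (S + 1)) := ⟨_, rfl⟩
  have hd0 : 0 < d := by rw [hd]; positivity
  have hlam : 0 < L * d := by positivity
  have h2lam : 0 < 2 * (L * d) := by positivity
  obtain ⟨H, hH⟩ : ∃ H, H = N / (2 * (L * d)) := ⟨_, rfl⟩
  have hH3 : 732 * y ≤ H := by
    rw [hH, Nat.le_div_iff_mul_le h2lam]
    calc 732 * y * (2 * (L * d)) = 3952800 * L * (k * (S + 1) * q ^ 2) := by rw [hy, hd]; ring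
      _ ≤ 4000000 * L * (k * (S + 1) * q ^ 2) := by gcongr; norm_num
      _ ≤ N := hX.le
  have hHd : 2 * H * d * L ≤ N := by
    rw [hH]
    calc 2 * (N / (2 * (L * d))) * d * L = N / (2 * (L * d)) * (2 * (L * d)) := by ring
      _ ≤ N := Nat.div_mul_le_self _ _
  refine ⟨q, H, hq1, by rw [← hd]; exact hHd, ?_, ?_⟩
  · calc 12 * k * (61 * q) = 732 * y := by rw [hy]; ring
      _ ≤ H := hH3
  · rw [← hd]
    apply Nat.lt_of_mul_lt_mul_left (a := L * d)
    have h1 : L * d * (T / (L * d)) ≤ T := Nat.mul_div_le T (L * d)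
    have h2 : N < 2 * (L * d) * (H + 1) := by
      rw [hH]
      have h4 := Nat.div_add_mod N (2 * (L * d))
      have h5 := Nat.mod_lt N h2lam
      calc N = 2 * (L * d) * (N / (2 * (L * d))) + N % (2 * (L * d)) := h4.symm
        _ < 2 * (L * d) * (N / (2 * (L * d))) + 2 * (L * d) := by omega
        _ = 2 * (L * d) * (N / (2 * (L * d)) + 1) := by ring
    have h3 : N ≤ 5 * (L * d * H) := by
      have e1 : 2 * (L * d) * (H + 1) = 2 * (L * d * H) + 2 * (L * d) := by ring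
      have e2 : 732 * (L * d) ≤ L * d * H := by
        calc 732 * (L * d) ≤ 732 * y * (L * d) := by nlinarith
          _ ≤ H * (L * d) := Nat.mul_le_mul_right _ hH3
          _ = L * d * H := by ring
      omega
    have hkH : 12 * k ≤ q * H := by
      have h51 : k ≤ y := by rw [hy]; exact Nat.le_mul_of_pos_right _ hq1
      have h52 : H ≤ q * H := Nat.le_mul_of_pos_left _ hq1
      omega
    calc L * d * (12 * k * (T / (L * d) + 1))
        = 12 * k * (L * d * (T / (L * d))) + 12 * k * (L * d) := by ring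
      _ ≤ 12 * k * T + q * H * (L * d) :=
          Nat.add_le_add (Nat.mul_le_mul_left _ h1) (Nat.mul_le_mul_right _ hkH)
      _ = 12 * (k * T) + q * H * (L * d) := by ring
      _ < 12 * (N * q) + q * H * (L * d) := by omega
      _ = 12 * q * N + q * H * (L * d) := by ring
      _ ≤ 12 * q * (5 * (L * d * H)) + q * H * (L * d) := by gcongr
      _ = L * d * (61 * q * H) := by ring
      _ ≤ L * d * ((61 * q + 1) * H) := by gcongr; omega

/-- the vertices: value vertices of two sorts, a vertex for each place of each zone, the centre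
and the leaves of a star -/
abbrev Vt (D d R N : ℕ) : Type := (Bool × Fin R) ⊕ (Fin D × Fin d) ⊕ Option (Fin N)

theorem card_Vt (D d R N : ℕ) : Fintype.card (Vt D d R N) = 2 * R + (D * d + (N + 1)) := by
  simp [Vt, Fintype.card_sum, Fintype.card_prod, Fintype.card_option]

/-- the coordinates of a value -/
def co {R : ℕ} (u : Fin (R * R)) (s : Bool) : Fin R :=
  if s then (finProdFinEquiv.symm u).2 else (finProdFinEquiv.symm u).1

theorem co_ext {R : ℕ} (u u' : Fin (R * R)) (h : ∀ s, co u s = co u' s) : u = u' := by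
  apply finProdFinEquiv.symm.injective
  have h1 := h false
  have h2 := h true
  unfold co at h1 h2
  exact Prod.ext (by simpa using h1) (by simpa using h2)

/-- the edges of the word of a family, as pairs -/
def pr (H d R N L : ℕ) (v : Fin (2 * H) → Fin d → Fin (R * R)) (hd : 0 < d) (p : Fin N) :
    Vt (2 * H) d R N × Vt (2 * H) d R N :=
  if h : (p : ℕ) / (L * d) < 2 * H then
    if (p : ℕ) / (L * d) < H then
      if (p : ℕ) % L = 0 then
        (Sum.inr (Sum.inl (⟨(p : ℕ) / (L * d), h⟩, ⟨(p : ℕ) / L % d, Nat.mod_lt _ hd⟩)),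
          Sum.inl (false, co (v ⟨(p : ℕ) / (L * d), h⟩ ⟨(p : ℕ) / L % d, Nat.mod_lt _ hd⟩) false))
      else if (p : ℕ) % L = 1 then
        (Sum.inr (Sum.inl (⟨(p : ℕ) / (L * d), h⟩, ⟨(p : ℕ) / L % d, Nat.mod_lt _ hd⟩)),
          Sum.inl (true, co (v ⟨(p : ℕ) / (L * d), h⟩ ⟨(p : ℕ) / L % d, Nat.mod_lt _ hd⟩) true))
      else (Sum.inr (Sum.inr none), Sum.inr (Sum.inr (some p)))
    else
      if (p : ℕ) % L = 0 then
        (Sum.inl (false, co (v ⟨(p : ℕ) / (L * d), h⟩ ⟨(p : ℕ) / L % d, Nat.mod_lt _ hd⟩) false),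
          Sum.inl (true, co (v ⟨(p : ℕ) / (L * d), h⟩ ⟨(p : ℕ) / L % d, Nat.mod_lt _ hd⟩) true))
      else (Sum.inr (Sum.inr none), Sum.inr (Sum.inr (some p)))
  else (Sum.inr (Sum.inr none), Sum.inr (Sum.inr (some p)))

/-- the kinds of the edges -/
theorem pr_cases (H d R N L : ℕ) (v : Fin (2 * H) → Fin d → Fin (R * R)) (hd : 0 < d)
    (p : Fin N) :
    (∃ (a : Fin (2 * H)) (i : Fin d) (s : Bool), (a : ℕ) < H ∧ (a : ℕ) = (p : ℕ) / (L * d) ∧ (i : ℕ) = (p : ℕ) / L % d ∧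
      (p : ℕ) % L = (if s then 1 else 0) ∧
      pr H d R N L v hd p = (Sum.inr (Sum.inl (a, i)), Sum.inl (s, co (v a i) s))) ∨
    (∃ (a : Fin (2 * H)) (i : Fin d), ¬ (a : ℕ) < H ∧ (a : ℕ) = (p : ℕ) / (L * d) ∧ (i : ℕ) = (p : ℕ) / L % d ∧
      (p : ℕ) % L = 0 ∧
      pr H d R N L v hd p = (Sum.inl (false, co (v a i) false), Sum.inl (true, co (v a i) true))) ∨
    pr H d R N L v hd p = (Sum.inr (Sum.inr none), Sum.inr (Sum.inr (some p))) := by
  unfold pr
  by_cases h : (p : ℕ) / (L * d) < 2 * H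
  · by_cases h1 : (p : ℕ) / (L * d) < H
    · by_cases h2 : (p : ℕ) % L = 0
      · left
        exact ⟨⟨(p : ℕ) / (L * d), h⟩, ⟨(p : ℕ) / L % d, Nat.mod_lt _ hd⟩, false, h1, rfl, rfl,
          by simpa using h2, by rw [dif_pos h, if_pos h1, if_pos h2]⟩
      · by_cases h3 : (p : ℕ) % L = 1
        · left
          exact ⟨⟨(p : ℕ) / (L * d), h⟩, ⟨(p : ℕ) / L % d, Nat.mod_lt _ hd⟩, true, h1, rfl, rfl,
            by simpa using h3, by rw [dif_pos h, if_pos h1, if_neg h2, if_pos h3]⟩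
        · right; right
          rw [dif_pos h, if_pos h1, if_neg h2, if_neg h3]
    · by_cases h2 : (p : ℕ) % L = 0
      · right; left
        exact ⟨⟨(p : ℕ) / (L * d), h⟩, ⟨(p : ℕ) / L % d, Nat.mod_lt _ hd⟩, h1, rfl, rfl, h2,
          by rw [dif_pos h, if_neg h1, if_pos h2]⟩
      · right; right
        rw [dif_pos h, if_neg h1, if_neg h2]
  · right; right
    rw [dif_neg h]

/-- a superset of the adjacency -/
def Ad {H d R N : ℕ} (v : Fin (2 * H) → Fin d → Fin (R * R)) :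
    Vt (2 * H) d R N → Vt (2 * H) d R N → Prop
  | Sum.inl (s, α), Sum.inl (t, β) => s ≠ t ∧ ∃ b : Fin (2 * H), ∃ j, ¬ (b : ℕ) < H ∧
      co (v b j) s = α ∧ co (v b j) t = β
  | Sum.inl (s, α), Sum.inr (Sum.inl (a, i)) => (a : ℕ) < H ∧ co (v a i) s = α
  | Sum.inr (Sum.inl (a, i)), Sum.inl (s, α) => (a : ℕ) < H ∧ co (v a i) s = α
  | Sum.inr (Sum.inr none), Sum.inr (Sum.inr (some _)) => True
  | Sum.inr (Sum.inr (some _)), Sum.inr (Sum.inr none) => True
  | _, _ => False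

theorem Ad_symm {H d R N : ℕ} (v : Fin (2 * H) → Fin d → Fin (R * R)) (x y : Vt (2 * H) d R N)
    (h : Ad v x y) : Ad v y x := by
  rcases x with ⟨s, α⟩ | ⟨a, i⟩ | _ | p <;> rcases y with ⟨t, β⟩ | ⟨b, j⟩ | _ | p' <;>
    simp only [Ad] at h ⊢
  · obtain ⟨h1, b, j, h2, h3, h4⟩ := h
    exact ⟨h1.symm, b, j, h2, h4, h3⟩
  · exact h
  · exact h

theorem Ad_pr (H d R N L : ℕ) (v : Fin (2 * H) → Fin d → Fin (R * R)) (hd : 0 < d)
    (p : Fin N) : Ad v (pr H d R N L v hd p).1 (pr H d R N L v hd p).2 := by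
  rcases pr_cases H d R N L v hd p with ⟨a, i, s, h1, -, -, -, h2⟩ | ⟨a, i, h1, -, -, -, h2⟩ | h2 <;>
    rw [h2]
  · exact ⟨h1, rfl⟩
  · exact ⟨by simp, a, i, h1, rfl, rfl⟩
  · trivial

/-- a triangle gives equal values -/
theorem Ad_tri {H d R N : ℕ} (v : Fin (2 * H) → Fin d → Fin (R * R)) (x y z : Vt (2 * H) d R N)
    (h1 : Ad v x y) (h2 : Ad v y z) (h3 : Ad v x z) :
    ∃ a b : Fin (2 * H), ∃ i j, (a : ℕ) < H ∧ ¬ (b : ℕ) < H ∧ v a i = v b j := by
  have key : ∀ (a b : Fin (2 * H)) (i j : Fin d) (s t : Bool), (a : ℕ) < H → ¬ (b : ℕ) < H →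
      s ≠ t → co (v a i) s = co (v b j) s → co (v a i) t = co (v b j) t →
      ∃ a b : Fin (2 * H), ∃ i j, (a : ℕ) < H ∧ ¬ (b : ℕ) < H ∧ v a i = v b j := by
    intro a b i j s t ha hb hst hs ht
    refine ⟨a, b, i, j, ha, hb, co_ext _ _ ?_⟩
    intro r
    cases s <;> cases t <;> cases r <;> simp_all
  rcases x with ⟨s, α⟩ | ⟨a, i⟩ | _ | p <;> rcases y with ⟨t, β⟩ | ⟨b, j⟩ | _ | p' <;>
    rcases z with ⟨r, γ⟩ | ⟨c, l⟩ | _ | p'' <;>
    simp only [Ad] at h1 h2 h3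
  · exfalso
    obtain ⟨h1, -⟩ := h1
    obtain ⟨h2, -⟩ := h2
    obtain ⟨h3, -⟩ := h3
    cases s <;> cases t <;> cases r <;> simp_all
  · obtain ⟨h1, b, j, h4, h5, h6⟩ := h1
    exact key c b l j s t h2.1 h4 h1 (h3.2.trans h5.symm) (h2.2.trans h6.symm)
  · obtain ⟨h3, c, l, h4, h5, h6⟩ := h3
    exact key b c j l s r h1.1 h4 h3 (h1.2.trans h5.symm) (h2.2.trans h6.symm)
  · obtain ⟨h2, c, l, h4, h5, h6⟩ := h2
    exact key a c i l t r h1.1 h4 h2 (h1.2.trans h5.symm) (h3.2.trans h6.symm)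

/-- the position of the edge -/
theorem pos_lt (H d N L a i o : ℕ) (hN : 2 * H * d * L ≤ N) (ha : a < 2 * H) (hi : i < d)
    (ho : o < L) : (a * d + i) * L + o < N := by
  calc (a * d + i) * L + o < (a * d + i) * L + L := by omega
    _ = (a * d + i + 1) * L := by ring
    _ ≤ (a * d + d) * L := Nat.mul_le_mul_right _ (by omega)
    _ = (a + 1) * d * L := by ring
    _ ≤ 2 * H * d * L := Nat.mul_le_mul_right _ (Nat.mul_le_mul_right _ ha)
    _ ≤ N := hN

theorem pos_div (d L a i o : ℕ) (hi : i < d) (ho : o < L) :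
    ((a * d + i) * L + o) / (L * d) = a ∧ ((a * d + i) * L + o) / L % d = i ∧
      ((a * d + i) * L + o) % L = o := by
  have hL : 0 < L := by omega
  have hd : 0 < d := by omega
  have h1 : ((a * d + i) * L + o) / L = a * d + i := by
    rw [mul_comm, Nat.mul_add_div hL, Nat.div_eq_of_lt ho, add_zero]
  refine ⟨?_, ?_, ?_⟩
  · rw [← Nat.div_div_eq_div_mul, h1, mul_comm, Nat.mul_add_div hd, Nat.div_eq_of_lt hi, add_zero]
  · rw [h1, mul_comm, Nat.mul_add_mod, Nat.mod_eq_of_lt hi]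
  · rw [mul_comm, Nat.mul_add_mod, Nat.mod_eq_of_lt ho]

/-- the edges at the positions of a value -/
theorem pr_left (H d R N L : ℕ) (v : Fin (2 * H) → Fin d → Fin (R * R)) (hd : 0 < d)
    (hN : 2 * H * d * L ≤ N) (hL : 2 ≤ L) (a : Fin (2 * H)) (i : Fin d) (ha : (a : ℕ) < H)
    (s : Bool) : ∃ p, pr H d R N L v hd p =
      (Sum.inr (Sum.inl (a, i)), Sum.inl (s, co (v a i) s)) := by
  have ho : (if s then 1 else 0) < L := by split_ifs <;> omega
  refine ⟨⟨_, pos_lt H d N L a i (if s then 1 else 0) hN a.2 i.2 ho⟩, ?_⟩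
  obtain ⟨e1, e2, e3⟩ := pos_div d L a i (if s then 1 else 0) i.2 ho
  unfold pr
  simp only [e1, e2, e3]
  rw [dif_pos a.2, if_pos ha]
  cases s <;> simp

theorem pr_right (H d R N L : ℕ) (v : Fin (2 * H) → Fin d → Fin (R * R)) (hd : 0 < d)
    (hN : 2 * H * d * L ≤ N) (hL : 2 ≤ L) (a : Fin (2 * H)) (i : Fin d) (ha : ¬ (a : ℕ) < H) :
    ∃ p, pr H d R N L v hd p =
      (Sum.inl (false, co (v a i) false), Sum.inl (true, co (v a i) true)) := by
  have ho : 0 < L := by omega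
  refine ⟨⟨_, pos_lt H d N L a i 0 hN a.2 i.2 ho⟩, ?_⟩
  obtain ⟨e1, e2, e3⟩ := pos_div d L a i 0 i.2 ho
  unfold pr
  simp only [e1, e2, e3]
  rw [dif_pos a.2, if_neg ha]
  simp

/-- the edges are different -/
theorem pr_inj (H d R N L : ℕ) (v : Fin (2 * H) → Fin d → Fin (R * R)) (hd : 0 < d)
    (hv : ∀ a b : Fin (2 * H), ¬ (a : ℕ) < H → ¬ (b : ℕ) < H → ∀ i j, v a i = v b j →
      a = b ∧ i = j) (p q : Fin N)
    (h : (pr H d R N L v hd p = pr H d R N L v hd q) ∨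
      (pr H d R N L v hd p = (pr H d R N L v hd q).swap)) : p = q := by
  have hpq : ∀ a i o : ℕ, (a = (p : ℕ) / (L * d)) → (i = (p : ℕ) / L % d) → ((p : ℕ) % L = o) →
      (a = (q : ℕ) / (L * d)) → (i = (q : ℕ) / L % d) → ((q : ℕ) % L = o) → p = q := by
    intro a i o h1 h2 h3 h4 h5 h6
    apply Fin.ext
    have e1 := Nat.div_add_mod (p : ℕ) L
    have e2 := Nat.div_add_mod (q : ℕ) L
    have e3 := Nat.div_add_mod ((p : ℕ) / L) d
    have e4 := Nat.div_add_mod ((q : ℕ) / L) d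
    rw [Nat.div_div_eq_div_mul] at e3 e4
    rw [← h1, ← h2] at e3
    rw [← h4, ← h5] at e4
    rw [← e1, ← e2, h3, h6, ← e3, ← e4]
  rcases pr_cases H d R N L v hd p with ⟨a, i, s, h1, h2, h3, h4, h5⟩ | ⟨a, i, h1, h2, h3, h4, h5⟩ | h5 <;>
  rcases pr_cases H d R N L v hd q with ⟨b, j, t, k1, k2, k3, k4, k5⟩ | ⟨b, j, k1, k2, k3, k4, k5⟩ | k5 <;>
    rw [h5, k5] at h
  · simp only [Prod.mk.injEq, Sum.inr.injEq, Sum.inl.injEq, Prod.swap_prod_mk, reduceCtorEq,
      and_false, or_false, false_and] at h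
    obtain ⟨⟨rfl, rfl⟩, rfl, -⟩ := h
    exact hpq a i (if s then 1 else 0) h2 h3 h4 k2 k3 k4
  · simp at h
  · simp at h
  · simp at h
  · simp only [Prod.mk.injEq, Sum.inl.injEq, Prod.swap_prod_mk, true_and, reduceCtorEq,
      false_and, or_false, Bool.false_eq_true, Bool.true_eq_false] at h
    have hab : v a i = v b j := by
      apply co_ext
      intro s
      cases s
      · exact h.1
      · exact h.2
    obtain ⟨rfl, rfl⟩ := hv a b h1 k1 i j hab
    exact hpq a i 0 h2 h3 h4 k2 k3 k4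
  · simp at h
  · simp at h
  · simp at h
  · simpa using h

end Pool.Agent.R562.Ht
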