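import Pool.Agent.R562.HtN
import Pool.Agent.R562.HtR
import Pool.Agent.R562.TLWord
import Pool.Agent.R562.ETMain

/-!
# Triangles in lists of edges and slow heads
-/

set_option autoImplicit false

open Finset

namespace Pool.Agent.R562.Ht

open Pool.Agent.TH457.HT

theorem Ad_ne {H d R N : ℕ} (v : Fin (2 * H) → Fin d → Fin (R * R)) (x y : Vt (2 * H) d R N)
    (h : Ad v x y) : x ≠ y := by
  rintro rfl
  rcases x with ⟨s, α⟩ | ⟨a, i⟩ | _ | p <;> simp only [Ad] at h
  exact h.1 rfl

/-- the word of a family -/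
def WT {V H d R N : ℕ} (ι : Vt (2 * H) d R N ↪ Fin V) (L : ℕ)
    (v : Fin (2 * H) → Fin d → Fin (R * R)) (hd : 0 < d) (p : Fin N) : Sym2 (Fin V) :=
  s(ι (pr H d R N L v hd p).1, ι (pr H d R N L v hd p).2)

/-- the graph of a family -/
def GT {V H d R N : ℕ} (ι : Vt (2 * H) d R N ↪ Fin V) (L : ℕ)
    (v : Fin (2 * H) → Fin d → Fin (R * R)) (hd : 0 < d) : SimpleGraph (Fin V) :=
  SimpleGraph.fromEdgeSet (Set.range (WT ι L v hd))

variable {V H d R N : ℕ} (ι : Vt (2 * H) d R N ↪ Fin V) (L : ℕ)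
  (v : Fin (2 * H) → Fin d → Fin (R * R)) (hd : 0 < d)

include ι in
theorem GT_edgeList
    (hv : ∀ a b : Fin (2 * H), ¬ (a : ℕ) < H → ¬ (b : ℕ) < H → ∀ i j, v a i = v b j →
      a = b ∧ i = j) : EdgeList (GT ι L v hd) (WT ι L v hd) := by
  constructor
  · intro p q hpq
    apply pr_inj H d R N L v hd hv p q
    unfold WT at hpq
    rw [Sym2.eq_iff] at hpq
    rcases hpq with ⟨h1, h2⟩ | ⟨h1, h2⟩
    · left; exact Prod.ext (ι.injective h1) (ι.injective h2)
    · right; exact Prod.ext (ι.injective h1) (ι.injective h2)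
  · unfold GT
    rw [SimpleGraph.edgeSet_fromEdgeSet]
    ext s
    constructor
    · rintro ⟨p, rfl⟩
      refine ⟨⟨p, rfl⟩, ?_⟩
      intro hdiag
      unfold WT at hdiag
      exact Ad_ne v _ _ (Ad_pr H d R N L v hd p) (ι.injective hdiag)
    · rintro ⟨h, -⟩
      exact h

theorem GT_adj (x y : Fin V) (h : (GT ι L v hd).Adj x y) :
    ∃ x' y', x = ι x' ∧ y = ι y' ∧ Ad v x' y' := by
  unfold GT at h
  rw [SimpleGraph.fromEdgeSet_adj] at h
  obtain ⟨⟨p, hp⟩, -⟩ := h
  unfold WT at hp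
  rw [Sym2.eq_iff] at hp
  have hA := Ad_pr H d R N L v hd p
  rcases hp with ⟨h1, h2⟩ | ⟨h1, h2⟩
  · exact ⟨_, _, h1.symm, h2.symm, hA⟩
  · exact ⟨_, _, h2.symm, h1.symm, Ad_symm v _ _ hA⟩

theorem GT_free (h : ∀ a b : Fin (2 * H), ∀ i j, (a : ℕ) < H → ¬ (b : ℕ) < H → v a i ≠ v b j) :
    (GT ι L v hd).CliqueFree 3 := by
  intro s hs
  rw [SimpleGraph.is3Clique_iff] at hs
  obtain ⟨x, y, z, h1, h2, h3, -⟩ := hs
  obtain ⟨x1, y1, rfl, rfl, h4⟩ := GT_adj ι L v hd _ _ h1
  obtain ⟨x2, z1, e1, rfl, h5⟩ := GT_adj ι L v hd _ _ h2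
  obtain ⟨y2, z2, e2, e3, h6⟩ := GT_adj ι L v hd _ _ h3
  obtain rfl := ι.injective e1
  obtain rfl := ι.injective e2
  obtain rfl := ι.injective e3
  obtain ⟨a, b, i, j, ha, hb, hab⟩ := Ad_tri v _ _ _ h4 h6 h5
  exact h a b i j ha hb hab

theorem GT_adj_of (x y : Vt (2 * H) d R N) (hne : x ≠ y) (h : ∃ p, pr H d R N L v hd p = (x, y)) :
    (GT ι L v hd).Adj (ι x) (ι y) := by
  obtain ⟨p, hp⟩ := h
  unfold GT
  rw [SimpleGraph.fromEdgeSet_adj]
  refine ⟨⟨p, ?_⟩, fun h => hne (ι.injective h)⟩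
  unfold WT
  rw [hp]

theorem GT_not_free (hN : 2 * H * d * L ≤ N) (hL : 2 ≤ L) (a b : Fin (2 * H)) (i j : Fin d)
    (ha : (a : ℕ) < H) (hb : ¬ (b : ℕ) < H) (hab : v a i = v b j) :
    ¬ (GT ι L v hd).CliqueFree 3 := by
  intro hfree
  have h1 := GT_adj_of ι L v hd _ _ (by simp) (pr_left H d R N L v hd hN hL a i ha false)
  have h2 := GT_adj_of ι L v hd _ _ (by simp) (pr_left H d R N L v hd hN hL a i ha true)
  have h3 := GT_adj_of ι L v hd _ _ (by simp) (pr_right H d R N L v hd hN hL b j hb)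
  rw [← hab] at h3
  exact hfree _ (SimpleGraph.is3Clique_iff.mpr ⟨_, _, _, h1, h2, h3, rfl⟩)

theorem WT_local (v' : Fin (2 * H) → Fin d → Fin (R * R)) (p : Fin N)
    (hv : ∀ h : (p : ℕ) / (L * d) < 2 * H,
      v ⟨(p : ℕ) / (L * d), h⟩ = v' ⟨(p : ℕ) / (L * d), h⟩) :
    WT ι L v hd p = WT ι L v' hd p := by
  have h1 : pr H d R N L v hd p = pr H d R N L v' hd p := by
    unfold pr
    by_cases h : (p : ℕ) / (L * d) < 2 * H
    · rw [dif_pos h, dif_pos h, hv h]
    · rw [dif_neg h, dif_neg h]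
  unfold WT
  rw [h1]

/-- all pairs of different places -/
def Eall (H d : ℕ) : Finset ((Fin (2 * H) × Fin d) × (Fin (2 * H) × Fin d)) :=
  univ.filter (fun e => e.1 ≠ e.2)

/-- the families of different values -/
def GI (H d U : ℕ) : Finset (Fin (2 * H) → Fin d → Fin U) :=
  univ.filter (fun v => ∀ e ∈ Eall H d, v e.1.1 e.1.2 ≠ v e.2.1 e.2.2)

theorem mem_GI {H d U : ℕ} {v : Fin (2 * H) → Fin d → Fin U} (hv : v ∈ GI H d U)
    (a b : Fin (2 * H)) (i j : Fin d) (h : v a i = v b j) : a = b ∧ i = j := by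
  by_contra hne
  refine (mem_filter.mp hv).2 ((a, i), (b, j)) (mem_filter.mpr ⟨mem_univ _, ?_⟩) h
  intro he
  exact hne (Prod.ext_iff.mp he)

theorem GI_card (H d : ℕ) (hH : 0 < H) (hd : 0 < d) :
    8192 * ((91 * (2 * H * d)) * (91 * (2 * H * d))) ^ (d * (2 * H)) ≤
      8193 * (GI H d ((91 * (2 * H * d)) * (91 * (2 * H * d)))).card := by
  have hB : 0 < 2 * H * d := by positivity
  apply card_good (Eall H d) (fun e he => (mem_filter.mp he).2)
  · have h1 : (Eall H d).card ≤ (2 * H * d) * (2 * H * d) := by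
      refine (card_filter_le _ _).trans ?_
      simp only [card_univ, Fintype.card_prod, Fintype.card_fin, le_refl]
    calc 8193 * (Eall H d).card ≤ 8281 * ((2 * H * d) * (2 * H * d)) :=
          Nat.mul_le_mul (by norm_num) h1
      _ = (91 * (2 * H * d)) * (91 * (2 * H * d)) := by ring
  · positivity
  · intro v hv
    exact mem_filter.mpr ⟨mem_univ _, hv⟩

/-- the vertices fit -/
theorem exists_emb (V H d N : ℕ) (hH : 0 < H) (hd : 0 < d) (hN : 2 * H * d * 200 ≤ N)
    (hV : 2 * N ≤ V) : Nonempty (Vt (2 * H) d (91 * (2 * H * d)) N ↪ Fin V) := by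
  apply Function.Embedding.nonempty_of_card_le
  rw [card_Vt, Fintype.card_fin]
  have hB : 0 < 2 * H * d := by positivity
  omega

open Classical in
/-- **Triangles in lists of edges and randomized slow heads.** -/
theorem tl_rand (V N : ℕ) (hV : 2 * N ≤ V) {k : ℕ} {Ω : Type} [Fintype Ω] (p : Ω → ℝ)
    (hp : ∀ ω, 0 ≤ p ω)
    (hp1 : ∑ ω, p ω = 1) (P : Ω → DetProg (Sym2 (Fin V)) N k) (T S : ℕ) (hk : 1 ≤ k)
    (hS : ∀ ω, Fintype.card (P ω).Q * N ^ k ≤ 2 ^ S)
    (h : ∀ (G : SimpleGraph (Fin V)) (e : Fin N → Sym2 (Fin V)), EdgeList G e →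
      1 - 1 / 20000 ≤ prob p P T e (decide (¬ G.CliqueFree 3))) :
    N ^ 3 ≤ 10 ^ 9 * (k * (S + 1) * (k * T + N) ^ 2) := by
  rcases Nat.eq_zero_or_pos N with h0 | hN0
  · subst h0; simp
  by_contra hcon
  push Not at hcon
  obtain ⟨q, H, hq, hN, hK2, hK1⟩ := paramsL N k T S 200 hN0 hk (by norm_num) (by omega)
  obtain ⟨d, hd⟩ : ∃ d, d = 2700 * (q * (S + 1)) := ⟨_, rfl⟩
  rw [← hd] at hN hK1
  have hH0 : 0 < H := by
    have : 0 < 12 * k * (61 * q) := by positivity
    omega
  have hd0 : 0 < d := by rw [hd]; positivity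
  obtain ⟨ι⟩ := exists_emb V H d N hH0 hd0 hN hV
  have hB : 0 < 2 * H * d := by positivity
  have hU0 : 0 < (91 * (2 * H * d)) * (91 * (2 * H * d)) := by positivity
  have hfin := engineRLR p hp hp1 (fun ω => (P ω).flip) (200 * d) (2 * H) d _ T
    (61 * q) (S + 1) (by positivity) hd0 hU0 (Lf H) (Rt H) (disj H) (by rw [card_Lf]; exact hH0)
    (fun v => WT ι 200 v hd0) (fun v v' p hv => WT_local ι 200 v hd0 v' p hv)
    (GI H d _) (GI_card H d hH0 hd0)
    (by
      intro v hv
      rw [prob_flip]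
      have h1 := h _ _ (GT_edgeList ι 200 v hd0 (fun a b _ _ i j => mem_GI hv a b i j))
      have h2 : ¬ ¬ (GT ι 200 v hd0).CliqueFree 3 := by
        rw [not_not]
        apply GT_free
        intro a b i j ha hb hab
        have := (mem_GI hv a b i j hab).1
        rw [this] at ha
        exact hb ha
      rw [decide_eq_false h2] at h1
      exact h1)
    (by
      intro v hv a ha b hb i
      rw [prob_flip]
      have ha' : (a : ℕ) < H := (mem_filter.mp ha).2
      have hb' : ¬ (b : ℕ) < H := (mem_filter.mp hb).2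
      have hab : a ≠ b := by
        rintro rfl
        exact hb' ha'
      have hval : ∀ (c : Fin (2 * H)) (j : Fin d), ¬ (c : ℕ) < H → TT a b i i v c j
          = if c = b ∧ j = i then v a i else v c j := by
        intro c j hc
        unfold TT
        by_cases h1 : c = b
        · subst h1
          rw [Function.update_self]
          by_cases h2 : j = i
          · subst h2; simp
          · rw [Function.update_of_ne h2]; simp [h2]
        · rw [Function.update_of_ne h1]; simp [h1]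
      have hinj : ∀ c c' : Fin (2 * H), ¬ (c : ℕ) < H → ¬ (c' : ℕ) < H → ∀ j j',
          TT a b i i v c j = TT a b i i v c' j' → c = c' ∧ j = j' := by
        intro c c' hc hc' j j' he
        rw [hval c j hc, hval c' j' hc'] at he
        by_cases h1 : c = b ∧ j = i
        · by_cases h2 : c' = b ∧ j' = i
          · exact ⟨h1.1.trans h2.1.symm, h1.2.trans h2.2.symm⟩
          · rw [if_pos h1, if_neg h2] at he
            have := (mem_GI hv _ _ _ _ he).1
            rw [this] at ha'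
            exact absurd ha' hc'
        · by_cases h2 : c' = b ∧ j' = i
          · rw [if_neg h1, if_pos h2] at he
            have := (mem_GI hv _ _ _ _ he).1
            rw [← this] at ha'
            exact absurd ha' hc
          · rw [if_neg h1, if_neg h2] at he
            exact mem_GI hv _ _ _ _ he
      have h1 := h _ _ (GT_edgeList ι 200 (TT a b i i v) hd0 hinj)
      have h2 := GT_not_free ι 200 (TT a b i i v) hd0 hN (by norm_num) a b i i ha' hb' (by
        unfold TT
        rw [Function.update_self, Function.update_of_ne hab, Function.update_self])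
      rw [decide_eq_true h2] at h1
      exact h1)
    (by rw [card_Rt]; exact hK1) (by rw [card_Lf]; exact hK2)
    (by
      intro ω
      rw [Fintype.card_prod, Fintype.card_fun, Fintype.card_fin, Fintype.card_fin, pow_succ]
      have h1 := hS ω
      have h2 : Fintype.card ((P ω).flip).Q = Fintype.card (P ω).Q := rfl
      have : 1 ≤ 2 ^ S := Nat.one_le_two_pow
      rw [h2]
      omega)
  have h9 : 42 * (61 * q * (S + 1)) = 2562 * (q * (S + 1)) := by ring
  have h11 : 1 ≤ q * (S + 1) := Nat.one_le_iff_ne_zero.mpr (by positivity)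
  omega

/-- **Triangles in lists of edges and nondeterministic slow heads.** -/
theorem tl_nd (V N : ℕ) (hV : 2 * N ≤ V) {k : ℕ} (P : HeadProg (Sym2 (Fin V)) N k) (T S : ℕ)
    (hk : 1 ≤ k) (hS : Fintype.card P.Q * N ^ k ≤ 2 ^ S)
    (hsound : ∀ (G : SimpleGraph (Fin V)) (e : Fin N → Sym2 (Fin V)), EdgeList G e →
      P.Accepts e → G.CliqueFree 3)
    (hacc : ∀ (G : SimpleGraph (Fin V)) (e : Fin N → Sym2 (Fin V)), EdgeList G e →
      G.CliqueFree 3 → P.AcceptsIn T e) :
    N ^ 3 ≤ 10 ^ 9 * (k * (S + 1) * (k * T + N) ^ 2) := by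
  rcases Nat.eq_zero_or_pos N with h0 | hN0
  · subst h0; simp
  by_contra hcon
  push Not at hcon
  obtain ⟨q, H, hq, hN, hK2, hK1⟩ := paramsL N k T S 200 hN0 hk (by norm_num) (by omega)
  obtain ⟨d, hd⟩ : ∃ d, d = 2700 * (q * (S + 1)) := ⟨_, rfl⟩
  rw [← hd] at hN hK1
  have hH0 : 0 < H := by
    have : 0 < 12 * k * (61 * q) := by positivity
    omega
  have hd0 : 0 < d := by rw [hd]; positivity
  obtain ⟨ι⟩ := exists_emb V H d N hH0 hd0 hN hV
  have hB : 0 < 2 * H * d := by positivity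
  have hU0 : 0 < (91 * (2 * H * d)) * (91 * (2 * H * d)) := by positivity
  have hfin := engineLR P (200 * d) (2 * H) d _ T (S + 1)
    (61 * q) (by positivity) (Lf H) (Rt H) (disj H)
    (fun v => WT ι 200 v hd0) (fun v v' p hv => WT_local ι 200 v hd0 v' p hv)
    (GI H d _) (card_good2 _ (GI_card H d hH0 hd0))
    (by
      intro v hv
      apply hacc _ _ (GT_edgeList ι 200 v hd0 (fun a b _ _ i j => mem_GI hv a b i j))
      apply GT_free
      intro a b i j ha hb hab
      have := (mem_GI hv a b i j hab).1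
      rw [this] at ha
      exact hb ha)
    (by
      intro x hx y hy a ha b hb hrest hP i hxy
      have ha' : (a : ℕ) < H := (mem_filter.mp ha).2
      have hb' : ¬ (b : ℕ) < H := (mem_filter.mp hb).2
      have hab : a ≠ b := by
        rintro rfl
        exact hb' ha'
      have hval : ∀ c : Fin (2 * H), ¬ (c : ℕ) < H → Function.update x b (y b) c = y c := by
        intro c hc
        by_cases h1 : c = b
        · rw [h1, Function.update_self]
        · rw [Function.update_of_ne h1]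
          exact hrest c (by rintro rfl; exact hc ha') h1
      have hel := GT_edgeList ι 200 (Function.update x b (y b)) hd0 (by
        intro c c' hc hc' j j' he
        rw [hval c hc, hval c' hc'] at he
        exact mem_GI hy _ _ _ _ he)
      exact GT_not_free ι 200 (Function.update x b (y b)) hd0 hN (by norm_num) a b i i ha' hb'
        (by rw [Function.update_self, Function.update_of_ne hab, hxy]) (hsound _ _ hel hP))
    hU0 (by rw [card_Lf]; exact hH0)
    (by rw [card_Rt]; exact hK1) (by rw [card_Lf]; exact hK2)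
    (by
      rw [Fintype.card_prod, Fintype.card_fun, Fintype.card_fin, Fintype.card_fin, pow_succ]
      have : 1 ≤ 2 ^ S := Nat.one_le_two_pow
      omega)
  have h9 : (S + 1) * (61 * q + 1) ≤ 62 * (q * (S + 1)) := by
    calc (S + 1) * (61 * q + 1) ≤ (S + 1) * (62 * q) := Nat.mul_le_mul_left _ (by omega)
      _ = 62 * (q * (S + 1)) := by ring
  have h11 : 1 ≤ q * (S + 1) := Nat.one_le_iff_ne_zero.mpr (by positivity)
  omega

end Pool.Agent.R562.Ht
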