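import Pool.Agent.R562.HtN
import Pool.Agent.R562.HtZ
import Pool.Agent.R562.S3Defs
import Pool.Agent.R562.TLMain

/-!
# 3SUM with `a + b = c` and slow heads
-/

set_option autoImplicit false

open Finset

namespace Pool.Agent.R562.Ht

open Pool.Agent.TH457.HT

variable {n H d U : ℕ}

/-- the list of a family -/
def xw (n : ℕ) (v : Fin (2 * H) → Fin d → Fin U) (hd : 0 < d) (p : Fin n) : ℤ :=
  if h : (p : ℕ) / (2 * d) < 2 * H ∧ (p : ℕ) % 2 = 0 then
    (if (p : ℕ) / (2 * d) < H then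
      16 * (v ⟨(p : ℕ) / (2 * d), h.1⟩ ⟨(p : ℕ) / 2 % d, Nat.mod_lt _ hd⟩ : ℕ) + 4
    else 16 * (v ⟨(p : ℕ) / (2 * d), h.1⟩ ⟨(p : ℕ) / 2 % d, Nat.mod_lt _ hd⟩ : ℕ) + 5 : ℕ)
  else if (p : ℕ) = 1 then 1 else (16 * (p : ℕ) + 7 : ℕ)

theorem xw_cases (v : Fin (2 * H) → Fin d → Fin U) (hd : 0 < d) (p : Fin n) :
    (∃ (a : Fin (2 * H)) (i : Fin d), (a : ℕ) < H ∧ (a : ℕ) = (p : ℕ) / (2 * d) ∧
      (i : ℕ) = (p : ℕ) / 2 % d ∧ (p : ℕ) % 2 = 0 ∧
      xw n v hd p = (16 * (v a i : ℕ) + 4 : ℕ)) ∨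
    (∃ (a : Fin (2 * H)) (i : Fin d), ¬ (a : ℕ) < H ∧ (a : ℕ) = (p : ℕ) / (2 * d) ∧
      (i : ℕ) = (p : ℕ) / 2 % d ∧ (p : ℕ) % 2 = 0 ∧
      xw n v hd p = (16 * (v a i : ℕ) + 5 : ℕ)) ∨
    ((p : ℕ) = 1 ∧ xw n v hd p = 1) ∨ (xw n v hd p = (16 * (p : ℕ) + 7 : ℕ)) := by
  unfold xw
  by_cases h : (p : ℕ) / (2 * d) < 2 * H ∧ (p : ℕ) % 2 = 0
  · by_cases h1 : (p : ℕ) / (2 * d) < H
    · left
      exact ⟨⟨(p : ℕ) / (2 * d), h.1⟩, ⟨(p : ℕ) / 2 % d, Nat.mod_lt _ hd⟩, h1, rfl, rfl, h.2,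
        by rw [dif_pos h, if_pos h1]⟩
    · right; left
      exact ⟨⟨(p : ℕ) / (2 * d), h.1⟩, ⟨(p : ℕ) / 2 % d, Nat.mod_lt _ hd⟩, h1, rfl, rfl, h.2,
        by rw [dif_pos h, if_neg h1]⟩
  · right; right
    by_cases h1 : (p : ℕ) = 1
    · left; exact ⟨h1, by rw [dif_neg h, if_pos h1]⟩
    · right; rw [dif_neg h, if_neg h1]

theorem xw_inj (v : Fin (2 * H) → Fin d → Fin U) (hd : 0 < d)
    (hl : ∀ a b : Fin (2 * H), (a : ℕ) < H → (b : ℕ) < H → ∀ i j, v a i = v b j →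
      a = b ∧ i = j)
    (hr : ∀ a b : Fin (2 * H), ¬ (a : ℕ) < H → ¬ (b : ℕ) < H → ∀ i j, v a i = v b j →
      a = b ∧ i = j) : Function.Injective (xw n v hd) := by
  intro p q hpq
  have hpq' : ∀ a i : ℕ, (a = (p : ℕ) / (2 * d)) → (i = (p : ℕ) / 2 % d) → ((p : ℕ) % 2 = 0) →
      (a = (q : ℕ) / (2 * d)) → (i = (q : ℕ) / 2 % d) → ((q : ℕ) % 2 = 0) → p = q := by
    intro a i h1 h2 h3 h4 h5 h6
    apply Fin.ext
    have e1 := Nat.div_add_mod (p : ℕ) 2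
    have e2 := Nat.div_add_mod (q : ℕ) 2
    have e3 := Nat.div_add_mod ((p : ℕ) / 2) d
    have e4 := Nat.div_add_mod ((q : ℕ) / 2) d
    rw [Nat.div_div_eq_div_mul] at e3 e4
    rw [← h1, ← h2] at e3
    rw [← h4, ← h5] at e4
    rw [← e1, ← e2, h3, h6, ← e3, ← e4]
  have hL : ∀ (a b : Fin (2 * H)) (i j : Fin d), (a : ℕ) < H → (b : ℕ) < H →
      (v a i : ℕ) = v b j → (a : ℕ) = (p : ℕ) / (2 * d) → (i : ℕ) = (p : ℕ) / 2 % d →
      (p : ℕ) % 2 = 0 → (b : ℕ) = (q : ℕ) / (2 * d) → (j : ℕ) = (q : ℕ) / 2 % d →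
      (q : ℕ) % 2 = 0 → p = q := by
    intro a b i j h1 k1 he h2 h3 h4 k2 k3 k4
    obtain ⟨rfl, rfl⟩ := hl a b h1 k1 i j (Fin.ext he)
    exact hpq' a i h2 h3 h4 k2 k3 k4
  have hR : ∀ (a b : Fin (2 * H)) (i j : Fin d), ¬ (a : ℕ) < H → ¬ (b : ℕ) < H →
      (v a i : ℕ) = v b j → (a : ℕ) = (p : ℕ) / (2 * d) → (i : ℕ) = (p : ℕ) / 2 % d →
      (p : ℕ) % 2 = 0 → (b : ℕ) = (q : ℕ) / (2 * d) → (j : ℕ) = (q : ℕ) / 2 % d →
      (q : ℕ) % 2 = 0 → p = q := by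
    intro a b i j h1 k1 he h2 h3 h4 k2 k3 k4
    obtain ⟨rfl, rfl⟩ := hr a b h1 k1 i j (Fin.ext he)
    exact hpq' a i h2 h3 h4 k2 k3 k4
  rcases xw_cases v hd p with ⟨a, i, h1, h2, h3, h4, h5⟩ | ⟨a, i, h1, h2, h3, h4, h5⟩ | ⟨h4, h5⟩ | h5 <;>
  rcases xw_cases v hd q with ⟨b, j, k1, k2, k3, k4, k5⟩ | ⟨b, j, k1, k2, k3, k4, k5⟩ | ⟨k4, k5⟩ | k5 <;>
    rw [h5, k5] at hpq <;> first
  | (exfalso; omega)
  | (apply Fin.ext; omega)
  | exact hL a b i j h1 k1 (by omega) h2 h3 h4 k2 k3 k4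
  | exact hR a b i j h1 k1 (by omega) h2 h3 h4 k2 k3 k4

theorem xw_none (v : Fin (2 * H) → Fin d → Fin U) (hd : 0 < d)
    (h : ∀ a b : Fin (2 * H), ∀ i j, (a : ℕ) < H → ¬ (b : ℕ) < H → v a i ≠ v b j) :
    ¬ HasSum3 (xw n v hd) := by
  rintro ⟨p, q, r, hpq, hpr, hqr, he⟩
  rcases xw_cases v hd p with ⟨a, i, h1, h2, h3, h4, h5⟩ | ⟨a, i, h1, h2, h3, h4, h5⟩ | ⟨h4, h5⟩ | h5 <;>
  rcases xw_cases v hd q with ⟨b, j, k1, k2, k3, k4, k5⟩ | ⟨b, j, k1, k2, k3, k4, k5⟩ | ⟨k4, k5⟩ | k5 <;>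
  rcases xw_cases v hd r with ⟨c, l, m1, m2, m3, m4, m5⟩ | ⟨c, l, m1, m2, m3, m4, m5⟩ | ⟨m4, m5⟩ | m5 <;>
    rw [h5, k5, m5] at he <;> first
  | (exfalso; omega)
  | exact absurd (Fin.ext (h4.trans k4.symm)) hpq
  | exact h a c i l h1 m1 (Fin.ext (by omega))
  | exact h b c j l k1 m1 (Fin.ext (by omega))

theorem xw_left (v : Fin (2 * H) → Fin d → Fin U) (hd : 0 < d) (hN : 2 * H * d * 2 ≤ n)
    (a : Fin (2 * H)) (i : Fin d) (ha : (a : ℕ) < H) :
    ∃ p : Fin n, (p : ℕ) % 2 = 0 ∧ xw n v hd p = (16 * (v a i : ℕ) + 4 : ℕ) := by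
  have hlt := pos_lt H d n 2 a i 0 hN a.2 i.2 (by norm_num)
  obtain ⟨e1, e2, e3⟩ := pos_div d 2 a i 0 i.2 (by norm_num)
  refine ⟨⟨_, hlt⟩, e3, ?_⟩
  unfold xw
  simp only [e1, e2, e3]
  rw [dif_pos ⟨a.2, trivial⟩, if_pos ha]

theorem xw_right (v : Fin (2 * H) → Fin d → Fin U) (hd : 0 < d) (hN : 2 * H * d * 2 ≤ n)
    (a : Fin (2 * H)) (i : Fin d) (ha : ¬ (a : ℕ) < H) :
    ∃ p : Fin n, (p : ℕ) % 2 = 0 ∧ xw n v hd p = (16 * (v a i : ℕ) + 5 : ℕ) := by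
  have hlt := pos_lt H d n 2 a i 0 hN a.2 i.2 (by norm_num)
  obtain ⟨e1, e2, e3⟩ := pos_div d 2 a i 0 i.2 (by norm_num)
  refine ⟨⟨_, hlt⟩, e3, ?_⟩
  unfold xw
  simp only [e1, e2, e3]
  rw [dif_pos ⟨a.2, trivial⟩, if_neg ha]

theorem xw_some (v : Fin (2 * H) → Fin d → Fin U) (hd : 0 < d) (hN : 2 * H * d * 2 ≤ n)
    (hn : 2 ≤ n) (a b : Fin (2 * H)) (i j : Fin d) (ha : (a : ℕ) < H) (hb : ¬ (b : ℕ) < H)
    (hab : v a i = v b j) : HasSum3 (xw n v hd) := by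
  obtain ⟨p, hp, h1⟩ := xw_left v hd hN a i ha
  obtain ⟨r, hr, h2⟩ := xw_right v hd hN b j hb
  obtain ⟨q, hq⟩ : ∃ q : Fin n, (q : ℕ) = 1 := ⟨⟨1, by omega⟩, rfl⟩
  have h3 : xw n v hd q = 1 := by
    unfold xw
    rw [dif_neg (by rintro ⟨-, h⟩; omega), if_pos hq]
  refine ⟨p, q, r, ?_, ?_, ?_, ?_⟩
  · rintro rfl; omega
  · rintro rfl; rw [h1] at h2; omega
  · rintro rfl; omega
  · rw [h1, h2, h3, hab]; push_cast; ring

theorem xw_local (v v' : Fin (2 * H) → Fin d → Fin U) (hd : 0 < d) (p : Fin n)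
    (hv : ∀ h : (p : ℕ) / (2 * d) < 2 * H,
      v ⟨(p : ℕ) / (2 * d), h⟩ = v' ⟨(p : ℕ) / (2 * d), h⟩) : xw n v hd p = xw n v' hd p := by
  unfold xw
  by_cases h : (p : ℕ) / (2 * d) < 2 * H ∧ (p : ℕ) % 2 = 0
  · rw [dif_pos h, dif_pos h, hv h.1]
  · rw [dif_neg h, dif_neg h]

theorem xw_abs (v : Fin (2 * H) → Fin d → Fin U) (hd : 0 < d) (p : Fin n)
    (hU : 16 * U + 5 ≤ n ^ 3) (hn : 5 ≤ n) : |xw n v hd p| ≤ (n : ℤ) ^ 3 := by
  have hp := p.2
  have h3 : 16 * n + 7 ≤ n ^ 3 := by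
    have : 25 * n ≤ n ^ 3 := by
      calc 25 * n = 5 ^ 2 * n := by norm_num
        _ ≤ n ^ 2 * n := by gcongr
        _ = n ^ 3 := by ring
    omega
  have key : ∀ z : ℕ, z ≤ n ^ 3 → |(z : ℤ)| ≤ (n : ℤ) ^ 3 := by
    intro z hz
    rw [Nat.abs_cast]; exact_mod_cast hz
  rcases xw_cases v hd p with ⟨a, i, -, -, -, -, h5⟩ | ⟨a, i, -, -, -, -, h5⟩ | ⟨h4, h5⟩ | h5 <;>
    rw [h5]
  · have := (v a i).2
    exact key _ (by omega)
  · have := (v a i).2
    exact key _ (by omega)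
  · have := key 1 (by omega)
    simpa using this
  · exact key _ (by omega)

theorem TT_right (v : Fin (2 * H) → Fin d → Fin U) (hv : v ∈ GI H d U) (a b : Fin (2 * H))
    (ha' : (a : ℕ) < H) (hb' : ¬ (b : ℕ) < H) (i : Fin d) :
    ∀ c c' : Fin (2 * H), ¬ (c : ℕ) < H → ¬ (c' : ℕ) < H → ∀ j j',
      TT a b i i v c j = TT a b i i v c' j' → c = c' ∧ j = j' := by
  have hval : ∀ (c : Fin (2 * H)) (j : Fin d), ¬ (c : ℕ) < H → TT a b i i v c j
      = if c = b ∧ j = i then v a i else v c j := by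
    intro c j hc
    unfold TT
    by_cases h1 : c = b
    · subst h1
      rw [Function.update_self]
      by_cases h2 : j = i
      · subst h2; simp
      · rw [Function.update_of_ne h2]; simp [h2]
    · rw [Function.update_of_ne h1]; simp [h1]
  intro c c' hc hc' j j' he
  rw [hval c j hc, hval c' j' hc'] at he
  by_cases h1 : c = b ∧ j = i
  · by_cases h2 : c' = b ∧ j' = i
    · exact ⟨h1.1.trans h2.1.symm, h1.2.trans h2.2.symm⟩
    · rw [if_pos h1, if_neg h2] at he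
      have := (mem_GI hv _ _ _ _ he).1
      rw [this] at ha'
      exact absurd ha' hc'
  · by_cases h2 : c' = b ∧ j' = i
    · rw [if_neg h1, if_pos h2] at he
      have := (mem_GI hv _ _ _ _ he).1
      rw [← this] at ha'
      exact absurd ha' hc
    · rw [if_neg h1, if_neg h2] at he
      exact mem_GI hv _ _ _ _ he

theorem TT_left (v : Fin (2 * H) → Fin d → Fin U) (hv : v ∈ GI H d U) (a b : Fin (2 * H))
    (hb' : ¬ (b : ℕ) < H) (i : Fin d) :
    ∀ c c' : Fin (2 * H), (c : ℕ) < H → (c' : ℕ) < H → ∀ j j',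
      TT a b i i v c j = TT a b i i v c' j' → c = c' ∧ j = j' := by
  intro c c' hc hc' j j' he
  have h1 : ∀ c : Fin (2 * H), (c : ℕ) < H → TT a b i i v c = v c := by
    intro c hc
    unfold TT
    rw [Function.update_of_ne]
    rintro rfl
    exact hb' hc
  rw [h1 c hc, h1 c' hc'] at he
  exact mem_GI hv _ _ _ _ he

theorem small3 (n k T S C : ℕ) (hn : n < 33125) (hC : 33125 ≤ C) (hk : 1 ≤ k) :
    n ^ 3 ≤ C * (k * (S + 1) * (k * T + n) ^ 2) := by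
  have h1 : 1 ≤ k * (S + 1) := Nat.one_le_iff_ne_zero.mpr (by positivity)
  calc n ^ 3 = n * n ^ 2 := by ring
    _ ≤ C * n ^ 2 := Nat.mul_le_mul_right _ (by omega)
    _ ≤ C * (k * T + n) ^ 2 := by gcongr; omega
    _ = C * (1 * (k * T + n) ^ 2) := by ring
    _ ≤ C * (k * (S + 1) * (k * T + n) ^ 2) := by gcongr

theorem range3 (n H d : ℕ) (hN : 2 * H * d * 2 ≤ n) (hn : 33125 ≤ n) :
    16 * ((91 * (2 * H * d)) * (91 * (2 * H * d))) + 5 ≤ n ^ 3 := by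
  obtain ⟨B, hB⟩ : ∃ B, B = 2 * H * d := ⟨_, rfl⟩
  rw [← hB] at hN ⊢
  have h1 : (B * 2) ^ 2 ≤ n ^ 2 := Nat.pow_le_pow_left hN 2
  have h2 : 33125 * n ^ 2 ≤ n ^ 3 := by
    calc 33125 * n ^ 2 ≤ n * n ^ 2 := Nat.mul_le_mul_right _ hn
      _ = n ^ 3 := by ring
  have h3 : 16 * (91 * B * (91 * B)) = 33124 * (B * 2) ^ 2 := by ring
  have h4 : 5 ≤ n ^ 2 := by nlinarith
  rw [h3]
  calc 33124 * (B * 2) ^ 2 + 5 ≤ 33124 * n ^ 2 + n ^ 2 :=
        Nat.add_le_add (Nat.mul_le_mul_left _ h1) h4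
    _ = 33125 * n ^ 2 := by ring
    _ ≤ n ^ 3 := h2

open Classical in
/-- Markov's inequality -/
theorem markov {k : ℕ} {Ω : Type} [Fintype Ω] (p : Ω → ℝ) (hp : ∀ ω, 0 ≤ p ω)
    (hp1 : ∑ ω, p ω = 1) (P : Ω → DetProg ℤ n k) (T : ℕ) (x : Fin n → ℤ) (b : Bool) (τ : Ω → ℕ)
    (h : ∀ ω, (P ω).Answers (τ ω) x b) (hT : ∑ ω, p ω * τ ω ≤ T) :
    4 / 5 ≤ prob p P (5 * T) x b := by
  have h1 : (5 * (T : ℝ) + 1) * (1 - prob p P (5 * T) x b) ≤ T := by
    refine le_trans ?_ hT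
    have e : 1 - prob p P (5 * T) x b
        = ∑ ω, (p ω - if (P ω).Answers (5 * T) x b then p ω else 0) := by
      rw [Finset.sum_sub_distrib, hp1]
      rfl
    rw [e, mul_sum]
    apply Finset.sum_le_sum
    intro ω _
    by_cases h2 : (P ω).Answers (5 * T) x b
    · rw [if_pos h2, sub_self, mul_zero]
      exact mul_nonneg (hp ω) (Nat.cast_nonneg _)
    · rw [if_neg h2, sub_zero, mul_comm]
      apply mul_le_mul_of_nonneg_left _ (hp ω)
      have h3 : 5 * T + 1 ≤ τ ω := by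
        by_contra hlt
        apply h2
        obtain ⟨t, ht, h4, h5⟩ := h ω
        exact ⟨t, by omega, h4, h5⟩
      exact_mod_cast h3
  have hT0 : (0 : ℝ) ≤ T := Nat.cast_nonneg _
  by_contra hcon
  push Not at hcon
  nlinarith

open Classical in
/-- **3SUM and zero-error slow heads.** -/
theorem s3_zero (n : ℕ) {k : ℕ} {Ω : Type} [Fintype Ω] (p : Ω → ℝ) (hp : ∀ ω, 0 ≤ p ω)
    (hp1 : ∑ ω, p ω = 1) (P : Ω → DetProg ℤ n k) (T S : ℕ) (hk : 1 ≤ k)
    (hS : ∀ ω, Fintype.card (P ω).Q * n ^ k ≤ 2 ^ S)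
    (h : ∀ x : Fin n → ℤ, Function.Injective x → (∀ i, |x i| ≤ (n : ℤ) ^ 3) →
      ∃ τ : Ω → ℕ, (∀ ω, (P ω).Answers (τ ω) x (decide (HasSum3 x))) ∧
        ∑ ω, p ω * τ ω ≤ T) :
    n ^ 3 ≤ 2 * 10 ^ 8 * (k * (S + 1) * (k * T + n) ^ 2) := by
  rcases Nat.lt_or_ge n 33125 with hn | hn
  · exact small3 n k T S _ hn (by norm_num) hk
  by_contra hcon
  push Not at hcon
  obtain ⟨q, H, hq, hN, hK2, hK1⟩ := paramsL n k (5 * T) S 2 (by omega) hk (by norm_num) (by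
    have h1 : (k * (5 * T) + n) ^ 2 ≤ 25 * (k * T + n) ^ 2 := by
      calc (k * (5 * T) + n) ^ 2 ≤ (5 * (k * T + n)) ^ 2 := by
            apply Nat.pow_le_pow_left
            have : k * (5 * T) = 5 * (k * T) := by ring
            omega
        _ = 25 * (k * T + n) ^ 2 := by ring
    calc 4000000 * 2 * (k * (S + 1) * (k * (5 * T) + n) ^ 2)
        ≤ 4000000 * 2 * (k * (S + 1) * (25 * (k * T + n) ^ 2)) := by gcongr
      _ = 2 * 10 ^ 8 * (k * (S + 1) * (k * T + n) ^ 2) := by ring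
      _ < n ^ 3 := hcon)
  obtain ⟨d, hd⟩ : ∃ d, d = 2700 * (q * (S + 1)) := ⟨_, rfl⟩
  rw [← hd] at hN hK1
  have hH0 : 0 < H := by
    have : 0 < 12 * k * (61 * q) := by positivity
    omega
  have hd0 : 0 < d := by rw [hd]; positivity
  have hB : 0 < 2 * H * d := by positivity
  have hU0 : 0 < (91 * (2 * H * d)) * (91 * (2 * H * d)) := by positivity
  have habs : ∀ v : Fin (2 * H) → Fin d → Fin ((91 * (2 * H * d)) * (91 * (2 * H * d))),
      ∀ i, |xw n v hd0 i| ≤ (n : ℤ) ^ 3 :=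
    fun v i => xw_abs v hd0 i (range3 n H d hN hn) (by omega)
  have hfin := engineZ p hp hp1 (fun ω => (P ω).flip) (2 * d) (2 * H) d _ (5 * T)
    (61 * q) (S + 1) (by positivity) hd0 hU0 (Lf H) (Rt H) (disj H) (by rw [card_Lf]; exact hH0)
    (fun v => xw n v hd0) (fun v v' p hv => xw_local v v' hd0 p hv)
    (GI H d _) (GI_card H d hH0 hd0)
    (by
      intro v hv
      rw [prob_flip]
      obtain ⟨τ, h1, h2⟩ := h (xw n v hd0) (xw_inj v hd0 (fun a b _ _ i j => mem_GI hv a b i j)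
        (fun a b _ _ i j => mem_GI hv a b i j)) (habs v)
      have h3 : ¬ HasSum3 (xw n v hd0) := by
        apply xw_none
        intro a b i j ha hb hab
        have := (mem_GI hv a b i j hab).1
        rw [this] at ha
        exact hb ha
      rw [decide_eq_false h3] at h1
      exact markov p hp hp1 P T (xw n v hd0) false τ h1 h2)
    (by
      intro v hv a ha b hb i ω
      have ha' : (a : ℕ) < H := (mem_filter.mp ha).2
      have hb' : ¬ (b : ℕ) < H := (mem_filter.mp hb).2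
      have hab : a ≠ b := by
        rintro rfl
        exact hb' ha'
      obtain ⟨τ, h1, -⟩ := h (xw n (TT a b i i v) hd0) (xw_inj _ hd0
        (TT_left v hv a b hb' i) (TT_right v hv a b ha' hb' i)) (habs _)
      have h2 : HasSum3 (xw n (TT a b i i v) hd0) := by
        apply xw_some (TT a b i i v) hd0 hN (by omega) a b i i ha' hb'
        unfold TT
        rw [Function.update_self, Function.update_of_ne hab, Function.update_self]
      rw [decide_eq_true h2] at h1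
      exact ⟨τ ω, (flip_answers (P ω) (τ ω) _ false).mpr (h1 ω)⟩)
    (by rw [card_Rt]; exact hK1) (by rw [card_Lf]; exact hK2)
    (by
      intro ω
      rw [Fintype.card_prod, Fintype.card_fun, Fintype.card_fin, Fintype.card_fin, pow_succ]
      have h1 := hS ω
      have h2 : Fintype.card ((P ω).flip).Q = Fintype.card (P ω).Q := rfl
      have : 1 ≤ 2 ^ S := Nat.one_le_two_pow
      rw [h2]
      omega)
  have h9 : 42 * (61 * q * (S + 1)) = 2562 * (q * (S + 1)) := by ring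
  have h11 : 1 ≤ q * (S + 1) := Nat.one_le_iff_ne_zero.mpr (by positivity)
  omega

/-- **3SUM and nondeterministic slow heads.** -/
theorem s3_nd (n : ℕ) {k : ℕ} (P : HeadProg ℤ n k) (T S : ℕ)
    (hk : 1 ≤ k) (hS : Fintype.card P.Q * n ^ k ≤ 2 ^ S)
    (hsound : ∀ x : Fin n → ℤ, Function.Injective x → (∀ i, |x i| ≤ (n : ℤ) ^ 3) →
      P.Accepts x → ¬ HasSum3 x)
    (hacc : ∀ x : Fin n → ℤ, Function.Injective x → (∀ i, |x i| ≤ (n : ℤ) ^ 3) →
      ¬ HasSum3 x → P.AcceptsIn T x) :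
    n ^ 3 ≤ 8 * 10 ^ 6 * (k * (S + 1) * (k * T + n) ^ 2) := by
  rcases Nat.lt_or_ge n 33125 with hn | hn
  · exact small3 n k T S _ hn (by norm_num) hk
  by_contra hcon
  push Not at hcon
  obtain ⟨q, H, hq, hN, hK2, hK1⟩ := paramsL n k T S 2 (by omega) hk (by norm_num) (by omega)
  obtain ⟨d, hd⟩ : ∃ d, d = 2700 * (q * (S + 1)) := ⟨_, rfl⟩
  rw [← hd] at hN hK1
  have hH0 : 0 < H := by
    have : 0 < 12 * k * (61 * q) := by positivity
    omega
  have hd0 : 0 < d := by rw [hd]; positivity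
  have hB : 0 < 2 * H * d := by positivity
  have hU0 : 0 < (91 * (2 * H * d)) * (91 * (2 * H * d)) := by positivity
  have habs : ∀ v : Fin (2 * H) → Fin d → Fin ((91 * (2 * H * d)) * (91 * (2 * H * d))),
      ∀ i, |xw n v hd0 i| ≤ (n : ℤ) ^ 3 :=
    fun v i => xw_abs v hd0 i (range3 n H d hN hn) (by omega)
  have hfin := engineLR P (2 * d) (2 * H) d _ T (S + 1)
    (61 * q) (by positivity) (Lf H) (Rt H) (disj H)
    (fun v => xw n v hd0) (fun v v' p hv => xw_local v v' hd0 p hv)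
    (GI H d _) (card_good2 _ (GI_card H d hH0 hd0))
    (by
      intro v hv
      apply hacc _ (xw_inj v hd0 (fun a b _ _ i j => mem_GI hv a b i j)
        (fun a b _ _ i j => mem_GI hv a b i j)) (habs v)
      apply xw_none
      intro a b i j ha hb hab
      have := (mem_GI hv a b i j hab).1
      rw [this] at ha
      exact hb ha)
    (by
      intro x hx y hy a ha b hb hrest hP i hxy
      have ha' : (a : ℕ) < H := (mem_filter.mp ha).2
      have hb' : ¬ (b : ℕ) < H := (mem_filter.mp hb).2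
      have hab : a ≠ b := by
        rintro rfl
        exact hb' ha'
      have hval : ∀ c : Fin (2 * H), ¬ (c : ℕ) < H → Function.update x b (y b) c = y c := by
        intro c hc
        by_cases h1 : c = b
        · rw [h1, Function.update_self]
        · rw [Function.update_of_ne h1]
          exact hrest c (by rintro rfl; exact hc ha') h1
      have hvalL : ∀ c : Fin (2 * H), (c : ℕ) < H → Function.update x b (y b) c = x c := by
        intro c hc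
        apply Function.update_of_ne
        rintro rfl
        exact hb' hc
      have hin : Function.Injective (xw n (Function.update x b (y b)) hd0) := by
        apply xw_inj
        · intro c c' hc hc' j j' he
          rw [hvalL c hc, hvalL c' hc'] at he
          exact mem_GI hx _ _ _ _ he
        · intro c c' hc hc' j j' he
          rw [hval c hc, hval c' hc'] at he
          exact mem_GI hy _ _ _ _ he
      apply hsound _ hin (habs _) hP
      apply xw_some (Function.update x b (y b)) hd0 hN (by omega) a b i i ha' hb'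
      rw [Function.update_self, Function.update_of_ne hab, hxy])
    hU0 (by rw [card_Lf]; exact hH0)
    (by rw [card_Rt]; exact hK1) (by rw [card_Lf]; exact hK2)
    (by
      rw [Fintype.card_prod, Fintype.card_fun, Fintype.card_fin, Fintype.card_fin, pow_succ]
      have : 1 ≤ 2 ^ S := Nat.one_le_two_pow
      omega)
  have h9 : (S + 1) * (61 * q + 1) ≤ 62 * (q * (S + 1)) := by
    calc (S + 1) * (61 * q + 1) ≤ (S + 1) * (62 * q) := Nat.mul_le_mul_left _ (by omega)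
      _ = 62 * (q * (S + 1)) := by ring
  have h11 : 1 ≤ q * (S + 1) := Nat.one_le_iff_ne_zero.mpr (by positivity)
  omega

end Pool.Agent.R562.Ht
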