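import Mathlib

/-!
# Lists of the edges of a graph
-/

set_option autoImplicit false

namespace Pool.Agent.R562.Ht

/-- `e` is a list of the edges of the graph `G`, each edge once, in any order. -/
def EdgeList {V N : ℕ} (G : SimpleGraph (Fin V)) (e : Fin N → Sym2 (Fin V)) : Prop :=
  Function.Injective e ∧ Set.range e = G.edgeSet

end Pool.Agent.R562.Ht
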